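import Pool.Agent.Helper112.Arith

set_option autoImplicit false

/-! # The mean value of `(n/φ(n))²` over short intervals -/

namespace Pool.Agent.K6.H26.QW

open Finset
open Pool.Agent.Helper112

theorem avg_short : ∃ C : ℝ, 0 < C ∧ ∀ u v H : ℕ, 1 ≤ u → 1 ≤ H → v ≤ u + 2 * H → v ≤ 2 * H ^ 2 →
    ∑ n ∈ Icc u v, ((n : ℝ) / (Nat.totient n : ℝ)) ^ 2 ≤ C * H := by
  obtain ⟨C, hC0, hC⟩ := divisor_bound (1/6) (by norm_num)
  have hsum : Summable (fun e : ℕ => C ^ 3 * (1 / (e:ℝ) ^ (3/2 : ℝ))) :=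
    (Real.summable_one_div_nat_rpow.mpr (by norm_num)).mul_left _
  obtain ⟨D, hD⟩ : ∃ D : ℝ, D = ∑' e : ℕ, C ^ 3 * (1 / (e:ℝ) ^ (3/2 : ℝ)) := ⟨_, rfl⟩
  have hDnn : 0 ≤ D := by rw [hD]; exact tsum_nonneg (fun e => by positivity)
  refine ⟨3 * D + 6 * C ^ 4 + 1, by positivity, ?_⟩
  intro u v H hu hH hvu hvH
  have hH1 : (1 : ℝ) ≤ H := by exact_mod_cast hH
  have hH0 : (0 : ℝ) < H := by linarith
  have h3b : ∀ e : ℕ, 1 ≤ e → (e.divisors.card : ℝ) ^ 3 ≤ C ^ 3 * (e:ℝ) ^ (1/2 : ℝ) := by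
    intro e he
    have he0 : (0:ℝ) < e := by exact_mod_cast (by omega : 0 < e)
    have h6 := pow_le_pow_left₀ (by positivity) (hC e he) 3
    rw [mul_pow, ← Real.rpow_natCast ((e:ℝ) ^ (1/6:ℝ)) 3, ← Real.rpow_mul he0.le] at h6
    norm_num at h6 ⊢
    exact h6
  have h1 : ∀ n ∈ Icc u v, ((n : ℝ) / (Nat.totient n : ℝ)) ^ 2 ≤
      ∑ e ∈ Icc 1 H, (if e ∣ n then ((e.divisors.card : ℝ) ^ 3 / e) else 0) + 2 * C ^ 4 := by
    intro n hn
    rw [mem_Icc] at hn
    have hn0 : n ≠ 0 := by omega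
    have h2 := ratio_sq_le n hn0
    refine h2.trans ?_
    rw [← Finset.sum_filter_add_sum_filter_not n.divisors (fun e => e ≤ H)]
    apply add_le_add
    · apply le_of_eq
      rw [← Finset.sum_filter]
      apply Finset.sum_congr _ (fun _ _ => rfl)
      ext e
      rw [mem_filter, mem_filter, mem_Icc, Nat.mem_divisors]
      constructor
      · rintro ⟨⟨h, _⟩, h'⟩
        exact ⟨⟨Nat.pos_of_dvd_of_pos h (by omega), h'⟩, h⟩
      · rintro ⟨⟨_, h'⟩, h⟩
        exact ⟨⟨h, hn0⟩, h'⟩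
    · have h4 : ∀ e ∈ n.divisors.filter (fun e => ¬ e ≤ H), ((e.divisors.card : ℝ) ^ 3 / e) ≤
          C ^ 3 * (H : ℝ) ^ (-(1 / 2) : ℝ) := by
        intro e he
        rw [mem_filter, Nat.mem_divisors] at he
        have he1 : 1 ≤ e := by omega
        have he0 : (0:ℝ) < e := by exact_mod_cast he1
        have heH : (H : ℝ) ≤ e := by exact_mod_cast (by omega : H ≤ e)
        have h5 := h3b e he1
        rw [div_le_iff₀ he0]
        refine h5.trans ?_
        have h6 : (e : ℝ) ^ (1 / 2 : ℝ) = (e : ℝ) ^ (-(1 / 2) : ℝ) * e := by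
          conv_rhs => rw [← Real.rpow_add_one he0.ne']
          norm_num
        have h7 : (e : ℝ) ^ (-(1 / 2) : ℝ) ≤ (H : ℝ) ^ (-(1 / 2) : ℝ) :=
          Real.rpow_le_rpow_of_nonpos hH0 heH (by norm_num)
        rw [h6]
        calc C ^ 3 * ((e : ℝ) ^ (-(1 / 2) : ℝ) * e) = C ^ 3 * (e : ℝ) ^ (-(1 / 2) : ℝ) * e := by ring
          _ ≤ C ^ 3 * (H : ℝ) ^ (-(1 / 2) : ℝ) * e :=
            mul_le_mul_of_nonneg_right (mul_le_mul_of_nonneg_left h7 (by positivity)) he0.le
      have h5 := Finset.sum_le_card_nsmul _ _ _ h4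
      rw [nsmul_eq_mul] at h5
      refine h5.trans ?_
      have h6 : (((n.divisors.filter (fun e => ¬ e ≤ H)).card : ℕ) : ℝ) ≤ C * (n : ℝ) ^ (1 / 6 : ℝ) := by
        refine le_trans ?_ (hC n (by omega))
        exact_mod_cast Finset.card_filter_le _ _
      have h7 : (n : ℝ) ^ (1 / 6 : ℝ) ≤ 2 * (H : ℝ) ^ (1 / 2 : ℝ) := by
        have h8 : (n : ℝ) ≤ 2 * (H : ℝ) ^ 2 := by exact_mod_cast hn.2.trans hvH
        have h9 : (n : ℝ) ^ (1 / 6 : ℝ) ≤ (2 * (H : ℝ) ^ 2) ^ (1 / 6 : ℝ) :=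
          Real.rpow_le_rpow (by positivity) h8 (by norm_num)
        refine h9.trans ?_
        rw [Real.mul_rpow (by norm_num) (by positivity)]
        apply mul_le_mul
        · calc (2 : ℝ) ^ (1 / 6 : ℝ) ≤ (2 : ℝ) ^ (1 : ℝ) :=
                Real.rpow_le_rpow_of_exponent_le (by norm_num) (by norm_num)
            _ = 2 := Real.rpow_one 2
        · rw [← Real.rpow_natCast, ← Real.rpow_mul hH0.le]
          apply Real.rpow_le_rpow_of_exponent_le hH1
          norm_num
        · positivity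
        · norm_num
      have h8 : (H : ℝ) ^ (1 / 2 : ℝ) * (H : ℝ) ^ (-(1 / 2) : ℝ) = 1 := by
        rw [← Real.rpow_add hH0]; norm_num
      calc (((n.divisors.filter (fun e => ¬ e ≤ H)).card : ℕ) : ℝ) * (C ^ 3 * (H : ℝ) ^ (-(1 / 2) : ℝ))
          ≤ (C * (2 * (H : ℝ) ^ (1 / 2 : ℝ))) * (C ^ 3 * (H : ℝ) ^ (-(1 / 2) : ℝ)) := by
            apply mul_le_mul_of_nonneg_right _ (by positivity)
            exact h6.trans (mul_le_mul_of_nonneg_left h7 hC0.le)
        _ = 2 * C ^ 4 * ((H : ℝ) ^ (1 / 2 : ℝ) * (H : ℝ) ^ (-(1 / 2) : ℝ)) := by ring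
        _ = 2 * C ^ 4 := by rw [h8, mul_one]
  refine (Finset.sum_le_sum h1).trans ?_
  rw [Finset.sum_add_distrib, Finset.sum_comm]
  have h2 : ∀ e ∈ Icc 1 H, ∑ r ∈ Icc u v, (if e ∣ r then ((e.divisors.card : ℝ) ^ 3 / e) else 0)
      ≤ (C ^ 3 * (1 / (e:ℝ) ^ (3/2 : ℝ))) * (3 * H) := by
    intro e he
    rw [mem_Icc] at he
    have he0 : (0:ℝ) < e := by exact_mod_cast (by omega : 0 < e)
    have hcard : (((Icc u v).filter (fun r => e ∣ r)).card : ℝ) ≤ 3 * H / e := by
      have g1 : ((Icc u v).filter (fun r => e ∣ r)) ⊆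
          (Icc (u / e) (v / e)).image (fun k => e * k) := by
        intro r hr
        rw [mem_filter, mem_Icc] at hr
        obtain ⟨⟨h1, h2⟩, k, rfl⟩ := hr
        rw [mem_image]
        refine ⟨k, ?_, rfl⟩
        rw [mem_Icc]
        constructor
        · have : u / e ≤ e * k / e := Nat.div_le_div_right h1
          rwa [Nat.mul_div_cancel_left _ (by omega)] at this
        · have : e * k / e ≤ v / e := Nat.div_le_div_right h2
          rwa [Nat.mul_div_cancel_left _ (by omega)] at this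
      -- a sharper inclusion: one multiple in each block
      have g2 : ((Icc u v).filter (fun r => e ∣ r)).card ≤ 2 * H / e + 1 := by
        have g3 : ((Icc u v).filter (fun r => e ∣ r)).card ≤
            ((Icc 0 (2 * H / e))).card := by
          apply Finset.card_le_card_of_injOn (fun r => (r - u) / e)
          · intro r hr
            rw [mem_coe, mem_filter, mem_Icc] at hr
            rw [mem_coe, mem_Icc]
            exact ⟨Nat.zero_le _, Nat.div_le_div_right (by omega)⟩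
          · intro r hr r' hr' hrr
            rw [mem_coe, mem_filter, mem_Icc] at hr hr'
            obtain ⟨⟨a1, a2⟩, k, rfl⟩ := hr
            obtain ⟨⟨b1, b2⟩, k', rfl⟩ := hr'
            simp only at hrr
            have e1 := Nat.div_add_mod (e * k - u) e
            have e2 := Nat.div_add_mod (e * k' - u) e
            have e3 := Nat.mod_lt (e * k - u) (show e > 0 by omega)
            have e4 := Nat.mod_lt (e * k' - u) (show e > 0 by omega)
            rw [hrr] at e1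
            by_contra hne
            have hkk : k ≠ k' := fun h => hne (by rw [h])
            rcases lt_or_gt_of_ne hkk with h | h
            · have : e * (k + 1) ≤ e * k' := Nat.mul_le_mul_left _ h
              have e5 : e * (k + 1) = e * k + e := by ring
              omega
            · have : e * (k' + 1) ≤ e * k := Nat.mul_le_mul_left _ h
              have e5 : e * (k' + 1) = e * k' + e := by ring
              omega
        rw [Nat.card_Icc] at g3
        omega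
      have g4 : ((2 * H / e : ℕ) : ℝ) ≤ 2 * H / e := by
        have := @Nat.cast_div_le ℝ _ _ _ (2 * H) e
        push_cast at this
        exact this
      have g5 : (1 : ℝ) ≤ H / e := by
        rw [one_le_div he0]
        exact_mod_cast he.2
      have g6 : (((Icc u v).filter (fun r => e ∣ r)).card : ℝ) ≤ ((2 * H / e : ℕ) : ℝ) + 1 := by
        exact_mod_cast g2
      have g7 : 3 * (H : ℝ) / e = 2 * H / e + H / e := by ring
      rw [g7]
      linarith
    have h3 : ∑ r ∈ Icc u v, (if e ∣ r then ((e.divisors.card : ℝ) ^ 3 / e) else 0)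
        = (((Icc u v).filter (fun r => e ∣ r)).card : ℝ) * ((e.divisors.card : ℝ) ^ 3 / e) := by
      rw [← Finset.sum_filter, Finset.sum_const, nsmul_eq_mul]
    rw [h3]
    have h5 := h3b e he.1
    have h6 : (e.divisors.card : ℝ) ^ 3 / (e * e) ≤ C ^ 3 * (1 / (e:ℝ) ^ (3/2 : ℝ)) := by
      have h7 : (e:ℝ) * e = (e:ℝ) ^ (1/2:ℝ) * (e:ℝ) ^ (3/2:ℝ) := by
        rw [← Real.rpow_add he0, ← pow_two, ← Real.rpow_natCast]; norm_num
      rw [h7, div_le_iff₀ (by positivity)]
      have h8 : C ^ 3 * (1 / (e:ℝ) ^ (3/2 : ℝ)) * ((e:ℝ) ^ (1/2:ℝ) * (e:ℝ) ^ (3/2:ℝ)) = C ^ 3 * (e:ℝ) ^ (1/2:ℝ) := by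
        field_simp
      rw [h8]; exact h5
    calc (((Icc u v).filter (fun r => e ∣ r)).card : ℝ) * ((e.divisors.card : ℝ) ^ 3 / e)
        ≤ (3 * H / e) * ((e.divisors.card : ℝ) ^ 3 / e) :=
          mul_le_mul_of_nonneg_right hcard (by positivity)
      _ = ((e.divisors.card : ℝ) ^ 3 / (e * e)) * (3 * H) := by field_simp
      _ ≤ _ := mul_le_mul_of_nonneg_right h6 (by positivity)
  have h3 : ∑ e ∈ Icc 1 H, C ^ 3 * (1 / (e:ℝ) ^ (3/2 : ℝ)) ≤ D := by
    rw [hD]
    exact hsum.sum_le_tsum _ (fun e _ => by positivity)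
  have h4 : ∑ e ∈ Icc 1 H, ∑ r ∈ Icc u v, (if e ∣ r then ((e.divisors.card : ℝ) ^ 3 / e) else 0) ≤
      D * (3 * H) := by
    refine (Finset.sum_le_sum h2).trans ?_
    rw [← Finset.sum_mul]
    exact mul_le_mul_of_nonneg_right h3 (by positivity)
  have h5 : ∑ _n ∈ Icc u v, 2 * C ^ 4 ≤ 6 * C ^ 4 * H := by
    rw [Finset.sum_const, nsmul_eq_mul, Nat.card_Icc]
    have h6 : ((v + 1 - u : ℕ) : ℝ) ≤ 3 * H := by
      have : v + 1 - u ≤ 3 * H := by omega
      exact_mod_cast this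
    calc ((v + 1 - u : ℕ) : ℝ) * (2 * C ^ 4) ≤ 3 * H * (2 * C ^ 4) :=
          mul_le_mul_of_nonneg_right h6 (by positivity)
      _ = 6 * C ^ 4 * H := by ring
  nlinarith

end Pool.Agent.K6.H26.QW
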