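import Pool.Agent.K6.H26.QW.Box
import Pool.Agent.H426R3.SQ.Tot2

set_option autoImplicit false

/-! # The box theorem with small classes `0` -/

namespace Pool.Agent.K6.H26.QW

open Finset Filter
open Pool.Agent.H256R2.SC (ff)
open scoped Classical

theorem box_gen (sw : Bool) : ∃ c : ℝ, 0 < c ∧ ∃ Z₀ : ℝ, ∀ Z : ℝ, Z₀ ≤ Z → ∀ M : ℝ, Z ≤ M →
    ∀ (A B : ℕ) (K : ℝ), 1 ≤ A → Real.log Z ≤ K → ((A : ℝ) + 1) * ((B : ℝ) + 1) * K ≤ c * ff Z →
    ∃ x : ℕ, M < x ∧ (x : ℝ) ≤ M + Z ∧ (sw = true → ∀ p : ℕ, p.Prime →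
        (p : ℝ) ≤ Pool.Agent.H378R2.QG.w0 (Real.log Z / 10) → p ∣ x) ∧
      ∀ a b : ℤ, 0 ≤ a → a ≤ A → |b| ≤ B → (a = 0 → 0 < b) →
        ∀ q : ℕ, q.Prime → K < |(q : ℝ) - (a * (x : ℝ) ^ 2 + b * x)| := by
  obtain ⟨c, hc, Z₁, hmain⟩ := main_gen sw
  obtain ⟨C, hC, havg⟩ := avg_ratio
  obtain ⟨Z₂, hev⟩ := ev_size (c / (16 * C + c)) (by positivity)
  refine ⟨c / (16 * C + c), by positivity, max Z₁ Z₂, fun Z hZ M hM A B K hA hK hABK => ?_⟩
  obtain ⟨e1, e2, e3, e4⟩ := hev Z ((le_max_right _ _).trans hZ)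
  have hA0 : (0 : ℝ) ≤ A := by positivity
  have hB0 : (0 : ℝ) ≤ B := by positivity
  obtain ⟨v, hv⟩ : ∃ v : ℝ, v = (Real.log Z) ^ (1 / 20 : ℝ) := ⟨_, rfl⟩
  rw [← hv] at e3 e4
  -- the size of the coefficients
  have hD : ((A : ℝ) + 1) * ((B : ℝ) + 1) ≤ v := by
    have h1 : ((A : ℝ) + 1) * ((B : ℝ) + 1) * Real.log Z ≤ v * Real.log Z :=
      (mul_le_mul_of_nonneg_left hK (by positivity)).trans (hABK.trans e3)
    exact le_of_mul_le_mul_right h1 e1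
  have hAv : (A : ℝ) ≤ v := by nlinarith
  have hBv : (B : ℝ) ≤ v := by nlinarith
  have hne : (box A B).Nonempty := ⟨(1, 0), mem_box.2 ⟨⟨by norm_num, by show (1 : ℤ) ≤ A; exact_mod_cast hA⟩,
    ⟨by simp, by simp⟩, by simp⟩⟩
  obtain ⟨k, hk1, hk2⟩ := exists_pow_two (2 * B + 1) (by omega)
  obtain ⟨r, hr⟩ : ∃ r : ℕ, r = 2 ^ k := ⟨_, rfl⟩
  rw [← hr] at hk1 hk2
  have hr0 : 0 < r := by omega
  -- the numbers `a r + b`
  obtain ⟨N, hN⟩ : ∃ N : ℕ, N = A * r + B := ⟨_, rfl⟩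
  have hn : ∀ t ∈ box A B, 1 ≤ t.1 * r + t.2 ∧ t.1 * r + t.2 ≤ (N : ℤ) := by
    intro t ht
    obtain ⟨⟨h1, h2⟩, ⟨h3, h4⟩, h5⟩ := mem_box.1 ht
    have hrZ : (2 * (B : ℤ) + 1) ≤ (r : ℤ) := by exact_mod_cast hk1
    constructor
    · rcases eq_or_lt_of_le h1 with h | h
      · have := h5 h.symm
        rw [← h]
        omega
      · have : (r : ℤ) ≤ t.1 * r := le_mul_of_one_le_left (by positivity) h
        omega
    · rw [hN]
      push_cast
      have : t.1 * (r : ℤ) ≤ A * r := mul_le_mul_of_nonneg_right h2 (by positivity)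
      omega
  have hinj : Set.InjOn (fun t : ℤ × ℤ => (t.1 * (r : ℤ) + t.2).natAbs) (box A B : Set (ℤ × ℤ)) := by
    intro t ht t' ht' e
    obtain ⟨⟨h1, h2⟩, ⟨h3, h4⟩, h5⟩ := mem_box.1 (Finset.mem_coe.1 ht)
    obtain ⟨⟨h1', h2'⟩, ⟨h3', h4'⟩, h5'⟩ := mem_box.1 (Finset.mem_coe.1 ht')
    have g := (hn t ht).1
    have g' := (hn t' ht').1
    have e1 : t.1 * (r : ℤ) + t.2 = t'.1 * (r : ℤ) + t'.2 := by
      have e0 : (t.1 * (r : ℤ) + t.2).natAbs = (t'.1 * (r : ℤ) + t'.2).natAbs := e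
      omega
    have hrZ : (2 * (B : ℤ) + 1) ≤ (r : ℤ) := by exact_mod_cast hk1
    have e2 : t.1 = t'.1 := by
      by_contra hne'
      rcases lt_or_gt_of_ne hne' with h | h
      · have h6 : (t.1 + 1) * (r : ℤ) ≤ t'.1 * r := mul_le_mul_of_nonneg_right (by omega) (by positivity)
        have h7 : (t.1 + 1) * (r : ℤ) = t.1 * r + r := by ring
        omega
      · have h6 : (t'.1 + 1) * (r : ℤ) ≤ t.1 * r := mul_le_mul_of_nonneg_right (by omega) (by positivity)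
        have h7 : (t'.1 + 1) * (r : ℤ) = t'.1 * r + r := by ring
        omega
    have e3 : t.2 = t'.2 := by
      rw [e2] at e1
      omega
    exact Prod.ext e2 e3
  have hss : ∀ t ∈ box A B, ss r t = ((2 : ℕ) ^ k : ℕ) * (((t.1 * (r : ℤ) + t.2).natAbs : ℕ) : ℤ) := by
    intro t ht
    have g := (hn t ht).1
    unfold ss
    rw [← hr, Int.natAbs_of_nonneg (by omega)]
  have hsum : ∑ t ∈ box A B, GG (ss r t) ^ 2 ≤ 4 * (C * N) := by
    have h1 : ∑ t ∈ box A B, GG (ss r t) ^ 2 ≤ ∑ t ∈ box A B,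
        4 * ((((t.1 * (r : ℤ) + t.2).natAbs : ℕ) : ℝ) /
          (Nat.totient ((t.1 * (r : ℤ) + t.2).natAbs) : ℝ)) ^ 2 := by
      apply Finset.sum_le_sum
      intro t ht
      have g := (hn t ht).1
      rw [hss t ht]
      have h2 := GG_pow_two k ((t.1 * (r : ℤ) + t.2).natAbs) (by omega)
      have h3 : 0 ≤ GG (((2 : ℕ) ^ k : ℕ) * (((t.1 * (r : ℤ) + t.2).natAbs : ℕ) : ℤ)) := by
        unfold GG; positivity
      have h4 := pow_le_pow_left₀ h3 h2 2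
      rw [mul_pow] at h4
      norm_num at h4 ⊢
      exact h4
    refine h1.trans ?_
    rw [← Finset.mul_sum]
    apply mul_le_mul_of_nonneg_left _ (by norm_num)
    rw [← Finset.sum_image (s := box A B) (g := fun t : ℤ × ℤ => (t.1 * (r : ℤ) + t.2).natAbs)
      (f := fun n : ℕ => ((n : ℝ) / (Nat.totient n : ℝ)) ^ 2) hinj]
    refine le_trans ?_ (havg N)
    apply Finset.sum_le_sum_of_subset_of_nonneg
    · intro n hn'
      rw [mem_image] at hn'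
      obtain ⟨t, ht, rfl⟩ := hn'
      obtain ⟨g1, g2⟩ := hn t ht
      rw [Finset.mem_Icc]
      omega
    · intro _ _ _
      positivity
  have hrR : (r : ℝ) ≤ 2 * (2 * B + 1) := by exact_mod_cast hk2
  have hNR : (N : ℝ) ≤ 4 * (((A : ℝ) + 1) * ((B : ℝ) + 1)) := by
    rw [hN]
    push_cast
    have : (A : ℝ) * r ≤ A * (2 * (2 * B + 1)) := mul_le_mul_of_nonneg_left hrR hA0
    nlinarith
  have hK0 : 0 ≤ K := by linarith
  have hT1 : ∀ t ∈ box A B, 0 ≤ t.1 ∧ (t.1 : ℝ) ≤ (Real.log Z) ^ (1 / 20 : ℝ) ∧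
      |(t.2 : ℝ)| ≤ (Real.log Z) ^ (1 / 20 : ℝ) ∧ (t.1 = 0 → 0 < t.2) := by
    intro t ht
    obtain ⟨⟨h1, h2⟩, h3, h5⟩ := mem_box.1 ht
    rw [← hv]
    refine ⟨h1, ?_, ?_, h5⟩
    · refine le_trans ?_ hAv
      exact_mod_cast h2
    · refine le_trans ?_ hBv
      have : |t.2| ≤ (B : ℤ) := abs_le.2 h3
      exact_mod_cast this
  have hT2 : ∀ t ∈ box A B, ss r t ≠ 0 ∧ |(ss r t : ℝ)| ≤ Real.log Z := by
    intro t ht
    obtain ⟨g1, g2⟩ := hn t ht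
    have hpos : 0 < ss r t := by
      unfold ss
      have : (0 : ℤ) < r := by exact_mod_cast hr0
      exact mul_pos this (by omega)
    refine ⟨hpos.ne', ?_⟩
    rw [abs_of_nonneg (by exact_mod_cast hpos.le)]
    have h1 : ss r t ≤ r * N := by
      unfold ss
      exact mul_le_mul_of_nonneg_left g2 (by positivity)
    have h2 : (ss r t : ℝ) ≤ r * N := by exact_mod_cast h1
    have h3 : (r : ℝ) ≤ 4 * (((A : ℝ) + 1) * ((B : ℝ) + 1)) := by nlinarith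
    have h4 : (r : ℝ) * N ≤ (4 * (((A : ℝ) + 1) * ((B : ℝ) + 1))) *
        (4 * (((A : ℝ) + 1) * ((B : ℝ) + 1))) := mul_le_mul h3 hNR (by positivity) (by positivity)
    have h5 : (((A : ℝ) + 1) * ((B : ℝ) + 1)) ^ 2 ≤ v ^ 2 := pow_le_pow_left₀ (by positivity) hD 2
    nlinarith
  have hT3 : (∑ t ∈ box A B, GG (ss r t) ^ 2) * K ≤ c * ff Z := by
    have h1 : (∑ t ∈ box A B, GG (ss r t) ^ 2) * K ≤ 4 * (C * N) * K :=
      mul_le_mul_of_nonneg_right hsum hK0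
    have h2 : 4 * (C * N) * K ≤ 16 * C * (((A : ℝ) + 1) * ((B : ℝ) + 1) * K) := by
      have := mul_le_mul_of_nonneg_left hNR (show 0 ≤ 4 * C * K by positivity)
      nlinarith
    have h3 : 16 * C * (((A : ℝ) + 1) * ((B : ℝ) + 1) * K) ≤ 16 * C * (c / (16 * C + c) * ff Z) :=
      mul_le_mul_of_nonneg_left hABK (by positivity)
    have h4 : 0 ≤ c / (16 * C + c) * ff Z := le_trans (by positivity) hABK
    have h5 : (16 * C + c) * (c / (16 * C + c) * ff Z) = c * ff Z := by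
      field_simp
    nlinarith
  obtain ⟨x, hx1, hx2, hx3, hx4⟩ := hmain Z ((le_max_left _ _).trans hZ) M hM (box A B) r K hne hK
    hT1 hT2 hT3
  refine ⟨x, hx1, hx2, fun hsw p hp hpw => ?_, fun a b h1 h2 h3 h4 q hq => ?_⟩
  · have := hx3 p hp hpw
    rw [hsw] at this
    simp only [if_true] at this
    have h' : (p : ℤ) ∣ (x : ℤ) := by
      simpa using this
    exact_mod_cast h'
  · exact hx4 (a, b) (mem_box.2 ⟨⟨h1, h2⟩, abs_le.1 h3, h4⟩) q hq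

/-- `w0` is large -/
theorem ev_w0 : ∃ X₀ : ℝ, ∀ Z : ℝ, X₀ ≤ Z → 4 ≤ Pool.Agent.H378R2.QG.w0 (Real.log Z / 10) ∧
    0 < Real.log (Real.log Z) ∧ 0 < Real.log (Real.log (Real.log Z)) ∧
    0 < Real.log (Real.log (Real.log (Real.log Z))) ∧
    Real.log (Real.log Z) * Real.log (Real.log (Real.log (Real.log Z))) /
      (40 * Real.log (Real.log (Real.log Z))) ≤
        Real.log (Pool.Agent.H378R2.QG.w0 (Real.log Z / 10)) := by
  have h3 : ∀ᶠ Z : ℝ in atTop, 2 ≤ Real.log (Real.log (Real.log (Real.log Z))) :=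
    (Real.tendsto_log_atTop.comp (Real.tendsto_log_atTop.comp
      (Real.tendsto_log_atTop.comp Real.tendsto_log_atTop))).eventually_ge_atTop _
  have h4 : ∀ᶠ Z : ℝ in atTop, 4 ≤ Real.log (Real.log (Real.log Z)) :=
    (Real.tendsto_log_atTop.comp (Real.tendsto_log_atTop.comp
      Real.tendsto_log_atTop)).eventually_ge_atTop _
  have h5 : ∀ᶠ Z : ℝ in atTop, 100 ≤ Real.log (Real.log Z) :=
    (Real.tendsto_log_atTop.comp Real.tendsto_log_atTop).eventually_ge_atTop _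
  have h6 : ∀ᶠ Z : ℝ in atTop, 1000 ≤ Real.log Z := Real.tendsto_log_atTop.eventually_ge_atTop _
  have h7 : ∀ᶠ t : ℝ in atTop, Real.log t ≤ t / 40 := by
    have := (Real.isLittleO_log_id_atTop).def (show (0:ℝ) < 1 / 40 by norm_num)
    filter_upwards [this, eventually_ge_atTop (1:ℝ)] with t ht h1
    rw [Real.norm_eq_abs, Real.norm_eq_abs, id, abs_of_nonneg (Real.log_nonneg h1),
      abs_of_nonneg (by linarith)] at ht
    linarith
  have h7' := (Real.tendsto_log_atTop.comp Real.tendsto_log_atTop).eventually h7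
  obtain ⟨X₀, hX₀⟩ := eventually_atTop.1 (((h3.and h4).and (h5.and h6)).and h7')
  refine ⟨X₀, fun Z hZ => ?_⟩
  obtain ⟨⟨⟨e3, e4⟩, e5, e6⟩, e7⟩ := hX₀ Z hZ
  simp only [Function.comp] at e7
  have hlow := Pool.Agent.H426R3.SQ.log_zR_lower e6 e5 e4 e3
  have hz : Pool.Agent.H426R3.SQ.zR (Real.log Z / 10) = Pool.Agent.H378R2.QG.w0 (Real.log Z / 10) := rfl
  rw [hz] at hlow
  refine ⟨?_, by linarith, by linarith, by linarith, hlow⟩
  have h8 : 2 ≤ Real.log (Pool.Agent.H378R2.QG.w0 (Real.log Z / 10)) := by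
    refine le_trans ?_ hlow
    have hp : 0 < Real.log (Real.log (Real.log Z)) := by linarith
    rw [le_div_iff₀ (by positivity)]
    nlinarith
  have hpos : 0 < Pool.Agent.H378R2.QG.w0 (Real.log Z / 10) := Real.exp_pos _
  rw [Real.le_log_iff_exp_le hpos] at h8
  have h9 : 4 ≤ Real.exp 2 := by
    have h1 := Real.quadratic_le_exp_of_nonneg (show (0:ℝ) ≤ 2 by norm_num)
    linarith
  linarith

/-- the box theorem with a small totient -/
theorem box_totient : ∃ c C : ℝ, 0 < c ∧ 0 < C ∧ ∃ Z₀ : ℝ, ∀ Z : ℝ, Z₀ ≤ Z → ∀ M : ℝ, Z ≤ M →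
    ∀ (J : ℕ) (K : ℝ), 1 ≤ J → Real.log Z ≤ K → (J : ℝ) * K ≤ c * ff Z →
    ∃ n : ℕ, M < n ∧ (n : ℝ) ≤ M + Z ∧
      (Nat.totient n : ℝ) ≤ C * n * Real.log (Real.log (Real.log Z)) /
        (Real.log (Real.log Z) * Real.log (Real.log (Real.log (Real.log Z)))) ∧
      ∀ j : ℤ, |j| ≤ J → ∀ q : ℕ, q.Prime → K < |(q : ℝ) - ((n : ℝ) + j) ^ 2| ∧
        K < |(q : ℝ) - (n : ℝ) * (n + j)| ∧ (0 < j → K < |(q : ℝ) - j * n|) := by
  obtain ⟨c, hc, Z₁, hbox⟩ := box_gen true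
  obtain ⟨Ct, hCt, htot⟩ := Pool.Agent.H426R3.SQ.tot_bound
  obtain ⟨Z₂, hev⟩ := ev_w0
  obtain ⟨Z₃, hsz⟩ := ev_size (c / 12) (by positivity)
  refine ⟨c / 12, 40 * Ct, by positivity, by positivity, max Z₁ (max Z₂ Z₃),
    fun Z hZ M hM J K hJ hK hJK => ?_⟩
  obtain ⟨w1, w2, w3, w4, w5⟩ := hev Z (((le_max_left _ _).trans (le_max_right _ _)).trans hZ)
  obtain ⟨e1, e2, e3, e4⟩ := hsz Z (((le_max_right _ _).trans (le_max_right _ _)).trans hZ)
  obtain ⟨v, hv⟩ : ∃ v : ℝ, v = (Real.log Z) ^ (1 / 20 : ℝ) := ⟨_, rfl⟩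
  rw [← hv] at e3 e4
  have hJ1 : (1 : ℝ) ≤ J := by exact_mod_cast hJ
  have hJv : (J : ℝ) ≤ v := by
    have h1 : (J : ℝ) * Real.log Z ≤ v * Real.log Z :=
      (mul_le_mul_of_nonneg_left hK (by positivity)).trans (hJK.trans e3)
    exact le_of_mul_le_mul_right h1 e1
  have hK0 : 0 < K := by linarith
  have hJ2 : (J : ℝ) ^ 2 ≤ K := by
    have : (J : ℝ) ^ 2 ≤ v ^ 2 := pow_le_pow_left₀ (by positivity) hJv 2
    nlinarith
  obtain ⟨n, h1, h2, h3, h4⟩ := hbox Z ((le_max_left _ _).trans hZ) M hM 1 (2 * J) (2 * K) le_rfl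
    (by linarith) (by
      push_cast
      have h5 : ((1 : ℝ) + 1) * (2 * J + 1) * (2 * K) ≤ 12 * (J * K) := by nlinarith
      linarith)
  have hn1 : 1 ≤ n := by
    have : (0 : ℝ) < n := by linarith
    exact_mod_cast this
  refine ⟨n, h1, h2, ?_, fun j hj q hq => ⟨?_, ?_, ?_⟩⟩
  · have g1 := htot _ w1 n hn1 (h3 rfl)
    refine g1.trans ?_
    have g2 : Ct * n / Real.log (Pool.Agent.H378R2.QG.w0 (Real.log Z / 10)) ≤
        Ct * n / (Real.log (Real.log Z) * Real.log (Real.log (Real.log (Real.log Z))) /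
          (40 * Real.log (Real.log (Real.log Z)))) :=
      div_le_div_of_nonneg_left (by positivity) (by positivity) w5
    refine g2.trans (le_of_eq ?_)
    field_simp
  · have g1 := h4 1 (2 * j) (by norm_num) (by norm_num) (by
      rw [abs_mul]
      push_cast
      have : |(2 : ℤ)| = 2 := by norm_num
      rw [this]
      linarith) (by intro h; norm_num at h) q hq
    push_cast at g1
    have g2 : ((j : ℝ)) ^ 2 ≤ K := by
      have g3 : |(j : ℝ)| ≤ J := by exact_mod_cast hj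
      have g4 : ((j : ℝ)) ^ 2 ≤ (J : ℝ) ^ 2 := by
        rw [← sq_abs]; exact pow_le_pow_left₀ (abs_nonneg _) g3 2
      linarith
    have g5 : (q : ℝ) - ((n : ℝ) + j) ^ 2 = ((q : ℝ) - (1 * (n : ℝ) ^ 2 + 2 * j * n)) - (j : ℝ) ^ 2 := by
      ring
    rw [g5]
    have g6 := abs_sub_abs_le_abs_sub ((q : ℝ) - (1 * (n : ℝ) ^ 2 + 2 * j * n)) ((j : ℝ) ^ 2)
    rw [abs_of_nonneg (sq_nonneg (j : ℝ))] at g6
    linarith
  · have g1 := h4 1 j (by norm_num) (by norm_num) (by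
      push_cast
      linarith [abs_nonneg j]) (by intro h; norm_num at h) q hq
    push_cast at g1
    have g5 : (q : ℝ) - (n : ℝ) * (n + j) = (q : ℝ) - (1 * (n : ℝ) ^ 2 + j * n) := by ring
    rw [g5]
    linarith
  · intro hj0
    have g1 := h4 0 j (by norm_num) (by norm_num) (by
      push_cast
      linarith [abs_nonneg j]) (by intro _; exact hj0) q hq
    push_cast at g1
    have g5 : (q : ℝ) - (j : ℝ) * n = (q : ℝ) - (0 * (n : ℝ) ^ 2 + j * n) := by ring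
    rw [g5]
    linarith

end Pool.Agent.K6.H26.QW
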