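import Pool.Agent.H256R2.SC.G1

set_option autoImplicit false

/-! # Sizes for large `Z` -/

namespace Pool.Agent.K6.H26.QW

open Filter
open Pool.Agent.H256R2.SC (ff)

theorem ev_size (c : ℝ) (hc : 0 < c) : ∃ X₀ : ℝ, ∀ Z : ℝ, X₀ ≤ Z → 0 < Real.log Z ∧ 1 ≤ Z ∧
    c * ff Z ≤ (Real.log Z) ^ (1 / 20 : ℝ) * Real.log Z ∧
    16 * ((Real.log Z) ^ (1 / 20 : ℝ)) ^ 2 ≤ Real.log Z := by
  have h1 := (isLittleO_log_rpow_rpow_atTop (s := 1 / 20) 3 (by norm_num)).def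
    (show (0 : ℝ) < 1 / c by positivity)
  have h2 : ∀ᶠ t : ℝ in atTop, 16 ≤ t ^ (9 / 10 : ℝ) :=
    (tendsto_rpow_atTop (by norm_num)).eventually_ge_atTop 16
  have h3 : ∀ᶠ t : ℝ in atTop, Real.exp 1 ≤ Real.log (Real.log t) :=
    (Real.tendsto_log_atTop.comp Real.tendsto_log_atTop).eventually_ge_atTop _
  obtain ⟨X₀, hX₀⟩ := eventually_atTop.1 ((Real.tendsto_log_atTop.eventually
    ((h1.and (h2.and h3)).and (eventually_ge_atTop (1 : ℝ)))).and (eventually_ge_atTop (1 : ℝ)))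
  refine ⟨X₀, fun Z hZ => ?_⟩
  obtain ⟨⟨⟨e1, e2, e3⟩, e4⟩, e5⟩ := hX₀ Z hZ
  obtain ⟨t, ht⟩ : ∃ t : ℝ, t = Real.log Z := ⟨_, rfl⟩
  rw [← ht] at e1 e2 e3 e4
  have ht0 : 0 < t := by linarith
  have hl0 : 0 ≤ Real.log t := Real.log_nonneg e4
  refine ⟨by rw [← ht]; exact ht0, e5, ?_, ?_⟩
  · unfold ff
    rw [← ht]
    rw [Real.norm_eq_abs, Real.norm_eq_abs, abs_of_nonneg (Real.rpow_nonneg hl0 _),
      abs_of_nonneg (Real.rpow_nonneg ht0.le _)] at e1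
    have e6 : (Real.log t) ^ (3 : ℝ) = (Real.log t) ^ 3 := by
      rw [← Real.rpow_natCast]; norm_num
    rw [e6] at e1
    obtain ⟨s, hs⟩ : ∃ s : ℝ, s = Real.log t := ⟨_, rfl⟩
    rw [← hs] at e1 e3 hl0 ⊢
    have he1 : 1 ≤ Real.exp 1 := Real.one_le_exp (by norm_num)
    have e7 : 0 < Real.log s := by linarith
    have e8 : 1 ≤ Real.log s := by linarith
    have e9 : Real.log (Real.log s) ≤ Real.log s := (Real.log_le_sub_one_of_pos e7).trans (by linarith)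
    have hs1 : 0 < s := by
      by_contra h
      have hs2 : s = 0 := le_antisymm (not_lt.1 h) hl0
      rw [hs2, Real.log_zero] at e8
      linarith
    have e10 : Real.log s ≤ s := (Real.log_le_sub_one_of_pos hs1).trans (by linarith)
    have e11 : 1 ≤ (Real.log s) ^ 2 := one_le_pow₀ e8
    have e12 : t * s ^ 2 * Real.log (Real.log s) / (Real.log s) ^ 2 ≤ t * s ^ 3 := by
      rw [div_le_iff₀ (by positivity)]
      have e13 : t * s ^ 2 * Real.log (Real.log s) ≤ t * s ^ 2 * s :=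
        mul_le_mul_of_nonneg_left (e9.trans e10) (by positivity)
      have e14 : t * s ^ 3 ≤ t * s ^ 3 * (Real.log s) ^ 2 := le_mul_of_one_le_right (by positivity) e11
      nlinarith
    have e15 : c * s ^ 3 ≤ t ^ (1 / 20 : ℝ) := by
      have := mul_le_mul_of_nonneg_left e1 hc.le
      rw [← mul_assoc, mul_one_div_cancel hc.ne', one_mul] at this
      exact this
    calc c * (t * s ^ 2 * Real.log (Real.log s) / (Real.log s) ^ 2) ≤ c * (t * s ^ 3) :=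
          mul_le_mul_of_nonneg_left e12 hc.le
      _ = (c * s ^ 3) * t := by ring
      _ ≤ t ^ (1 / 20 : ℝ) * t := mul_le_mul_of_nonneg_right e15 ht0.le
  · rw [← ht]
    have e6 : (t ^ (1 / 20 : ℝ)) ^ 2 = t ^ (1 / 10 : ℝ) := by
      rw [← Real.rpow_natCast, ← Real.rpow_mul ht0.le]; norm_num
    have e7 : t = t ^ (9 / 10 : ℝ) * t ^ (1 / 10 : ℝ) := by
      rw [← Real.rpow_add ht0]; norm_num
    rw [e6]
    have e8 : 0 < t ^ (1 / 10 : ℝ) := Real.rpow_pos_of_pos ht0 _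
    nlinarith

end Pool.Agent.K6.H26.QW
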