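import Pool.Agent.K6.H26.QW.Main
import Pool.Agent.K6.H26.QW.Avg
import Pool.Agent.K6.H26.QW.EvSize

set_option autoImplicit false

/-! # All polynomials `a x² + b x` with small coefficients at once -/

namespace Pool.Agent.K6.H26.QW

open Finset Filter
open Pool.Agent.H256R2.SC (ff)
open scoped Classical

/-- the pairs `(a, b)` -/
noncomputable def box (A B : ℕ) : Finset (ℤ × ℤ) :=
  (Finset.Icc (0 : ℤ) A ×ˢ Finset.Icc (-(B : ℤ)) B).filter (fun t => t.1 = 0 → 0 < t.2)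

theorem mem_box {A B : ℕ} {t : ℤ × ℤ} : t ∈ box A B ↔
    (0 ≤ t.1 ∧ t.1 ≤ A) ∧ (-(B : ℤ) ≤ t.2 ∧ t.2 ≤ B) ∧ (t.1 = 0 → 0 < t.2) := by
  unfold box
  rw [mem_filter, mem_product, Finset.mem_Icc, Finset.mem_Icc, and_assoc]

/-- `GG` of a power of two times `n` -/
theorem GG_pow_two (k n : ℕ) (hn : 0 < n) :
    GG (((2 : ℕ) ^ k : ℕ) * (n : ℤ)) ≤ 2 * ((n : ℝ) / (Nat.totient n : ℝ)) := by
  have h0 : (0 : ℝ) < (Nat.totient n : ℝ) := by exact_mod_cast Nat.totient_pos.2 hn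
  have h1 := ratio_mul (m := 2 ^ k) (s := (n : ℤ)) (by positivity) (by exact_mod_cast hn.ne')
  have h2 : GG (((2 : ℕ) ^ k : ℕ) * (n : ℤ)) =
      (((2 ^ k * (n : ℤ).natAbs : ℕ) : ℝ) / (Nat.totient (2 ^ k * (n : ℤ).natAbs) : ℝ)) := by
    unfold GG
    rw [Int.natAbs_mul, Int.natAbs_natCast]
  rw [h2]
  refine h1.trans ?_
  have h3 : GG (n : ℤ) = (n : ℝ) / (Nat.totient n : ℝ) := by
    unfold GG
    rw [Int.natAbs_natCast]
  rw [h3]
  apply mul_le_mul_of_nonneg_right _ (by positivity)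
  rcases Nat.eq_zero_or_pos k with h | h
  · rw [h]; norm_num
  · have h4 : Nat.totient (2 ^ k) = 2 ^ (k - 1) := by
      rw [Nat.totient_prime_pow Nat.prime_two h]
      norm_num
    have h5 : (2 : ℕ) ^ k = 2 * 2 ^ (k - 1) := by
      conv_lhs => rw [show k = 1 + (k - 1) by omega, pow_add, pow_one]
    rw [h4, h5]
    have h6 : (0 : ℝ) < ((2 ^ (k - 1) : ℕ) : ℝ) := by positivity
    rw [div_le_iff₀ h6]
    push_cast
    exact le_rfl

/-- the power of two -/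
theorem exists_pow_two (m : ℕ) (hm : 1 ≤ m) : ∃ k : ℕ, m ≤ 2 ^ k ∧ 2 ^ k ≤ 2 * m := by
  refine ⟨Nat.clog 2 m, Nat.le_pow_clog (by norm_num) m, ?_⟩
  rcases Nat.eq_or_lt_of_le hm with h | h
  · rw [← h]; norm_num
  · have h1 := Nat.pow_pred_clog_lt_self (b := 2) (by norm_num) h
    have h2 : 0 < Nat.clog 2 m := Nat.clog_pos (by norm_num) h
    have h3 : 2 ^ Nat.clog 2 m = 2 * 2 ^ (Nat.clog 2 m).pred := by
      conv_lhs => rw [show Nat.clog 2 m = 1 + (Nat.clog 2 m).pred by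
        rw [Nat.pred_eq_sub_one]; omega, pow_add, pow_one]
    omega

theorem box_main : ∃ c : ℝ, 0 < c ∧ ∃ Z₀ : ℝ, ∀ Z : ℝ, Z₀ ≤ Z → ∀ M : ℝ, Z ≤ M →
    ∀ (A B : ℕ) (K : ℝ), Real.log Z ≤ K → ((A : ℝ) + 1) * ((B : ℝ) + 1) * K ≤ c * ff Z →
    ∃ x : ℕ, M < x ∧ (x : ℝ) ≤ M + Z ∧
      ∀ a b : ℤ, 0 ≤ a → a ≤ A → |b| ≤ B → (a = 0 → 0 < b) →
        ∀ q : ℕ, q.Prime → K < |(q : ℝ) - (a * (x : ℝ) ^ 2 + b * x)| := by
  obtain ⟨c, hc, Z₁, hmain⟩ := main_gen false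
  obtain ⟨C, hC, havg⟩ := avg_ratio
  obtain ⟨Z₂, hev⟩ := ev_size (c / (16 * C + c)) (by positivity)
  refine ⟨c / (16 * C + c), by positivity, max Z₁ Z₂, fun Z hZ M hM A B K hK hABK => ?_⟩
  obtain ⟨e1, e2, e3, e4⟩ := hev Z ((le_max_right _ _).trans hZ)
  have hA0 : (0 : ℝ) ≤ A := by positivity
  have hB0 : (0 : ℝ) ≤ B := by positivity
  obtain ⟨v, hv⟩ : ∃ v : ℝ, v = (Real.log Z) ^ (1 / 20 : ℝ) := ⟨_, rfl⟩
  rw [← hv] at e3 e4
  -- the size of the coefficients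
  have hD : ((A : ℝ) + 1) * ((B : ℝ) + 1) ≤ v := by
    have h1 : ((A : ℝ) + 1) * ((B : ℝ) + 1) * Real.log Z ≤ v * Real.log Z :=
      (mul_le_mul_of_nonneg_left hK (by positivity)).trans (hABK.trans e3)
    exact le_of_mul_le_mul_right h1 e1
  have hAv : (A : ℝ) ≤ v := by nlinarith
  have hBv : (B : ℝ) ≤ v := by nlinarith
  by_cases hne : (box A B).Nonempty
  swap
  · refine ⟨⌊M⌋₊ + 1, ?_, ?_, ?_⟩
    · push_cast; exact Nat.lt_floor_add_one M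
    · push_cast
      have := Nat.floor_le (show 0 ≤ M by linarith)
      linarith
    · intro a b h1 h2 h3 h4
      exfalso
      apply hne
      exact ⟨(a, b), mem_box.2 ⟨⟨h1, h2⟩, abs_le.1 h3, h4⟩⟩
  obtain ⟨k, hk1, hk2⟩ := exists_pow_two (2 * B + 1) (by omega)
  obtain ⟨r, hr⟩ : ∃ r : ℕ, r = 2 ^ k := ⟨_, rfl⟩
  rw [← hr] at hk1 hk2
  have hr0 : 0 < r := by omega
  -- the numbers `a r + b`
  obtain ⟨N, hN⟩ : ∃ N : ℕ, N = A * r + B := ⟨_, rfl⟩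
  have hn : ∀ t ∈ box A B, 1 ≤ t.1 * r + t.2 ∧ t.1 * r + t.2 ≤ (N : ℤ) := by
    intro t ht
    obtain ⟨⟨h1, h2⟩, ⟨h3, h4⟩, h5⟩ := mem_box.1 ht
    have hrZ : (2 * (B : ℤ) + 1) ≤ (r : ℤ) := by exact_mod_cast hk1
    constructor
    · rcases eq_or_lt_of_le h1 with h | h
      · have := h5 h.symm
        rw [← h]
        omega
      · have : (r : ℤ) ≤ t.1 * r := le_mul_of_one_le_left (by positivity) h
        omega
    · rw [hN]
      push_cast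
      have : t.1 * (r : ℤ) ≤ A * r := mul_le_mul_of_nonneg_right h2 (by positivity)
      omega
  have hinj : Set.InjOn (fun t : ℤ × ℤ => (t.1 * (r : ℤ) + t.2).natAbs) (box A B : Set (ℤ × ℤ)) := by
    intro t ht t' ht' e
    obtain ⟨⟨h1, h2⟩, ⟨h3, h4⟩, h5⟩ := mem_box.1 (Finset.mem_coe.1 ht)
    obtain ⟨⟨h1', h2'⟩, ⟨h3', h4'⟩, h5'⟩ := mem_box.1 (Finset.mem_coe.1 ht')
    have g := (hn t ht).1
    have g' := (hn t' ht').1
    have e1 : t.1 * (r : ℤ) + t.2 = t'.1 * (r : ℤ) + t'.2 := by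
      have e0 : (t.1 * (r : ℤ) + t.2).natAbs = (t'.1 * (r : ℤ) + t'.2).natAbs := e
      omega
    have hrZ : (2 * (B : ℤ) + 1) ≤ (r : ℤ) := by exact_mod_cast hk1
    have e2 : t.1 = t'.1 := by
      by_contra hne'
      rcases lt_or_gt_of_ne hne' with h | h
      · have h6 : (t.1 + 1) * (r : ℤ) ≤ t'.1 * r := mul_le_mul_of_nonneg_right (by omega) (by positivity)
        have h7 : (t.1 + 1) * (r : ℤ) = t.1 * r + r := by ring
        omega
      · have h6 : (t'.1 + 1) * (r : ℤ) ≤ t.1 * r := mul_le_mul_of_nonneg_right (by omega) (by positivity)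
        have h7 : (t'.1 + 1) * (r : ℤ) = t'.1 * r + r := by ring
        omega
    have e3 : t.2 = t'.2 := by
      rw [e2] at e1
      omega
    exact Prod.ext e2 e3
  have hss : ∀ t ∈ box A B, ss r t = ((2 : ℕ) ^ k : ℕ) * (((t.1 * (r : ℤ) + t.2).natAbs : ℕ) : ℤ) := by
    intro t ht
    have g := (hn t ht).1
    unfold ss
    rw [← hr, Int.natAbs_of_nonneg (by omega)]
  have hsum : ∑ t ∈ box A B, GG (ss r t) ^ 2 ≤ 4 * (C * N) := by
    have h1 : ∑ t ∈ box A B, GG (ss r t) ^ 2 ≤ ∑ t ∈ box A B,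
        4 * ((((t.1 * (r : ℤ) + t.2).natAbs : ℕ) : ℝ) /
          (Nat.totient ((t.1 * (r : ℤ) + t.2).natAbs) : ℝ)) ^ 2 := by
      apply Finset.sum_le_sum
      intro t ht
      have g := (hn t ht).1
      rw [hss t ht]
      have h2 := GG_pow_two k ((t.1 * (r : ℤ) + t.2).natAbs) (by omega)
      have h3 : 0 ≤ GG (((2 : ℕ) ^ k : ℕ) * (((t.1 * (r : ℤ) + t.2).natAbs : ℕ) : ℤ)) := by
        unfold GG; positivity
      have h4 := pow_le_pow_left₀ h3 h2 2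
      rw [mul_pow] at h4
      norm_num at h4 ⊢
      exact h4
    refine h1.trans ?_
    rw [← Finset.mul_sum]
    apply mul_le_mul_of_nonneg_left _ (by norm_num)
    rw [← Finset.sum_image (s := box A B) (g := fun t : ℤ × ℤ => (t.1 * (r : ℤ) + t.2).natAbs)
      (f := fun n : ℕ => ((n : ℝ) / (Nat.totient n : ℝ)) ^ 2) hinj]
    refine le_trans ?_ (havg N)
    apply Finset.sum_le_sum_of_subset_of_nonneg
    · intro n hn'
      rw [mem_image] at hn'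
      obtain ⟨t, ht, rfl⟩ := hn'
      obtain ⟨g1, g2⟩ := hn t ht
      rw [Finset.mem_Icc]
      omega
    · intro _ _ _
      positivity
  have hrR : (r : ℝ) ≤ 2 * (2 * B + 1) := by exact_mod_cast hk2
  have hNR : (N : ℝ) ≤ 4 * (((A : ℝ) + 1) * ((B : ℝ) + 1)) := by
    rw [hN]
    push_cast
    have : (A : ℝ) * r ≤ A * (2 * (2 * B + 1)) := mul_le_mul_of_nonneg_left hrR hA0
    nlinarith
  have hK0 : 0 ≤ K := by linarith
  have hT1 : ∀ t ∈ box A B, 0 ≤ t.1 ∧ (t.1 : ℝ) ≤ (Real.log Z) ^ (1 / 20 : ℝ) ∧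
      |(t.2 : ℝ)| ≤ (Real.log Z) ^ (1 / 20 : ℝ) ∧ (t.1 = 0 → 0 < t.2) := by
    intro t ht
    obtain ⟨⟨h1, h2⟩, h3, h5⟩ := mem_box.1 ht
    rw [← hv]
    refine ⟨h1, ?_, ?_, h5⟩
    · refine le_trans ?_ hAv
      exact_mod_cast h2
    · refine le_trans ?_ hBv
      have : |t.2| ≤ (B : ℤ) := abs_le.2 h3
      exact_mod_cast this
  have hT2 : ∀ t ∈ box A B, ss r t ≠ 0 ∧ |(ss r t : ℝ)| ≤ Real.log Z := by
    intro t ht
    obtain ⟨g1, g2⟩ := hn t ht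
    have hpos : 0 < ss r t := by
      unfold ss
      have : (0 : ℤ) < r := by exact_mod_cast hr0
      exact mul_pos this (by omega)
    refine ⟨hpos.ne', ?_⟩
    rw [abs_of_nonneg (by exact_mod_cast hpos.le)]
    have h1 : ss r t ≤ r * N := by
      unfold ss
      exact mul_le_mul_of_nonneg_left g2 (by positivity)
    have h2 : (ss r t : ℝ) ≤ r * N := by exact_mod_cast h1
    have h3 : (r : ℝ) ≤ 4 * (((A : ℝ) + 1) * ((B : ℝ) + 1)) := by nlinarith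
    have h4 : (r : ℝ) * N ≤ (4 * (((A : ℝ) + 1) * ((B : ℝ) + 1))) *
        (4 * (((A : ℝ) + 1) * ((B : ℝ) + 1))) := mul_le_mul h3 hNR (by positivity) (by positivity)
    have h5 : (((A : ℝ) + 1) * ((B : ℝ) + 1)) ^ 2 ≤ v ^ 2 := pow_le_pow_left₀ (by positivity) hD 2
    nlinarith
  have hT3 : (∑ t ∈ box A B, GG (ss r t) ^ 2) * K ≤ c * ff Z := by
    have h1 : (∑ t ∈ box A B, GG (ss r t) ^ 2) * K ≤ 4 * (C * N) * K :=
      mul_le_mul_of_nonneg_right hsum hK0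
    have h2 : 4 * (C * N) * K ≤ 16 * C * (((A : ℝ) + 1) * ((B : ℝ) + 1) * K) := by
      have := mul_le_mul_of_nonneg_left hNR (show 0 ≤ 4 * C * K by positivity)
      nlinarith
    have h3 : 16 * C * (((A : ℝ) + 1) * ((B : ℝ) + 1) * K) ≤ 16 * C * (c / (16 * C + c) * ff Z) :=
      mul_le_mul_of_nonneg_left hABK (by positivity)
    have h4 : 0 ≤ c / (16 * C + c) * ff Z := le_trans (by positivity) hABK
    have h5 : (16 * C + c) * (c / (16 * C + c) * ff Z) = c * ff Z := by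
      field_simp
    nlinarith
  obtain ⟨x, hx1, hx2, _, hx4⟩ := hmain Z ((le_max_left _ _).trans hZ) M hM (box A B) r K hne hK
    hT1 hT2 hT3
  refine ⟨x, hx1, hx2, fun a b h1 h2 h3 h4 q hq => ?_⟩
  exact hx4 (a, b) (mem_box.2 ⟨⟨h1, h2⟩, abs_le.1 h3, h4⟩) q hq

end Pool.Agent.K6.H26.QW
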