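import Pool.Agent.K6.H26.QW.Roots
import Pool.Agent.H378R2.QG.V

set_option autoImplicit false
set_option linter.unusedSectionVars false

/-! # The covering theorem for families of linear and quadratic polynomials (after helper378) -/

namespace Pool.Agent.K6.H26.QW

open Finset Filter
open Pool.Agent.H256R2.SC (Col supp qq emb emb_mem emb_surj mem_supp prod_nu1 nu1 Asum ev_facts scales
  qn qn_squarefree qn_primeFactors qn_cast)
open Pool.Agent.Helper919 (XX XX_apply XX_abs_le)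
open Pool.Agent.H378R2.QG

open scoped Classical

/-- admissible coefficients -/
def Adm (L : ℝ) (t : ℤ × ℤ × ℤ) : Prop :=
  |(t.1 : ℝ)| ≤ L ^ (1 / 20 : ℝ) ∧ |(t.2.1 : ℝ)| ≤ L ^ (1 / 20 : ℝ) ∧ |(t.2.2 : ℝ)| ≤ L ^ (26 / 25 : ℝ) ∧
    (t.1 ≠ 0 → ¬ IsSquare (disc t)) ∧ (t.1 = 0 → t.2.1 ≠ 0)

/-- the two polynomials are proportional -/
def Par (t t' : ℤ × ℤ × ℤ) : Prop :=
  t.1 * t'.2.1 = t'.1 * t.2.1 ∧ t.1 * t'.2.2 = t'.1 * t.2.2 ∧ t.2.1 * t'.2.2 = t'.2.1 * t.2.2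

/-- quadratic with an exceptional discriminant -/
def Bad (E : Finset ℤ) (t : ℤ × ℤ × ℤ) : Prop := t.1 ≠ 0 ∧ disc t ∈ E

/-- facts for large `L` -/
theorem ev_more3 (c₃ : ℝ) (hc : 0 < c₃) : ∃ L₀ : ℝ, ∀ L : ℝ, L₀ ≤ L →
    2 ≤ c₃ * Real.exp (-(3 / 2 * Real.log L / 20)) *
      ((L / (2000 * (3 / 2 * Real.log L))) / (2 * (3 / 2 * Real.log L))) ∧
    9 * L ^ (1 / 10 : ℝ) * L ^ (7 / 10 : ℝ) * (16 * (3 / 2 * Real.log L) *
      Real.exp (3 / 2 * Real.log L / 20) / c₃) ≤ L / 800 ∧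
    12 * ((L ^ (1 / 20 : ℝ)) ^ 3 * (L ^ (26 / 25 : ℝ)) ^ 2) < L ^ 3 ∧
    (L ^ (1 / 20 : ℝ)) ^ 2 + 4 * (L ^ (1 / 20 : ℝ) * L ^ (26 / 25 : ℝ)) ≤ L ^ (11 / 10 : ℝ) ∧
    L ^ (11 / 10 : ℝ) < L ^ 3 := by
  have h1 := (isLittleO_pow_exp_pos_mul_atTop (k := 2) (b := (1 / 20 : ℝ)) (by norm_num)).def
    (show (0:ℝ) < c₃ / 1000000 by positivity)
  have h1' := (isLittleO_pow_exp_pos_mul_atTop (k := 1) (b := (1 / 20 : ℝ)) (by norm_num)).def
    (show (0:ℝ) < c₃ / 1000000 by positivity)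
  have h2 : ∀ᶠ l : ℝ in atTop, (100 : ℝ) ≤ Real.exp (1 / 100 * l) :=
    (Real.tendsto_exp_atTop.comp (tendsto_id.const_mul_atTop (by norm_num : (0:ℝ) < 1 / 100))).eventually_ge_atTop _
  have key : ∀ᶠ l : ℝ in atTop, l ^ 2 ≤ c₃ / 1000000 * Real.exp (1 / 20 * l) ∧
      l ≤ c₃ / 1000000 * Real.exp (1 / 20 * l) ∧ 2 ≤ l ∧ (100 : ℝ) ≤ Real.exp (1 / 100 * l) := by
    filter_upwards [h1, h1', h2, eventually_ge_atTop (2:ℝ)] with l h2 h3 h5 h4
    rw [Real.norm_eq_abs, Real.norm_eq_abs, abs_of_nonneg (Real.exp_pos _).le] at h2 h3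
    rw [abs_of_nonneg (by positivity)] at h2 h3
    rw [pow_one] at h3
    exact ⟨h2, h3, h4, h5⟩
  obtain ⟨L₀, hL₀⟩ := Filter.eventually_atTop.mp
    ((Real.tendsto_log_atTop.eventually key).and (eventually_ge_atTop (1:ℝ)))
  refine ⟨L₀, fun L hL => ?_⟩
  obtain ⟨⟨e1, e2, e3, e9⟩, e4⟩ := hL₀ L hL
  set l := Real.log L with hl
  have hL0 : 0 < L := by linarith
  have hLe : L = Real.exp l := (Real.exp_log hL0).symm
  have hl0 : 0 < l := by linarith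
  have hr : ∀ s : ℝ, L ^ s = Real.exp (s * l) := fun s => by
    rw [Real.rpow_def_of_pos hL0, ← hl, mul_comm]
  have hL3 : L ^ 3 = Real.exp (3 * l) := by
    conv_lhs => rw [hLe]
    rw [← Real.exp_nat_mul]
    norm_num
  refine ⟨?_, ?_, ?_, ?_, ?_⟩
  · have e5 : c₃ * Real.exp (-(3 / 2 * l / 20)) * ((L / (2000 * (3 / 2 * l))) / (2 * (3 / 2 * l))) =
        c₃ * (Real.exp (-(3 / 2 * l / 20)) * Real.exp l) / (9000 * l ^ 2) := by
      rw [← hLe]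
      field_simp
      norm_num
    rw [e5, le_div_iff₀ (by positivity), ← Real.exp_add]
    have e6 : Real.exp (1 / 20 * l) ≤ Real.exp (-(3 / 2 * l / 20) + l) :=
      Real.exp_le_exp.mpr (by linarith)
    have e7 : c₃ / 1000000 * Real.exp (1 / 20 * l) ≤ c₃ / 1000000 * Real.exp (-(3 / 2 * l / 20) + l) :=
      mul_le_mul_of_nonneg_left e6 (by positivity)
    have e8 : 0 < c₃ * Real.exp (-(3 / 2 * l / 20) + l) := by positivity
    linarith
  · rw [hr, hr]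
    have e5 : 9 * Real.exp (1 / 10 * l) * Real.exp (7 / 10 * l) *
        (16 * (3 / 2 * l) * Real.exp (3 / 2 * l / 20) / c₃) =
        216 / c₃ * l * (Real.exp (1 / 10 * l) * Real.exp (7 / 10 * l) * Real.exp (3 / 2 * l / 20)) := by
      ring
    rw [e5, ← Real.exp_add, ← Real.exp_add]
    have e6 : 216 / c₃ * l ≤ 1 / 800 * Real.exp (1 / 20 * l) := by
      rw [div_mul_eq_mul_div, div_le_iff₀ hc]
      linarith
    calc 216 / c₃ * l * Real.exp (1 / 10 * l + 7 / 10 * l + 3 / 2 * l / 20)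
        ≤ 1 / 800 * Real.exp (1 / 20 * l) * Real.exp (1 / 10 * l + 7 / 10 * l + 3 / 2 * l / 20) :=
          mul_le_mul_of_nonneg_right e6 (Real.exp_pos _).le
      _ = 1 / 800 * Real.exp (1 / 20 * l + (1 / 10 * l + 7 / 10 * l + 3 / 2 * l / 20)) := by
          rw [mul_assoc, ← Real.exp_add]
      _ ≤ 1 / 800 * Real.exp l := by
          apply mul_le_mul_of_nonneg_left _ (by norm_num)
          apply Real.exp_le_exp.mpr
          linarith
      _ = L / 800 := by rw [← hLe]; ring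
  · rw [hr, hr, hL3, ← Real.exp_nat_mul, ← Real.exp_nat_mul, ← Real.exp_add]
    have e6 : Real.exp (3 * l) = Real.exp (77 / 100 * l) * Real.exp (223 / 100 * l) := by
      rw [← Real.exp_add]; congr 1; ring
    have e7 : Real.exp (((3 : ℕ) : ℝ) * (1 / 20 * l) + ((2 : ℕ) : ℝ) * (26 / 25 * l)) =
        Real.exp (223 / 100 * l) := by
      congr 1; push_cast; ring
    rw [e6, e7]
    apply mul_lt_mul_of_pos_right _ (Real.exp_pos _)
    have : Real.exp (1 / 100 * l) ≤ Real.exp (77 / 100 * l) := Real.exp_le_exp.mpr (by linarith)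
    linarith
  · rw [hr, hr, hr, ← Real.exp_nat_mul, ← Real.exp_add]
    have e6 : Real.exp (11 / 10 * l) = Real.exp (1 / 100 * l) * Real.exp (109 / 100 * l) := by
      rw [← Real.exp_add]; congr 1; ring
    have e7 : Real.exp (1 / 20 * l + 26 / 25 * l) = Real.exp (109 / 100 * l) := by
      congr 1; ring
    have e8 : Real.exp (((2 : ℕ) : ℝ) * (1 / 20 * l)) ≤ Real.exp (109 / 100 * l) := by
      apply Real.exp_le_exp.mpr; push_cast; linarith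
    rw [e6, e7]
    have e10 := Real.exp_pos (109 / 100 * l)
    nlinarith
  · rw [hr, hL3]
    exact Real.exp_lt_exp.mpr (by linarith)

theorem one_le_al {L : ℝ} (hL : 1 ≤ L) : 1 ≤ L ^ (1 / 20 : ℝ) ∧ 1 ≤ L ^ (26 / 25 : ℝ) :=
  ⟨Real.one_le_rpow hL (by norm_num), Real.one_le_rpow hL (by norm_num)⟩

theorem disc_bound {L : ℝ}
    (k4 : (L ^ (1 / 20 : ℝ)) ^ 2 + 4 * (L ^ (1 / 20 : ℝ) * L ^ (26 / 25 : ℝ)) ≤ L ^ (11 / 10 : ℝ))
    {t : ℤ × ℤ × ℤ} (ht : Adm L t) : |(disc t : ℝ)| ≤ L ^ (11 / 10 : ℝ) := by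
  obtain ⟨h1, h2, h3, -, -⟩ := ht
  refine le_trans ?_ k4
  unfold disc
  push_cast
  have e1 : |(t.2.1 : ℝ) ^ 2 - 4 * (t.1 : ℝ) * (t.2.2 : ℝ)| ≤
      |(t.2.1 : ℝ)| ^ 2 + 4 * (|(t.1 : ℝ)| * |(t.2.2 : ℝ)|) := by
    refine (abs_sub _ _).trans (le_of_eq ?_)
    rw [abs_pow, mul_assoc, abs_mul, abs_mul, abs_of_pos (by norm_num : (0:ℝ) < 4)]
  refine e1.trans ?_
  have a1 := abs_nonneg (t.1 : ℝ)
  have a2 := abs_nonneg (t.2.1 : ℝ)
  have a3 := abs_nonneg (t.2.2 : ℝ)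
  have a4 : 0 ≤ L ^ (1 / 20 : ℝ) := a1.trans h1
  gcongr

theorem not_dvd_of_lt {L : ℝ} {p : ℕ} {n : ℤ} (hn : n ≠ 0) (hp : L ^ 3 < (p : ℝ))
    (hnL : |(n : ℝ)| < L ^ 3) : ¬ (p : ℤ) ∣ n := by
  intro hd
  have h4 := Int.le_of_dvd (abs_pos.mpr hn) ((dvd_abs _ _).mpr hd)
  have h5 : (p : ℝ) ≤ |(n : ℝ)| := by exact_mod_cast h4
  linarith

theorem good_of_adm {L : ℝ} {p : ℕ}
    (k3 : 12 * ((L ^ (1 / 20 : ℝ)) ^ 3 * (L ^ (26 / 25 : ℝ)) ^ 2) < L ^ 3)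
    (k4 : (L ^ (1 / 20 : ℝ)) ^ 2 + 4 * (L ^ (1 / 20 : ℝ) * L ^ (26 / 25 : ℝ)) ≤ L ^ (11 / 10 : ℝ))
    (k5 : L ^ (11 / 10 : ℝ) < L ^ 3) (hL : 1 ≤ L) (hp : L ^ 3 < (p : ℝ))
    {t : ℤ × ℤ × ℤ} (ht : Adm L t) : Good t p := by
  obtain ⟨hα, hη⟩ := one_le_al hL
  have hαL : L ^ (1 / 20 : ℝ) < L ^ 3 := by
    refine lt_of_le_of_lt ?_ k3
    set α := L ^ (1 / 20 : ℝ)
    set η := L ^ (26 / 25 : ℝ)
    have h1 : α ≤ α ^ 3 := le_self_pow₀ hα (by norm_num)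
    have h2 : 1 ≤ η ^ 2 := one_le_pow₀ hη
    have h3 : 0 < α ^ 3 := by positivity
    nlinarith
  refine ⟨fun ha => ⟨?_, ?_⟩, fun ha => ?_⟩
  · exact not_dvd_of_lt ha hp (lt_of_le_of_lt ht.1 hαL)
  · apply not_dvd_of_lt _ hp (lt_of_le_of_lt (disc_bound k4 ht) k5)
    intro h0
    apply ht.2.2.2.1 ha
    rw [h0]
    exact ⟨0, by simp⟩
  · exact not_dvd_of_lt (ht.2.2.2.2 ha) hp (lt_of_le_of_lt ht.2.1 hαL)

theorem isSquare_of_mul_sq {D U m : ℤ} (hU : U ≠ 0) (h : D * U ^ 2 = m ^ 2) : IsSquare D := by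
  have h1 : U ^ 2 ∣ m ^ 2 := ⟨D, by rw [← h]; ring⟩
  have h2 : U ∣ m := (Int.pow_dvd_pow_iff (by norm_num)).1 h1
  obtain ⟨k, hk⟩ := h2
  refine ⟨k, ?_⟩
  have h3 : U ^ 2 ≠ 0 := pow_ne_zero _ hU
  apply mul_right_cancel₀ h3
  rw [h, hk]
  ring

/-- if a large prime divides the values of two admissible polynomials at the same place, they are
proportional -/
theorem par_of_dvd {L : ℝ} {p : ℕ}
    (k3 : 12 * ((L ^ (1 / 20 : ℝ)) ^ 3 * (L ^ (26 / 25 : ℝ)) ^ 2) < L ^ 3) (hL : 1 ≤ L)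
    (hpp : p.Prime) (hp : L ^ 3 < (p : ℝ)) {t t' : ℤ × ℤ × ℤ} (ht : Adm L t) (ht' : Adm L t') {x : ℤ}
    (h1 : (p : ℤ) ∣ val t x) (h2 : (p : ℤ) ∣ val t' x) : Par t t' := by
  obtain ⟨hα, hη⟩ := one_le_al hL
  obtain ⟨a, b, h⟩ := t
  obtain ⟨a', b', h'⟩ := t'
  obtain ⟨q1, q2, q3, q4, q5⟩ := ht
  obtain ⟨r1, r2, r3, r4, r5⟩ := ht'
  simp only at q1 q2 q3 q4 q5 r1 r2 r3 r4 r5
  unfold val at h1 h2
  simp only at h1 h2
  set α := L ^ (1 / 20 : ℝ) with hαdef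
  set η := L ^ (26 / 25 : ℝ) with hηdef
  have hα0 : 0 ≤ α := by linarith
  have hη0 : 0 ≤ η := by linarith
  have hX0 : 0 ≤ α ^ 3 * η ^ 2 := by positivity
  have hαη : α * η ≤ α ^ 3 * η ^ 2 := by
    have e1 : α ≤ α ^ 3 := le_self_pow₀ hα (by norm_num)
    have e2 : η ≤ η ^ 2 := le_self_pow₀ hη (by norm_num)
    gcongr
  have hα2 : α ^ 2 ≤ α ^ 3 * η ^ 2 := by
    have e1 : α ^ 2 ≤ α ^ 3 := pow_le_pow_right₀ hα (by norm_num)
    have e2 : 1 ≤ η ^ 2 := one_le_pow₀ hη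
    have e3 : 0 ≤ α ^ 3 := by positivity
    nlinarith
  have hα4 : α ^ 4 * η ≤ α ^ 3 * η ^ 2 := by
    have e1 : α ≤ η := by
      rw [hαdef, hηdef]
      exact Real.rpow_le_rpow_of_exponent_le hL (by norm_num)
    have e2 : 0 ≤ α ^ 3 * η := by positivity
    nlinarith
  have bd : ∀ u v u' v' : ℤ, ∀ P Q : ℝ, |(u : ℝ)| ≤ P → |(v : ℝ)| ≤ Q → |(u' : ℝ)| ≤ P → |(v' : ℝ)| ≤ Q →
      |((u' * v - u * v' : ℤ) : ℝ)| ≤ 2 * (P * Q) := by
    intro u v u' v' P Q e1 e2 e3 e4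
    have hP : 0 ≤ P := (abs_nonneg _).trans e1
    have hQ : 0 ≤ Q := (abs_nonneg _).trans e2
    push_cast
    refine (abs_sub _ _).trans ?_
    rw [abs_mul, abs_mul]
    have := mul_le_mul e3 e2 (abs_nonneg _) hP
    have := mul_le_mul e1 e4 (abs_nonneg _) hP
    linarith
  have hU := bd a b a' b' α α q1 q2 r1 r2
  have hV := bd a h a' h' α η q1 q3 r1 r3
  have hW := bd b h b' h' α η q2 q3 r2 r3
  obtain ⟨U, hUd⟩ : ∃ U : ℤ, U = a' * b - a * b' := ⟨_, rfl⟩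
  obtain ⟨V, hVd⟩ : ∃ V : ℤ, V = a' * h - a * h' := ⟨_, rfl⟩
  obtain ⟨W, hWd⟩ : ∃ W : ℤ, W = b' * h - b * h' := ⟨_, rfl⟩
  rw [← hUd] at hU
  rw [← hVd] at hV
  rw [← hWd] at hW
  have hpz : Prime ((p : ℕ) : ℤ) := Nat.prime_iff_prime_int.1 hpp
  have hUV : (p : ℤ) ∣ U * x + V := by
    have := dvd_sub (Dvd.dvd.mul_left h1 a') (Dvd.dvd.mul_left h2 a)
    have e : a' * (a * x ^ 2 + b * x + h) - a * (a' * x ^ 2 + b' * x + h') = U * x + V := by
      rw [hUd, hVd]; ring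
    rwa [e] at this
  have hUW : (p : ℤ) ∣ U * x ^ 2 - W := by
    have := dvd_sub (Dvd.dvd.mul_left h1 b') (Dvd.dvd.mul_left h2 b)
    have e : b' * (a * x ^ 2 + b * x + h) - b * (a' * x ^ 2 + b' * x + h') = -(U * x ^ 2 - W) := by
      rw [hUd, hWd]; ring
    rw [e] at this
    exact (dvd_neg).1 this
  by_cases hU0 : U = 0
  · have hV0 : V = 0 := by
      by_contra hne
      refine not_dvd_of_lt hne hp ?_ (by rwa [hU0, zero_mul, zero_add] at hUV)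
      linarith
    have hW0 : W = 0 := by
      by_contra hne
      refine not_dvd_of_lt hne hp ?_ (by rwa [hU0, zero_mul, zero_sub, dvd_neg] at hUW)
      linarith
    refine ⟨?_, ?_, ?_⟩
    · show a * b' = a' * b
      linarith
    · show a * h' = a' * h
      linarith
    · show b * h' = b' * h
      linarith
  · exfalso
    -- the resultant
    have key : ∀ a₁ b₁ h₁ : ℤ, a₁ ≠ 0 → |(a₁ : ℝ)| ≤ α → |(b₁ : ℝ)| ≤ α → |(h₁ : ℝ)| ≤ η →
        ¬ IsSquare (b₁ ^ 2 - 4 * a₁ * h₁) → (p : ℤ) ∣ a₁ * x ^ 2 + b₁ * x + h₁ → False := by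
      intro a₁ b₁ h₁ ha₁ s1 s2 s3 s4 s5
      obtain ⟨R, hR⟩ : ∃ R : ℤ, R = a₁ * V ^ 2 - b₁ * U * V + h₁ * U ^ 2 := ⟨_, rfl⟩
      have hdR : (p : ℤ) ∣ R := by
        have e1 := dvd_sub (Dvd.dvd.mul_left s5 (U ^ 2))
          (Dvd.dvd.mul_left hUV (a₁ * (U * x - V) + b₁ * U))
        have e : U ^ 2 * (a₁ * x ^ 2 + b₁ * x + h₁) - (a₁ * (U * x - V) + b₁ * U) * (U * x + V) = R := by
          rw [hR]; ring
        rwa [e] at e1
      have hRb : |(R : ℝ)| < L ^ 3 := by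
        refine lt_of_le_of_lt ?_ k3
        have a1 := abs_nonneg (a₁ : ℝ)
        have a2 := abs_nonneg (b₁ : ℝ)
        have a3 := abs_nonneg (h₁ : ℝ)
        have a4 := abs_nonneg (U : ℝ)
        have a5 := abs_nonneg (V : ℝ)
        rw [hR]
        push_cast
        have e1 : |(a₁ : ℝ) * (V : ℝ) ^ 2 - b₁ * U * V + h₁ * (U : ℝ) ^ 2| ≤
            |(a₁ : ℝ)| * |(V : ℝ)| ^ 2 + |(b₁ : ℝ)| * |(U : ℝ)| * |(V : ℝ)| + |(h₁ : ℝ)| * |(U : ℝ)| ^ 2 := by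
          refine (abs_add_le _ _).trans ?_
          have := abs_sub ((a₁ : ℝ) * (V : ℝ) ^ 2) (b₁ * U * V)
          rw [abs_mul, abs_mul, abs_mul, abs_pow] at this
          rw [abs_mul (h₁ : ℝ), abs_pow]
          linarith
        refine e1.trans ?_
        calc |(a₁ : ℝ)| * |(V : ℝ)| ^ 2 + |(b₁ : ℝ)| * |(U : ℝ)| * |(V : ℝ)| + |(h₁ : ℝ)| * |(U : ℝ)| ^ 2
            ≤ α * (2 * (α * η)) ^ 2 + α * (2 * (α * α)) * (2 * (α * η)) + η * (2 * (α * α)) ^ 2 := by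
              gcongr
          _ = 4 * (α ^ 3 * η ^ 2) + 8 * (α ^ 4 * η) := by ring
          _ ≤ 12 * (α ^ 3 * η ^ 2) := by linarith
      have hR0 : R = 0 := by
        by_contra hne
        exact not_dvd_of_lt hne hp hRb hdR
      apply s4
      apply isSquare_of_mul_sq hU0 (m := 2 * a₁ * V - b₁ * U)
      have e : (2 * a₁ * V - b₁ * U) ^ 2 = 4 * a₁ * R + (b₁ ^ 2 - 4 * a₁ * h₁) * U ^ 2 := by
        rw [hR]; ring
      rw [e, hR0]
      ring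
    by_cases ha : a = 0
    · by_cases ha' : a' = 0
      · apply hU0
        rw [hUd, ha, ha']
        ring
      · exact key a' b' h' ha' r1 r2 r3 (r4 ha') h2
    · exact key a b h ha q1 q2 q3 (q4 ha) h1

/-- the exceptional set for the sums from `L ^ 3` -/
theorem T_lower3 : ∃ C : ℝ, 0 ≤ C ∧ ∃ L₀ : ℝ, ∀ L : ℝ, L₀ ≤ L → ∃ E : Finset ℤ,
    (E.card : ℝ) ≤ L ^ (7 / 10 : ℝ) ∧
    ∀ D : ℤ, ¬ IsSquare D → |(D : ℝ)| ≤ L ^ (11 / 10 : ℝ) →
      (∀ w, L ^ 3 ≤ w → w ≤ Real.exp L → -(C + Real.log L / 20) ≤ Tc (fun p => XX D p) (L ^ 3) w) ∧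
      (D ∉ E → ∀ w, L ^ 3 ≤ w → w ≤ Real.exp L → -C ≤ Tc (fun p => XX D p) (L ^ 3) w) := by
  obtain ⟨C, hC0, LT, hT⟩ := T_lower
  obtain ⟨CM₀, hM₀⟩ := Pool.Agent.Helper256.KM.mertens_inv
  have hCM : 0 ≤ CM₀ := (abs_nonneg _).trans (hM₀ 3 le_rfl)
  refine ⟨C + (2 + 2 * CM₀), by positivity, max LT (Real.exp 2), fun L hL => ?_⟩
  obtain ⟨E, hE, hTD⟩ := hT L ((le_max_left _ _).trans hL)
  refine ⟨E, hE, fun D hD hDb => ?_⟩
  have hLe : Real.exp 2 ≤ L := (le_max_right _ _).trans hL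
  have hL7 : 7 ≤ L := by
    have := Real.exp_one_gt_d9
    have e : Real.exp 2 = Real.exp 1 * Real.exp 1 := by rw [← Real.exp_add]; norm_num
    rw [e] at hLe
    nlinarith
  have hl2 : 2 ≤ Real.log L := by
    rw [← Real.log_exp 2]; exact Real.log_le_log (Real.exp_pos _) hLe
  have hdiff : ∀ w, L ^ 3 ≤ w → Tc (fun p => XX D p) (L ^ 2) w - (2 + 2 * CM₀) ≤
      Tc (fun p => XX D p) (L ^ 3) w := by
    intro w hw
    have h23 : L ^ 2 ≤ L ^ 3 := pow_le_pow_right₀ (by linarith) (by norm_num)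
    have hsplit : Tc (fun p => XX D p) (L ^ 2) w = Tc (fun p => XX D p) (L ^ 3) w +
        ∑ p ∈ (PZ (L ^ 2) w).filter (fun p : ℕ => (p : ℝ) ≤ L ^ 3), XX D p / p := by
      unfold Tc
      rw [← Finset.sum_filter_add_sum_filter_not (PZ (L ^ 2) w) (fun p : ℕ => (p : ℝ) ≤ L ^ 3), add_comm]
      congr 1
      apply Finset.sum_congr _ (fun _ _ => rfl)
      ext p
      simp only [PZ, Finset.mem_filter, not_le]
      constructor
      · rintro ⟨⟨h1, h2, h3⟩, h4⟩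
        exact ⟨h1, h2, h4⟩
      · rintro ⟨h1, h2, h3⟩
        exact ⟨⟨h1, h2, lt_of_le_of_lt h23 h3⟩, h3⟩
    have hup : ∑ p ∈ (PZ (L ^ 2) w).filter (fun p : ℕ => (p : ℝ) ≤ L ^ 3), XX D p / p ≤
        2 + 2 * CM₀ := by
      have h3L : 3 ≤ ⌊L ^ 2⌋₊ := Nat.le_floor (by push_cast; nlinarith)
      have h3L' : 3 ≤ ⌊L ^ 3⌋₊ := h3L.trans (Nat.floor_le_floor h23)
      have e1 : ∑ p ∈ (PZ (L ^ 2) w).filter (fun p : ℕ => (p : ℝ) ≤ L ^ 3), XX D p / p ≤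
          ∑ p ∈ ((Finset.Icc 1 ⌊L ^ 3⌋₊).filter Nat.Prime) \ ((Finset.Icc 1 ⌊L ^ 2⌋₊).filter Nat.Prime),
            (1 : ℝ) / p := by
        refine le_trans (Finset.sum_le_sum (f := fun p : ℕ => XX D p / p)
          (g := fun p : ℕ => (1 : ℝ) / p) ?_) ?_
        · intro p _
          apply div_le_div_of_nonneg_right _ (Nat.cast_nonneg p)
          exact (abs_le.1 (XX_abs_le D p)).2
        · apply Finset.sum_le_sum_of_subset_of_nonneg
          · intro p hp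
            simp only [PZ, Finset.mem_filter, Finset.mem_Icc] at hp
            rw [Finset.mem_sdiff, Finset.mem_filter, Finset.mem_filter, Finset.mem_Icc, Finset.mem_Icc]
            refine ⟨⟨⟨hp.1.1.1, Nat.le_floor hp.2⟩, hp.1.2.1⟩, fun h => ?_⟩
            have : (p : ℝ) ≤ L ^ 2 := (Nat.le_floor_iff (by positivity)).1 h.1.2
            linarith [hp.1.2.2]
          · intro p _ _
            positivity
      have e2 : ∑ p ∈ ((Finset.Icc 1 ⌊L ^ 3⌋₊).filter Nat.Prime) \ ((Finset.Icc 1 ⌊L ^ 2⌋₊).filter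
          Nat.Prime), (1 : ℝ) / p = ∑ p ∈ (Finset.Icc 1 ⌊L ^ 3⌋₊).filter Nat.Prime, (1 : ℝ) / p -
            ∑ p ∈ (Finset.Icc 1 ⌊L ^ 2⌋₊).filter Nat.Prime, (1 : ℝ) / p := by
        rw [Finset.sum_sdiff_eq_sub]
        intro p hp
        rw [Finset.mem_filter, Finset.mem_Icc] at hp ⊢
        exact ⟨⟨hp.1.1, hp.1.2.trans (Nat.floor_le_floor h23)⟩, hp.2⟩
      have e3 := (abs_le.1 (hM₀ _ h3L')).2
      have e4 := (abs_le.1 (hM₀ _ h3L)).1
      have e5 : Real.log (Real.log (⌊L ^ 3⌋₊ : ℝ)) ≤ Real.log 3 + Real.log (Real.log L) := by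
        have f1 : Real.log (⌊L ^ 3⌋₊ : ℝ) ≤ 3 * Real.log L := by
          have : Real.log (⌊L ^ 3⌋₊ : ℝ) ≤ Real.log (L ^ 3) :=
            Real.log_le_log (by exact_mod_cast (by omega : 0 < ⌊L ^ 3⌋₊)) (Nat.floor_le (by positivity))
          rwa [Real.log_pow] at this
        rw [← Real.log_mul (by norm_num) (by linarith)]
        apply Real.log_le_log _ f1
        apply Real.log_pos
        exact_mod_cast (by omega : 1 < ⌊L ^ 3⌋₊)
      have e6 : Real.log (Real.log L) ≤ Real.log (Real.log (⌊L ^ 2⌋₊ : ℝ)) := by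
        apply Real.log_le_log (by linarith)
        apply Real.log_le_log (by linarith)
        have := Nat.lt_floor_add_one (L ^ 2)
        nlinarith
      have e7 : Real.log 3 ≤ 2 := by
        have := Real.log_le_sub_one_of_pos (by norm_num : (0:ℝ) < 3)
        linarith
      linarith
    linarith
  have hw23 : ∀ w, L ^ 3 ≤ w → L ^ 2 ≤ w := fun w hw =>
    (pow_le_pow_right₀ (by linarith) (by norm_num)).trans hw
  refine ⟨fun w hw1 hw2 => ?_, fun hDE w hw1 hw2 => ?_⟩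
  · have h1 := (hTD D hD hDb).1 w (hw23 w hw1) hw2
    have h2 := hdiff w hw1
    linarith
  · have h1 := (hTD D hD hDb).2 hDE w (hw23 w hw1) hw2
    have h2 := hdiff w hw1
    linarith

theorem Ksum3_le (E : Finset ℤ) (𝒮 : Finset (ℤ × ℤ × ℤ)) {K₁ K₂ c c₃ L : ℝ}
    (hadm : ∀ t ∈ 𝒮, Adm L t) (hL : 1 ≤ L) (hc₃ : 0 < c₃) (hK₁0 : 0 ≤ K₁)
    (hK16 : K₁ ≤ 24 / c₃) (hK₂0 : 0 ≤ K₂) (hcc : c ≤ c₃ / 19200) (hc0 : 0 ≤ c)
    (huc : (Fintype.card {t : ℤ × ℤ × ℤ // t ∈ 𝒮} : ℝ) ≤ c * L) (hE : (E.card : ℝ) ≤ L ^ (7 / 10 : ℝ))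
    (k2 : 9 * L ^ (1 / 10 : ℝ) * L ^ (7 / 10 : ℝ) * K₂ ≤ L / 800) :
    ∑ k : {t : ℤ × ℤ × ℤ // t ∈ 𝒮}, (if Bad E k.1 then K₂ else K₁) ≤ L / 400 := by
  have h1 : ∑ k : {t : ℤ × ℤ × ℤ // t ∈ 𝒮}, (if Bad E k.1 then K₂ else K₁) ≤
      ∑ k : {t : ℤ × ℤ × ℤ // t ∈ 𝒮}, (K₁ + if Bad E k.1 then K₂ else 0) := by
    apply Finset.sum_le_sum
    intro k _
    split_ifs
    · linarith
    · linarith
  have h2 : ∑ k : {t : ℤ × ℤ × ℤ // t ∈ 𝒮}, (K₁ + if Bad E k.1 then K₂ else 0) =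
      (Fintype.card {t : ℤ × ℤ × ℤ // t ∈ 𝒮} : ℝ) * K₁ +
        ((univ.filter (fun k : {t : ℤ × ℤ × ℤ // t ∈ 𝒮} => Bad E k.1)).card : ℝ) * K₂ := by
    rw [Finset.sum_add_distrib, Finset.sum_const, Finset.card_univ, nsmul_eq_mul,
      ← Finset.sum_filter, Finset.sum_const, nsmul_eq_mul]
  have hal := (one_le_al hL).1
  set B : ℕ := ⌊L ^ (1 / 20 : ℝ)⌋₊ with hB
  have hBle : (B : ℝ) ≤ L ^ (1 / 20 : ℝ) := Nat.floor_le (by linarith)
  have hbox : ∀ n : ℤ, |(n : ℝ)| ≤ L ^ (1 / 20 : ℝ) → n ∈ Finset.Icc (-(B : ℤ)) B := by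
    intro n hn
    have h3 : n.natAbs ≤ B := by
      rw [hB]
      apply Nat.le_floor
      rw [Nat.cast_natAbs]
      push_cast
      exact hn
    rw [Finset.mem_Icc]
    omega
  have h3 : ((univ.filter (fun k : {t : ℤ × ℤ × ℤ // t ∈ 𝒮} => Bad E k.1)).card : ℝ) ≤
      9 * L ^ (1 / 10 : ℝ) * (E.card : ℝ) := by
    have h4 : (univ.filter (fun k : {t : ℤ × ℤ × ℤ // t ∈ 𝒮} => Bad E k.1)).card ≤
        ((Finset.Icc (-(B : ℤ)) B ×ˢ Finset.Icc (-(B : ℤ)) B) ×ˢ E).card := by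
      apply Finset.card_le_card_of_injOn (fun k => ((k.1.1, k.1.2.1), disc k.1))
      · intro k hk
        rw [Finset.mem_coe, Finset.mem_filter] at hk
        rw [Finset.mem_coe, Finset.mem_product, Finset.mem_product]
        exact ⟨⟨hbox _ (hadm _ k.2).1, hbox _ (hadm _ k.2).2.1⟩, hk.2.2⟩
      · intro k hk k' _ hkk
        rw [Finset.mem_coe, Finset.mem_filter] at hk
        have ha := hk.2.1
        obtain ⟨⟨a, b, h⟩, hm⟩ := k
        obtain ⟨⟨a', b', h'⟩, hm'⟩ := k'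
        simp only [Prod.mk.injEq, disc] at hkk ha
        obtain ⟨⟨rfl, rfl⟩, e⟩ := hkk
        have e2 : 4 * a * (h - h') = 0 := by linarith
        have e3 : h - h' = 0 := by
          rcases mul_eq_zero.1 e2 with h5 | h5
          · exact absurd h5 (by simpa using ha)
          · exact h5
        have e4 : h = h' := by linarith
        subst e4
        rfl
    have h5 : (((Finset.Icc (-(B : ℤ)) B ×ˢ Finset.Icc (-(B : ℤ)) B) ×ˢ E).card : ℝ) =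
        (2 * B + 1) ^ 2 * E.card := by
      rw [Finset.card_product, Finset.card_product, Int.card_Icc]
      have e : ((B : ℤ) + 1 - -(B : ℤ)).toNat = 2 * B + 1 := by omega
      rw [e]
      push_cast
      ring
    have h6 : (2 * (B : ℝ) + 1) ^ 2 ≤ 9 * L ^ (1 / 10 : ℝ) := by
      have e1 : 2 * (B : ℝ) + 1 ≤ 3 * L ^ (1 / 20 : ℝ) := by linarith
      have e2 : L ^ (1 / 10 : ℝ) = (L ^ (1 / 20 : ℝ)) ^ 2 := by
        rw [← Real.rpow_natCast, ← Real.rpow_mul (by linarith)]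
        norm_num
      rw [e2]
      calc (2 * (B : ℝ) + 1) ^ 2 ≤ (3 * L ^ (1 / 20 : ℝ)) ^ 2 := by gcongr
        _ = _ := by ring
    calc _ ≤ (((Finset.Icc (-(B : ℤ)) B ×ˢ Finset.Icc (-(B : ℤ)) B) ×ˢ E).card : ℝ) := by
          exact_mod_cast h4
      _ = (2 * B + 1) ^ 2 * E.card := h5
      _ ≤ _ := mul_le_mul_of_nonneg_right h6 (Nat.cast_nonneg _)
  have h4 : (Fintype.card {t : ℤ × ℤ × ℤ // t ∈ 𝒮} : ℝ) * K₁ ≤ L / 800 := by
    calc (Fintype.card {t : ℤ × ℤ × ℤ // t ∈ 𝒮} : ℝ) * K₁ ≤ (c * L) * (24 / c₃) :=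
          mul_le_mul huc hK16 hK₁0 (by positivity)
      _ ≤ (c₃ / 19200 * L) * (24 / c₃) := by
          apply mul_le_mul_of_nonneg_right _ (by positivity)
          exact mul_le_mul_of_nonneg_right hcc (by linarith)
      _ = L / 800 := by field_simp; ring
  have h5 : ((univ.filter (fun k : {t : ℤ × ℤ × ℤ // t ∈ 𝒮} => Bad E k.1)).card : ℝ) * K₂ ≤
      L / 800 := by
    refine le_trans ?_ k2
    apply mul_le_mul_of_nonneg_right _ hK₂0
    refine h3.trans ?_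
    apply mul_le_mul_of_nonneg_left hE
    positivity
  linarith

theorem qcovm : ∃ c : ℝ, 0 < c ∧ ∃ X₀ : ℝ, ∀ X : ℝ, X₀ ≤ X → ∀ 𝒮 : Finset (ℤ × ℤ × ℤ),
    (∀ t ∈ 𝒮, Adm (Real.log X) t) → (∀ t ∈ 𝒮, ∀ t' ∈ 𝒮, Par t t' → t = t') →
    (𝒮.card : ℝ) ≤ c * Real.log X →
    ∀ (𝒜 : Finset ℤ) (N Err : ℝ), X ^ (1 / 2 : ℝ) ≤ N → 0 ≤ Err → Err ≤ X ^ (1 / 20 : ℝ) →
    (∀ q : ℕ, Squarefree q → (q : ℝ) ≤ X ^ (1 / 4 : ℝ) →
      (∀ p ∈ q.primeFactors, (Real.log X) ^ 3 < p) →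
      ∀ r : ℤ, |((𝒜.filter (fun x => (q : ℤ) ∣ x - r)).card : ℝ) - N / q| ≤ Err) →
    ∃ x ∈ 𝒜, ∀ t ∈ 𝒮, ∃ p : ℕ, p.Prime ∧ (Real.log X) ^ 3 < p ∧ (p : ℝ) ≤ X ^ (1 / 10 : ℝ) ∧
      (p : ℤ) ∣ val t x := by
  obtain ⟨c₂, hc₂, hAl⟩ := A_lower
  obtain ⟨C, hC0, LT, hT⟩ := T_lower3
  obtain ⟨CM₀, hM₀⟩ := Pool.Agent.Helper256.KM.mertens_inv
  have hCM0 : 0 ≤ max CM₀ 0 := le_max_right _ _
  have hc₃ : 0 < c₂ * Real.exp (-C) := mul_pos hc₂ (Real.exp_pos _)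
  obtain ⟨c₃, hc3⟩ : ∃ c₃, c₃ = c₂ * Real.exp (-C) := ⟨_, rfl⟩
  rw [← hc3] at hc₃
  have hC1 : 1 ≤ 2 / c₃ + 1 := by
    have : 0 < 2 / c₃ := by positivity
    linarith
  obtain ⟨c, hc⟩ : ∃ c : ℝ, c = min (1 / 8) (c₃ / 19200) := ⟨_, rfl⟩
  have hc0 : 0 < c := by rw [hc]; exact lt_min (by norm_num) (by positivity)
  have hc8 : c ≤ 1 / 8 := by rw [hc]; exact min_le_left _ _
  have hcc : c ≤ c₃ / 19200 := by rw [hc]; exact min_le_right _ _
  obtain ⟨L₀, hL₀⟩ := ev_facts (3 / 2 * (2 / c₃ + 1)) (max CM₀ 0)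
  obtain ⟨L₁, hL₁⟩ := ev_more3 c₃ hc₃
  refine ⟨c, hc0, Real.exp (max (max L₀ L₁) LT), ?_⟩
  intro X hX 𝒮 h𝒮 hpar hcard𝒮 𝒜 N Err hN hErr0 hErr hcount
  have hX0 : 0 < X := lt_of_lt_of_le (Real.exp_pos _) hX
  obtain ⟨L, hL⟩ : ∃ L, L = Real.log X := ⟨_, rfl⟩
  rw [← hL] at h𝒮 hcard𝒮 hcount ⊢
  have hXL : X = Real.exp L := by rw [hL]; exact (Real.exp_log hX0).symm
  have hLmax : max (max L₀ L₁) LT ≤ L := by
    rw [hL, ← Real.log_exp (max (max L₀ L₁) LT)]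
    exact Real.log_le_log (Real.exp_pos _) hX
  obtain ⟨f1, f2, f3, f4, f5, f6⟩ := hL₀ L (((le_max_left _ _).trans (le_max_left _ _)).trans hLmax)
  obtain ⟨k1, k2, k3, k4, k5⟩ := hL₁ L (((le_max_right _ _).trans (le_max_left _ _)).trans hLmax)
  obtain ⟨E, hE, hTD⟩ := hT L ((le_max_right _ _).trans hLmax)
  obtain ⟨m, hm1, hm2, hm3⟩ := scales (3 / 2 * (2 / c₃ + 1)) L (by linarith) f1 f3 f5
  obtain ⟨l, hl⟩ : ∃ l, l = Real.log L := ⟨_, rfl⟩
  rw [← hl] at f1 f2 f6 k1 k2 hm1 hm2 hm3 hTD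
  obtain ⟨l', hl'⟩ : ∃ l', l' = 3 / 2 * l := ⟨_, rfl⟩
  clear f3 hLmax hL₀ hL₁ hT
  have hl0 : 0 < l := by linarith
  have hLpos : 0 < L := by linarith
  have hLexp : L = Real.exp l := by rw [hl]; exact (Real.exp_log hLpos).symm
  have hXr : ∀ s : ℝ, X ^ s = Real.exp (s * L) := by
    intro s
    rw [hXL, ← Real.exp_mul, mul_comm]
  have hl'0 : 0 < l' := by rw [hl']; linarith
  have hll' : l ≤ l' := by rw [hl']; linarith
  obtain ⟨z₀, hz₀⟩ : ∃ z₀, z₀ = Real.exp (2 * (2 / c₃ + 1) * l') := ⟨_, rfl⟩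
  obtain ⟨z, hz⟩ : ∃ z, z = z₀ ^ (2 ^ m) := ⟨_, rfl⟩
  have hlogz0 : Real.log z₀ = 2 * (2 / c₃ + 1) * l' := by rw [hz₀]; exact Real.log_exp _
  have hz01 : 1 < z₀ := by rw [hz₀]; exact Real.one_lt_exp_iff.mpr (by positivity)
  have hlogz : Real.log z = (2:ℝ) ^ m * (2 * (3 / 2 * (2 / c₃ + 1)) * l) := by
    rw [hz, Real.log_pow, hlogz0, hl']
    push_cast
    ring
  have hzpos : 0 < z := by rw [hz]; positivity
  have hlz1 : Real.log z ≤ L / (1000 * l) := by rw [hlogz]; exact hm1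
  have hlz2 : L / (2000 * l) ≤ Real.log z := by rw [hlogz]; exact hm2
  have hyz' : 3 * l ≤ Real.log z := by
    rw [hlogz]
    have h2j : (1:ℝ) ≤ 2 ^ m := one_le_pow₀ (by norm_num)
    have h1 : 3 * l ≤ 1 * (2 * (3 / 2 * (2 / c₃ + 1)) * l) := by nlinarith
    have h2 : 0 < 2 * (3 / 2 * (2 / c₃ + 1)) * l := by positivity
    nlinarith
  clear hlogz hm1 hm2
  have hlzpos : 0 < Real.log z := lt_of_lt_of_le (by positivity) hlz2
  have hzexp : z = Real.exp (Real.log z) := (Real.exp_log hzpos).symm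
  have hz1 : 1 < z := by rw [hzexp]; exact Real.one_lt_exp_iff.mpr hlzpos
  have hlzL : Real.log z ≤ L / 10000 := by
    refine hlz1.trans ?_
    apply div_le_div_of_nonneg_left hLpos.le (by norm_num)
    linarith
  have hz10 : z ≤ X ^ (1 / 10 : ℝ) := by
    rw [hzexp, hXr]
    apply Real.exp_le_exp.mpr
    linarith
  have hzL : z ≤ Real.exp L := by
    rw [hzexp]
    exact Real.exp_le_exp.mpr (by linarith)
  have hy2' : 1000 ≤ L ^ 2 := by nlinarith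
  have hy23 : L ^ 2 ≤ L ^ 3 := pow_le_pow_right₀ (by linarith) (by norm_num)
  have hy1' : 1000 ≤ L ^ 3 := by linarith
  have hy1 : 3 ≤ L ^ 3 := by linarith
  have hlogy : Real.log (L ^ 3) = 2 * l' := by rw [Real.log_pow, ← hl, hl']; push_cast; ring
  have hyz : L ^ 3 ≤ z := by
    rw [← Real.log_le_log_iff (by linarith) hzpos, hlogy, hl']
    linarith
  -- the sieving primes
  obtain ⟨PP, hPP⟩ : ∃ PP, PP = PZ (L ^ 3) z := ⟨_, rfl⟩
  have hPPmem : ∀ p ∈ PP, p.Prime ∧ L ^ 3 < (p:ℝ) ∧ (p:ℝ) ≤ z := by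
    intro p hp
    rw [hPP] at hp
    unfold PZ at hp
    rw [Finset.mem_filter, Finset.mem_Icc] at hp
    refine ⟨hp.2.1, hp.2.2, ?_⟩
    calc (p:ℝ) ≤ (⌊z⌋₊ : ℝ) := by exact_mod_cast hp.1.2
      _ ≤ z := Nat.floor_le hzpos.le
  have hPprime : ∀ p ∈ PP, p.Prime := fun p hp => (hPPmem p hp).1
  have hPprime2 : ∀ p ∈ PP, p.Prime ∧ p ≠ 2 := fun p hp => ⟨(hPPmem p hp).1, by
    rintro rfl
    have := (hPPmem 2 hp).2.1
    push_cast at this
    linarith⟩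
  have hn1 : (PP.card:ℝ) + 1 ≤ z := by
    have h1 : PP ⊆ Finset.Icc 2 ⌊z⌋₊ := by
      intro p hp
      have hp' := hp
      rw [hPP] at hp'
      unfold PZ at hp'
      rw [Finset.mem_filter, Finset.mem_Icc] at hp'
      rw [Finset.mem_Icc]
      exact ⟨hp'.2.1.two_le, hp'.1.2⟩
    have h2 := Finset.card_le_card h1
    rw [Nat.card_Icc] at h2
    have h3 : 1 ≤ ⌊z⌋₊ := Nat.le_floor (by
      push_cast
      exact hz1.le)
    have h4 : PP.card + 1 ≤ ⌊z⌋₊ := by omega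
    calc (PP.card:ℝ) + 1 ≤ (⌊z⌋₊ : ℝ) := by exact_mod_cast h4
      _ ≤ z := Nat.floor_le hzpos.le
  -- the colours
  let κ : Type := {t : ℤ × ℤ × ℤ // t ∈ 𝒮}
  let q : κ → ℤ × ℤ × ℤ := fun k => k.1
  have huniq : ∀ p ∈ PP, ∀ k l : κ, ∀ x : ℤ, (p : ℤ) ∣ val (q k) x → (p : ℤ) ∣ val (q l) x → k = l := by
    intro p hp k l x h1 h2
    apply Subtype.ext
    apply hpar _ k.2 _ l.2
    exact par_of_dvd k3 (by linarith) (hPPmem p hp).1 (hPPmem p hp).2.1 (h𝒮 _ k.2) (h𝒮 _ l.2) h1 h2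
  have hnd : ∀ p ∈ PP, ∀ k : κ, Good (q k) p := fun p hp k =>
    good_of_adm k3 k4 k5 (by linarith) (hPPmem p hp).2.1 (h𝒮 _ k.2)
  have hgdef : ∀ (i : Fin PP.card) (k : κ), gt PP q i k =
      (1 + chi (q k) (emb PP i)) / ((emb PP i : ℕ) : ℝ) := fun i k => rfl
  have hPy : ∀ i : Fin PP.card, L ^ 2 < ((emb PP i : ℕ) : ℝ) :=
    fun i => lt_of_le_of_lt hy23 (hPPmem _ (emb_mem PP i)).2.1
  have hPz : ∀ i : Fin PP.card, ((emb PP i : ℕ) : ℝ) ≤ z := fun i => (hPPmem _ (emb_mem PP i)).2.2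
  have hP1 : ∀ i : Fin PP.card, 1 < ((emb PP i : ℕ) : ℝ) := fun i => by linarith [hPy i]
  have hP0 : ∀ i : Fin PP.card, 0 < ((emb PP i : ℕ) : ℝ) := fun i => by linarith [hPy i]
  have hg0 : ∀ (i : Fin PP.card) (k : κ), 0 ≤ gt PP q i k := fun i k => by
    rw [hgdef]
    apply div_nonneg _ (hP0 i).le
    have := (abs_le.mp (chi_abs_le (q k) (emb PP i))).1
    linarith
  have hgP : ∀ (i : Fin PP.card) (k : κ), gt PP q i k ≤ 2 / ((emb PP i : ℕ) : ℝ) := fun i k => by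
    rw [hgdef]
    apply div_le_div_of_nonneg_right _ (hP0 i).le
    have := (abs_le.mp (chi_abs_le (q k) (emb PP i))).2
    linarith
  have hgy : ∀ (i : Fin PP.card) (k : κ), gt PP q i k ≤ 2 / L ^ 2 := fun i k => by
    refine (hgP i k).trans ?_
    exact div_le_div_of_nonneg_left (by norm_num) (by linarith) (hPy i).le
  -- the profiles
  have hAsum : ∀ (k : κ) (x : ℝ), Asum (fun i => ((emb PP i : ℕ) : ℝ)) (fun i => gt PP q i k) x =
      ∑ s ∈ (PP.powerset.filter (fun s : Finset ℕ => s.Nonempty ∧ ∏ p ∈ s, (p : ℝ) ≤ x)),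
        ∏ p ∈ s, (1 + chi (q k) p) / p := fun k x =>
    Asum_enum PP (fun p => (1 + chi (q k) p) / p) x
  obtain ⟨K₁, hK₁⟩ : ∃ K₁, K₁ = 4 / (c₃ / (4 * l') * ((m + 1 : ℕ) : ℝ)) := ⟨_, rfl⟩
  obtain ⟨K₂, hK₂⟩ : ∃ K₂, K₂ = 16 * l' * Real.exp (l' / 20) / c₃ := ⟨_, rfl⟩
  have hTk : ∀ k : κ, (∀ w, L ^ 3 ≤ w → w ≤ Real.exp L →
      -(C + l / 20) ≤ Tc (fun p => chi (q k) p) (L ^ 3) w) ∧
      (¬ Bad E (q k) → ∀ w, L ^ 3 ≤ w → w ≤ Real.exp L → -C ≤ Tc (fun p => chi (q k) p) (L ^ 3) w) := by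
    intro k
    have hk := h𝒮 _ k.2
    by_cases ha : (q k).1 = 0
    · have h0 : ∀ w, Tc (fun p => chi (q k) p) (L ^ 3) w = 0 := by
        intro w
        unfold Tc
        apply Finset.sum_eq_zero
        intro p _
        have : chi (q k) p = 0 := by unfold chi; rw [if_pos ha]
        show chi (q k) p / p = 0
        rw [this, zero_div]
      refine ⟨fun w _ _ => ?_, fun _ w _ _ => ?_⟩
      · rw [h0]; linarith
      · rw [h0]; linarith
    · have h1 : (fun p => chi (q k) p) = fun p => XX (disc (q k)) p := by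
        funext p
        unfold chi
        rw [if_neg ha]
      rw [h1]
      have h2 := hTD (disc (q k)) (hk.2.2.2.1 ha) (disc_bound k4 hk)
      refine ⟨h2.1, fun hb => h2.2 (fun hE' => hb ⟨ha, hE'⟩)⟩
  have hgood : ∀ k : κ, ¬ Bad E (q k) → ∃ h, Hyp (fun i => ((emb PP i : ℕ) : ℝ))
      (fun i => gt PP q i k) h z K₁ := by
    intro k hk
    rw [hK₁]
    apply prof_good hc₃ hl'0 hlogz0 hz01 hz hy1 hlogy _ _ hP1 (fun i => hg0 i k)
    intro x hx1 hx2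
    have h1 := hAl (L ^ 3) z x C (fun p => chi (q k) p)
      (fun p => chi_abs_le _ _) hy1 hx1 hx2 hC0
      (fun w hw1 hw2 => (hTk k).2 hk w hw1 (hw2.trans hzL))
    rw [← hc3, ← hPP] at h1
    rw [hAsum]
    exact h1
  have hbad : ∀ k : κ, ∃ h, Hyp (fun i => ((emb PP i : ℕ) : ℝ)) (fun i => gt PP q i k) h z K₂ := by
    intro k
    rw [hK₂]
    apply prof_bad hc₃ hl'0 hz1 (by
      refine le_trans ?_ hlz2
      apply div_le_div_of_nonneg_left hLpos.le (by positivity)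
      linarith) _ _ hP1 (fun i => hg0 i k) (by rw [hl']; exact k1)
    have h1 := hAl (L ^ 3) z z (C + l' / 20) (fun p => chi (q k) p)
      (fun p => chi_abs_le _ _) hy1 hyz le_rfl (by positivity)
      (fun w hw1 hw2 => by
        have := (hTk k).1 w hw1 (hw2.trans hzL)
        linarith)
    have h2 : c₂ * Real.exp (-(C + l' / 20)) = c₃ * Real.exp (-(l' / 20)) := by
      rw [hc3, mul_assoc, ← Real.exp_add]
      congr 2
      ring
    rw [h2, hlogy, ← hPP] at h1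
    rw [hAsum]
    exact h1
  have hprof : ∀ k : κ, ∃ h, Hyp (fun i => ((emb PP i : ℕ) : ℝ)) (fun i => gt PP q i k) h z
      (if Bad E (q k) then K₂ else K₁) := by
    intro k
    by_cases hk : Bad E (q k)
    · obtain ⟨h, H⟩ := hbad k
      refine ⟨h, ?_⟩
      rw [if_pos hk]
      exact H
    · obtain ⟨h, H⟩ := hgood k hk
      refine ⟨h, ?_⟩
      rw [if_neg hk]
      exact H
  clear hgood hbad hAsum hTD hAl hTk
  choose h H using hprof
  have hK16 : K₁ ≤ 24 / c₃ := by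
    rw [hK₁, div_le_div_iff₀ (by positivity) hc₃]
    have h1 : c₃ / 6 ≤ c₃ / (4 * l') * ((m + 1 : ℕ) : ℝ) := by
      push_cast
      calc c₃ / 6 = c₃ / (4 * l') * l := by rw [hl']; field_simp; norm_num
        _ ≤ c₃ / (4 * l') * (m + 1) := mul_le_mul_of_nonneg_left hm3 (by positivity)
    linarith
  have hK₁0 : 0 ≤ K₁ := by rw [hK₁]; positivity
  have hK₂0 : 0 ≤ K₂ := by rw [hK₂]; positivity
  have hucard : (Fintype.card κ : ℝ) = (𝒮.card : ℝ) := by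
    congr 1
    exact Fintype.card_coe 𝒮
  have huc : (Fintype.card κ : ℝ) ≤ c * L := by rw [hucard]; exact hcard𝒮
  have hKsum : ∑ k, (if Bad E (q k) then K₂ else K₁) ≤ L / 400 :=
    Ksum3_le E 𝒮 (fun t ht => h𝒮 t ht) (by linarith) hc₃ hK₁0 hK16 hK₂0 hcc hc0.le huc hE
      (by rw [hK₂, hl']; exact k2)
  obtain ⟨u, hu⟩ : ∃ u, u = (Fintype.card κ : ℝ) := ⟨_, rfl⟩
  have hu0 : 0 ≤ u := by rw [hu]; exact Nat.cast_nonneg _
  have huL : u ≤ L / 8 := by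
    rw [hu]
    refine huc.trans ?_
    calc c * L ≤ 1 / 8 * L := mul_le_mul_of_nonneg_right hc8 hLpos.le
      _ = L / 8 := by ring
  -- the sum of the densities
  have hmax : 20 * max CM₀ 0 ≤ l := f2
  have hz3 : 3 ≤ z := by linarith
  have hsumP : ∑ i : Fin PP.card, 1 / ((emb PP i : ℕ) : ℝ) ≤ l + max CM₀ 0 := by
    have h1 : ∑ i : Fin PP.card, 1 / ((emb PP i : ℕ) : ℝ) = ∑ p ∈ PP, 1 / (p:ℝ) := by
      have : PP = univ.map (emb PP) := by
        ext p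
        rw [Finset.mem_map]
        constructor
        · intro hp
          obtain ⟨i, hi⟩ := emb_surj PP hp
          exact ⟨i, Finset.mem_univ _, hi⟩
        · rintro ⟨i, _, rfl⟩
          exact emb_mem PP i
      conv_rhs => rw [this]
      rw [Finset.sum_map]
    rw [h1, hPP, hl]
    exact sum_inv_PZ hM₀ hz3 (by linarith)
  have hGk : ∀ k : κ, ∑ i, gt PP q i k ≤ 2 * (l + max CM₀ 0) := by
    intro k
    calc ∑ i, gt PP q i k ≤ ∑ i : Fin PP.card, 2 * (1 / ((emb PP i : ℕ) : ℝ)) := by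
          apply Finset.sum_le_sum
          intro i _
          have := hgP i k
          have e : 2 * (1 / ((emb PP i : ℕ) : ℝ)) = 2 / ((emb PP i : ℕ) : ℝ) := by ring
          rw [e]
          exact this
      _ = 2 * ∑ i : Fin PP.card, 1 / ((emb PP i : ℕ) : ℝ) := by rw [Finset.mul_sum]
      _ ≤ 2 * (l + max CM₀ 0) := by linarith
  -- parameters
  obtain ⟨J, hJ⟩ : ∃ J : ℕ, J = 2 * ⌈22 * l⌉₊ := ⟨_, rfl⟩
  have hJ1 : 44 * l ≤ (J:ℝ) := by
    have := Nat.le_ceil (22 * l)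
    rw [hJ]; push_cast; linarith
  have hJ2 : (J:ℝ) ≤ 45 * l := by
    have := Nat.ceil_lt_add_one (show 0 ≤ 22 * l by positivity)
    rw [hJ]; push_cast; linarith
  have hJe : Even J := ⟨⌈22 * l⌉₊, by rw [hJ]; ring⟩
  have hQ1 : 1 ≤ Real.exp (L / 40) := Real.one_le_exp (by positivity)
  have hzJ : z ^ J ≤ Real.exp (45 * L / 1000) := by
    rw [hzexp, ← Real.exp_nat_mul]
    apply Real.exp_le_exp.mpr
    calc (J:ℝ) * Real.log z ≤ (45 * l) * (L / (1000 * l)) :=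
          mul_le_mul hJ2 hlz1 hlzpos.le (by positivity)
      _ = 45 * L / 1000 := by field_simp
  -- sizes of supports
  have hL1 : 1 ≤ L := by linarith
  have hδ : ∀ D : Col PP.card κ, qq (fun i => ((emb PP i : ℕ) : ℝ)) D ≤ Real.exp (L / 40) →
      ∀ k, 2 * ∑ i with D i ≠ none, gt PP q i k ≤ 2 / L := by
    intro D hD k
    have h1 : ∑ i with D i ≠ none, gt PP q i k ≤ (supp D).card * (2 / L ^ 2) := by
      have : ∑ i ∈ supp D, gt PP q i k ≤ ∑ i ∈ supp D, (2 / L ^ 2) :=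
        Finset.sum_le_sum (fun i _ => hgy i k)
      rw [Finset.sum_const, nsmul_eq_mul] at this
      exact this
    have h2 := supp_card_le (fun i => ((emb PP i : ℕ) : ℝ)) hLexp hL1 hPy D (L / 40) hD
    have h2' : ((supp D).card : ℝ) ≤ L / 40 := by
      have h2 : 0 ≤ ((supp D).card : ℝ) := Nat.cast_nonneg _
      nlinarith
    have h3 : ((supp D).card : ℝ) * (2 / L ^ 2) ≤ L / 40 * (2 / L ^ 2) :=
      mul_le_mul_of_nonneg_right h2' (by positivity)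
    have h4 : L / 40 * (2 / L ^ 2) = 1 / (20 * L) := by field_simp; norm_num
    have h5 : 1 / (20 * L) ≤ 1 / L := by
      apply one_div_le_one_div_of_le hLpos
      linarith
    have h6 : 2 / L = 2 * (1 / L) := by ring
    rw [h6]
    linarith
  -- the count
  have hevent : ∀ D : Col PP.card κ,
      qq (fun i => ((emb PP i : ℕ) : ℝ)) D ≤ Real.exp (L / 40) ^ 2 * z ^ J →
      |((𝒜.filter (fun a => ∀ i, D i ≠ none → colt PP q a i = D i)).card : ℝ) -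
        N * nu (gt PP q) D| ≤ Real.exp (7 * L / 100) := by
    intro D hD
    have hD1 : qq (fun i => ((emb PP i : ℕ) : ℝ)) D ≤ Real.exp (L / 10) := by
      refine hD.trans ?_
      calc Real.exp (L / 40) ^ 2 * z ^ J ≤ Real.exp (L / 40) ^ 2 * Real.exp (45 * L / 1000) :=
            mul_le_mul_of_nonneg_left hzJ (by positivity)
        _ = Real.exp (L / 20 + 45 * L / 1000) := by
            rw [← Real.exp_nat_mul, ← Real.exp_add]
            congr 1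
            push_cast
            ring
        _ ≤ Real.exp (L / 10) := Real.exp_le_exp.mpr (by linarith)
    have hcast : ((∏ i ∈ supp D, emb PP i : ℕ) : ℝ) = qq (fun i => ((emb PP i : ℕ) : ℝ)) D :=
      qn_cast PP D
    have h1 := event_count_t hPprime2 huniq hnd D 𝒜 N Err hErr0 (by
      intro r
      apply hcount _ (qn_squarefree hPprime D)
      · have h2 : ((∏ i ∈ supp D, emb PP i : ℕ) : ℝ) ≤ X ^ (1 / 4 : ℝ) := by
          rw [hcast, hXr]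
          exact hD1.trans (Real.exp_le_exp.mpr (by linarith))
        exact h2
      · intro p hp
        exact (hPPmem p (qn_primeFactors hPprime D hp)).2.1)
    refine h1.trans ?_
    have h2 := supp_card_le (fun i => ((emb PP i : ℕ) : ℝ)) hLexp hL1 hPy D (L / 10) hD1
    have h3 : (2:ℝ) ^ (supp D).card ≤ Real.exp (L / 50) := by
      have e1 : (2:ℝ) ^ (supp D).card ≤ Real.exp ((supp D).card : ℝ) := by
        have : Real.exp ((supp D).card : ℝ) = (Real.exp 1) ^ (supp D).card := by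
          rw [← Real.exp_nat_mul, mul_one]
        rw [this]
        apply pow_le_pow_left₀ (by norm_num)
        have := Real.add_one_le_exp (1:ℝ)
        linarith
      refine e1.trans (Real.exp_le_exp.mpr ?_)
      have h4 : 0 ≤ ((supp D).card : ℝ) := Nat.cast_nonneg _
      nlinarith
    rw [hXr] at hErr
    calc 2 ^ (supp D).card * Err ≤ Real.exp (L / 50) * Real.exp (1 / 20 * L) :=
          mul_le_mul h3 hErr hErr0 (Real.exp_pos _).le
      _ = Real.exp (7 * L / 100) := by rw [← Real.exp_add]; congr 1; ring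
  have hNpos : 0 < N := lt_of_lt_of_le (Real.rpow_pos_of_pos hX0 _) hN
  rw [hXr] at hN
  -- apply the core theorem
  have hL8 : (80:ℝ) ≤ L := by linarith
  clear hcount hErr hK16 hK₁0 hK₂0 hcc hcard𝒮 hE huc hucard k1 k2 k3 k4 k5
  obtain ⟨a, ha, hcov⟩ := core (κ := κ) 𝒜 (colt PP q) H (Real.exp (L / 40)) (2 / L) 3 N
    (Real.exp (7 * L / 100)) (2 * (l + max CM₀ 0)) J
    hJe (by norm_num) hNpos (Real.exp_pos _).le hQ1 hz1 (fun i => (hP1 i).le) hg0 hPz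
    (fun i k => by
      have h1 : (2:ℝ) / L ^ 2 ≤ 1 := by rw [div_le_one (by linarith)]; linarith
      exact (hgy i k).trans h1)
    (fun i k => by
      have h1 : (2:ℝ) / L ^ 2 ≤ 1 / 9 := by
        rw [div_le_div_iff₀ (by linarith) (by norm_num)]
        linarith
      have := hgy i k
      linarith)
    (fun i => by
      have h0 : ∑ k, gt PP q i k ≤ ∑ k : κ, 2 / L ^ 2 := Finset.sum_le_sum (fun k _ => hgy i k)
      rw [Finset.sum_const, Finset.card_univ, nsmul_eq_mul, ← hu] at h0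
      have h1 : u * (2 / L ^ 2) ≤ (L / 8) * (2 / L ^ 2) :=
        mul_le_mul_of_nonneg_right huL (by positivity)
      have h2 : (L / 8) * (2 / L ^ 2) = 1 / (4 * L) := by field_simp; norm_num
      have h3 : 1 / (4 * L) ≤ 1 := by rw [div_le_one (by positivity)]; linarith
      linarith)
    (by positivity) hGk hδ
    (by
      rw [← hu]
      have : u * (2 / L) ≤ (L / 8) * (2 / L) := mul_le_mul_of_nonneg_right huL (by positivity)
      have e : (L / 8) * (2 / L) = 1 / 4 := by field_simp; norm_num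
      linarith)
    (by
      rw [← hu]
      have h1 : ∑ i : Fin PP.card, 1 / ((emb PP i : ℕ) : ℝ) ^ 2 ≤
          (1 / L ^ 2) * ∑ i : Fin PP.card, 1 / ((emb PP i : ℕ) : ℝ) := by
        rw [Finset.mul_sum]
        apply Finset.sum_le_sum
        intro i _
        have e1 : 1 / ((emb PP i : ℕ) : ℝ) ^ 2 =
            (1 / ((emb PP i : ℕ) : ℝ)) * (1 / ((emb PP i : ℕ) : ℝ)) := by
          have := (hP0 i).ne'
          field_simp
        rw [e1]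
        apply mul_le_mul_of_nonneg_right _ (one_div_nonneg.mpr (hP0 i).le)
        exact one_div_le_one_div_of_le (by linarith) (hPy i).le
      have h2 : (1 / L ^ 2) * ∑ i : Fin PP.card, 1 / ((emb PP i : ℕ) : ℝ) ≤ (1 / L ^ 2) * (2 * L) := by
        apply mul_le_mul_of_nonneg_left _ (by positivity)
        linarith
      have h3 : (1 / L ^ 2) * (2 * L) = 2 / L := by field_simp
      have h4 : 2 * u * ∑ i : Fin PP.card, 1 / ((emb PP i : ℕ) : ℝ) ^ 2 ≤ 2 * (L / 8) * (2 / L) := by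
        apply mul_le_mul _ (by linarith) (Finset.sum_nonneg (fun i _ => by positivity))
          (by positivity)
        linarith
      have e : 2 * (L / 8) * (2 / L) = 1 / 2 := by field_simp; norm_num
      linarith)
    (by
      rw [← hu]
      exact num_tail hLexp f1 f5 hu0 huL hzpos hlzpos hlz1 hlz2 hKsum)
    (by
      rw [← hu]
      exact num_mom hLexp f1 f5 hu0 huL hJ1 (by linarith))
    hevent
    (by
      rw [← hu]
      exact num_fin f5 hu0 (by linarith) hn1 hzJ hN)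
  refine ⟨a, ha, fun h' hh' => ?_⟩
  obtain ⟨i, hi⟩ := hcov ⟨h', hh'⟩
  have h1 := (colt_eq huniq a i ⟨h', hh'⟩).mp hi
  have h2 := hPPmem _ (emb_mem PP i)
  exact ⟨emb PP i, h2.1, h2.2.1, h2.2.2.trans hz10, h1⟩


end Pool.Agent.K6.H26.QW
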