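import Pool.Agent.H256R2.SC.G1

set_option autoImplicit false

/-! # The record scale at `√Z` -/

namespace Pool.Agent.K6.H26.QW

open Filter
open Pool.Agent.H256R2.SC (ff)

theorem ev_sqrt : ∃ X₀ : ℝ, ∀ Z : ℝ, X₀ ≤ Z → 0 < ff Z ∧ ff Z ≤ 16 * ff (Real.sqrt Z) := by
  have h3 : ∀ᶠ Z : ℝ in atTop, 2 ≤ Real.log (Real.log (Real.log (Real.log Z))) :=
    (Real.tendsto_log_atTop.comp (Real.tendsto_log_atTop.comp
      (Real.tendsto_log_atTop.comp Real.tendsto_log_atTop))).eventually_ge_atTop _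
  have h4 : ∀ᶠ Z : ℝ in atTop, 2 ≤ Real.log (Real.log (Real.log Z)) :=
    (Real.tendsto_log_atTop.comp (Real.tendsto_log_atTop.comp
      Real.tendsto_log_atTop)).eventually_ge_atTop _
  have h5 : ∀ᶠ Z : ℝ in atTop, 2 ≤ Real.log (Real.log Z) :=
    (Real.tendsto_log_atTop.comp Real.tendsto_log_atTop).eventually_ge_atTop _
  have h6 : ∀ᶠ Z : ℝ in atTop, 2 ≤ Real.log Z := Real.tendsto_log_atTop.eventually_ge_atTop _
  obtain ⟨X₀, hX₀⟩ := eventually_atTop.1 (((h3.and h4).and (h5.and h6)).and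
    (eventually_ge_atTop (1 : ℝ)))
  refine ⟨X₀, fun Z hZ => ?_⟩
  obtain ⟨⟨⟨e3, e4⟩, e5, e6⟩, e7⟩ := hX₀ Z hZ
  obtain ⟨t, ht⟩ : ∃ t : ℝ, t = Real.log Z := ⟨_, rfl⟩
  obtain ⟨s, hs⟩ : ∃ s : ℝ, s = Real.log t := ⟨_, rfl⟩
  obtain ⟨u, hu⟩ : ∃ u : ℝ, u = Real.log s := ⟨_, rfl⟩
  obtain ⟨l, hl⟩ : ∃ l : ℝ, l = Real.log u := ⟨_, rfl⟩
  rw [← ht] at e3 e4 e5 e6
  rw [← hs] at e3 e4 e5
  rw [← hu] at e3 e4
  rw [← hl] at e3
  have h2a := Real.log_two_gt_d9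
  have h2b := Real.log_two_lt_d9
  have f1 : Real.log (Real.sqrt Z) = t / 2 := by
    rw [Real.log_sqrt (by linarith), ht]
  have f2 : Real.log (t / 2) = s - Real.log 2 := by
    rw [Real.log_div (by linarith) (by norm_num), hs]
  have f3 : s / 2 ≤ s - Real.log 2 := by linarith
  have f3' : 0 < s - Real.log 2 := by linarith
  have f4 : Real.log (s - Real.log 2) ≤ u := by
    rw [hu]; exact Real.log_le_log f3' (by linarith)
  have f5 : u / 2 ≤ Real.log (s - Real.log 2) := by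
    have h1 : Real.log (s / 2) ≤ Real.log (s - Real.log 2) := Real.log_le_log (by linarith) f3
    rw [Real.log_div (by linarith) (by norm_num), ← hu] at h1
    linarith
  have f6 : l / 2 ≤ Real.log (Real.log (s - Real.log 2)) := by
    have h1 : Real.log (u / 2) ≤ Real.log (Real.log (s - Real.log 2)) :=
      Real.log_le_log (by linarith) f5
    rw [Real.log_div (by linarith) (by norm_num), ← hl] at h1
    linarith
  have g1 : ff Z = t * s ^ 2 * l / u ^ 2 := by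
    unfold ff
    rw [← ht, ← hs, ← hu, ← hl]
  have g2 : ff (Real.sqrt Z) = t / 2 * (s - Real.log 2) ^ 2 *
      Real.log (Real.log (s - Real.log 2)) / (Real.log (s - Real.log 2)) ^ 2 := by
    unfold ff
    rw [f1, f2]
  have hu0 : 0 < Real.log (s - Real.log 2) := by linarith
  refine ⟨by rw [g1]; positivity, ?_⟩
  rw [g1, g2]
  have k1 : t * s ^ 2 * l / 16 ≤ t / 2 * (s - Real.log 2) ^ 2 *
      Real.log (Real.log (s - Real.log 2)) := by
    have k2 : s ^ 2 / 4 ≤ (s - Real.log 2) ^ 2 := by nlinarith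
    have k3 : t / 2 * (s ^ 2 / 4) ≤ t / 2 * (s - Real.log 2) ^ 2 :=
      mul_le_mul_of_nonneg_left k2 (by linarith)
    have k4 : t / 2 * (s ^ 2 / 4) * (l / 2) ≤ t / 2 * (s - Real.log 2) ^ 2 *
      Real.log (Real.log (s - Real.log 2)) := mul_le_mul k3 f6 (by linarith) (by positivity)
    calc t * s ^ 2 * l / 16 = t / 2 * (s ^ 2 / 4) * (l / 2) := by ring
      _ ≤ _ := k4
  have k5 : (Real.log (s - Real.log 2)) ^ 2 ≤ u ^ 2 := pow_le_pow_left₀ hu0.le f4 2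
  calc t * s ^ 2 * l / u ^ 2 = 16 * (t * s ^ 2 * l / 16 / u ^ 2) := by ring
    _ ≤ 16 * (t * s ^ 2 * l / 16 / (Real.log (s - Real.log 2)) ^ 2) := by
        apply mul_le_mul_of_nonneg_left _ (by norm_num)
        apply div_le_div_of_nonneg_left (by positivity) (by positivity) k5
    _ ≤ 16 * (t / 2 * (s - Real.log 2) ^ 2 *
      Real.log (Real.log (s - Real.log 2)) / (Real.log (s - Real.log 2)) ^ 2) := by
        apply mul_le_mul_of_nonneg_left _ (by norm_num)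
        apply div_le_div_of_nonneg_right k1 (by positivity)

/-- sizes for large `Z` -/
theorem ev_size2 (c : ℝ) (hc : 0 < c) : ∃ X₀ : ℝ, ∀ Z : ℝ, X₀ ≤ Z → 0 < Real.log Z ∧ 1 ≤ Z ∧
    c * ff Z ≤ (Real.log Z) ^ (1 / 60 : ℝ) * Real.log Z ∧ 1 ≤ (Real.log Z) ^ (1 / 60 : ℝ) ∧
    8 * ((Real.log Z) ^ (1 / 60 : ℝ)) ^ 2 ≤ (Real.log (Real.sqrt Z)) ^ (1 / 20 : ℝ) ∧
    300 * ((Real.log Z) ^ (1 / 60 : ℝ)) ^ 2 ≤ Real.log (Real.sqrt Z) ∧
    (Real.log Z) ^ (1 / 60 : ℝ) ≤ Real.sqrt Z := by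
  have h1 := (isLittleO_log_rpow_rpow_atTop (s := 1 / 60) 3 (by norm_num)).def
    (show (0 : ℝ) < 1 / c by positivity)
  have h2 : ∀ᶠ t : ℝ in atTop, 600 ≤ t ^ (29 / 30 : ℝ) :=
    (tendsto_rpow_atTop (by norm_num)).eventually_ge_atTop 600
  have h2' : ∀ᶠ t : ℝ in atTop, 16 ≤ t ^ (1 / 60 : ℝ) :=
    (tendsto_rpow_atTop (by norm_num)).eventually_ge_atTop 16
  have h3 : ∀ᶠ t : ℝ in atTop, Real.exp 1 ≤ Real.log (Real.log t) :=
    (Real.tendsto_log_atTop.comp Real.tendsto_log_atTop).eventually_ge_atTop _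
  obtain ⟨X₀, hX₀⟩ := eventually_atTop.1 ((Real.tendsto_log_atTop.eventually
    (((h1.and (h2.and h3)).and h2').and (eventually_ge_atTop (1 : ℝ)))).and
      (eventually_ge_atTop (1 : ℝ)))
  refine ⟨X₀, fun Z hZ => ?_⟩
  obtain ⟨⟨⟨⟨e1, e2, e3⟩, e2'⟩, e4⟩, e5⟩ := hX₀ Z hZ
  obtain ⟨t, ht⟩ : ∃ t : ℝ, t = Real.log Z := ⟨_, rfl⟩
  rw [← ht] at e1 e2 e3 e4 e2'
  have ht0 : 0 < t := by linarith
  have hl0 : 0 ≤ Real.log t := Real.log_nonneg e4
  have hsq : Real.log (Real.sqrt Z) = t / 2 := by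
    rw [Real.log_sqrt (by linarith), ht]
  have e6' : (t ^ (1 / 60 : ℝ)) ^ 2 = t ^ (1 / 30 : ℝ) := by
    rw [← Real.rpow_natCast, ← Real.rpow_mul ht0.le]; norm_num
  have e8' : 0 < t ^ (1 / 30 : ℝ) := Real.rpow_pos_of_pos ht0 _
  have e7' : t = t ^ (29 / 30 : ℝ) * t ^ (1 / 30 : ℝ) := by
    rw [← Real.rpow_add ht0]; norm_num
  have hmain2 : 300 * (t ^ (1 / 60 : ℝ)) ^ 2 ≤ t / 2 := by
    rw [e6']
    nlinarith
  have hw1 : 1 ≤ t ^ (1 / 60 : ℝ) := Real.one_le_rpow e4 (by norm_num)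
  refine ⟨by rw [← ht]; exact ht0, e5, ?_, ?_, ?_, ?_, ?_⟩
  · unfold ff
    rw [← ht]
    rw [Real.norm_eq_abs, Real.norm_eq_abs, abs_of_nonneg (Real.rpow_nonneg hl0 _),
      abs_of_nonneg (Real.rpow_nonneg ht0.le _)] at e1
    have e6 : (Real.log t) ^ (3 : ℝ) = (Real.log t) ^ 3 := by
      rw [← Real.rpow_natCast]; norm_num
    rw [e6] at e1
    obtain ⟨s, hs⟩ : ∃ s : ℝ, s = Real.log t := ⟨_, rfl⟩
    rw [← hs] at e1 e3 hl0 ⊢
    have he1 : 1 ≤ Real.exp 1 := Real.one_le_exp (by norm_num)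
    have e7 : 0 < Real.log s := by linarith
    have e8 : 1 ≤ Real.log s := by linarith
    have e9 : Real.log (Real.log s) ≤ Real.log s := (Real.log_le_sub_one_of_pos e7).trans (by linarith)
    have hs1 : 0 < s := by
      by_contra h
      have hs2 : s = 0 := le_antisymm (not_lt.1 h) hl0
      rw [hs2, Real.log_zero] at e8
      linarith
    have e10 : Real.log s ≤ s := (Real.log_le_sub_one_of_pos hs1).trans (by linarith)
    have e11 : 1 ≤ (Real.log s) ^ 2 := one_le_pow₀ e8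
    have e12 : t * s ^ 2 * Real.log (Real.log s) / (Real.log s) ^ 2 ≤ t * s ^ 3 := by
      rw [div_le_iff₀ (by positivity)]
      have e13 : t * s ^ 2 * Real.log (Real.log s) ≤ t * s ^ 2 * s :=
        mul_le_mul_of_nonneg_left (e9.trans e10) (by positivity)
      have e14 : t * s ^ 3 ≤ t * s ^ 3 * (Real.log s) ^ 2 := le_mul_of_one_le_right (by positivity) e11
      nlinarith
    have e15 : c * s ^ 3 ≤ t ^ (1 / 60 : ℝ) := by
      have := mul_le_mul_of_nonneg_left e1 hc.le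
      rw [← mul_assoc, mul_one_div_cancel hc.ne', one_mul] at this
      exact this
    calc c * (t * s ^ 2 * Real.log (Real.log s) / (Real.log s) ^ 2) ≤ c * (t * s ^ 3) :=
          mul_le_mul_of_nonneg_left e12 hc.le
      _ = (c * s ^ 3) * t := by ring
      _ ≤ t ^ (1 / 60 : ℝ) * t := mul_le_mul_of_nonneg_right e15 ht0.le
  · rw [← ht]; exact hw1
  · rw [← ht, hsq, e6']
    have f1 : (t / 2) ^ (1 / 20 : ℝ) = t ^ (1 / 20 : ℝ) / 2 ^ (1 / 20 : ℝ) :=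
      Real.div_rpow ht0.le (by norm_num) _
    have f2 : (2 : ℝ) ^ (1 / 20 : ℝ) ≤ 2 := by
      calc (2 : ℝ) ^ (1 / 20 : ℝ) ≤ (2 : ℝ) ^ (1 : ℝ) :=
            Real.rpow_le_rpow_of_exponent_le (by norm_num) (by norm_num)
        _ = 2 := Real.rpow_one 2
    have f3 : (0 : ℝ) < (2 : ℝ) ^ (1 / 20 : ℝ) := by positivity
    have f4 : t ^ (1 / 20 : ℝ) = t ^ (1 / 60 : ℝ) * t ^ (1 / 30 : ℝ) := by
      rw [← Real.rpow_add ht0]; norm_num
    rw [f1, le_div_iff₀ f3, f4]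
    have f5 : 8 * t ^ (1 / 30 : ℝ) * (2 : ℝ) ^ (1 / 20 : ℝ) ≤ 8 * t ^ (1 / 30 : ℝ) * 2 :=
      mul_le_mul_of_nonneg_left f2 (by positivity)
    nlinarith
  · rw [← ht, hsq]
    exact hmain2
  · rw [← ht]
    have f1 : Real.log (Real.sqrt Z) ≤ Real.sqrt Z :=
      (Real.log_le_sub_one_of_pos (Real.sqrt_pos.2 (by linarith))).trans (by linarith)
    rw [hsq] at f1
    nlinarith

end Pool.Agent.K6.H26.QW
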