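import Pool.Agent.H378R2.QG.V1

set_option autoImplicit false
set_option linter.unusedSectionVars false

/-! # Counting the `x` at which given primes divide the values of given quadratic or linear polynomials -/

namespace Pool.Agent.K6.H26.QW

open Finset
open Pool.Agent.H256R2.SC (Col supp qq emb emb_mem emb_surj crt_int mem_supp prod_nu1 nu1)
open Pool.Agent.Helper919 (XX XX_apply XX_abs_le)
open Pool.Agent.H378R2.QG

open Classical in
/-- the number of the `x ∈ 𝒜` for which all the events `E i`, `i ∈ S`, occur, if `E i` is a union of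
residue classes modulo `p i` -/
theorem count_sets {ι : Type} [Fintype ι] [DecidableEq ι] (S : Finset ι) (p : ι → ℕ)
    (hp : ∀ i ∈ S, (p i).Prime) (hinj : ∀ i ∈ S, ∀ j ∈ S, i ≠ j → p i ≠ p j)
    (Rt : ι → Finset ℤ)
    (hRt : ∀ i ∈ S, ∀ r ∈ Rt i, ∀ r' ∈ Rt i, (p i : ℤ) ∣ r - r' → r = r')
    (E : ι → ℤ → Prop) (hE : ∀ i ∈ S, ∀ x : ℤ, E i x ↔ ∃ r ∈ Rt i, (p i : ℤ) ∣ x - r)
    (𝒜 : Finset ℤ) (N Err : ℝ)
    (hcount : ∀ c : ℤ, |((𝒜.filter (fun x => ((∏ i ∈ S, p i : ℕ) : ℤ) ∣ x - c)).card : ℝ) -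
      N / ((∏ i ∈ S, p i : ℕ) : ℝ)| ≤ Err) :
    |((𝒜.filter (fun x => ∀ i ∈ S, E i x)).card : ℝ) -
      N * ∏ i ∈ S, ((Rt i).card / (p i : ℝ))| ≤ (∏ i ∈ S, ((Rt i).card : ℝ)) * Err := by
  set q : ℕ := ∏ i ∈ S, p i with hq
  have hcop : ∀ i ∈ S, ∀ j ∈ S, i ≠ j → IsCoprime ((p i : ℕ) : ℤ) ((p j : ℕ) : ℤ) :=
    fun i hi j hj hij => Nat.isCoprime_iff_coprime.mpr
      ((Nat.coprime_primes (hp i hi) (hp j hj)).2 (hinj i hi j hj hij))
  set R' : ι → Finset ℤ := fun i => if i ∈ S then Rt i else {0} with hR'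
  have hc : ∀ f : ι → ℤ, ∃ c : ℤ, ∀ i ∈ S, (p i : ℤ) ∣ c - f i :=
    fun f => crt_int S (fun i => ((p i : ℕ) : ℤ)) hcop _
  choose c hc using hc
  have hqdvd : ∀ y : ℤ, (∀ i ∈ S, (p i : ℤ) ∣ y) ↔ (q : ℤ) ∣ y := by
    intro y
    constructor
    · intro h
      have : ((q : ℕ) : ℤ) = ∏ i ∈ S, ((p i : ℕ) : ℤ) := by rw [hq]; push_cast; rfl
      rw [this]
      exact Finset.prod_dvd_of_coprime (fun i hi j hj hij => hcop i hi j hj hij) h
    · intro h i hi
      refine dvd_trans ?_ h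
      have : p i ∣ q := Finset.dvd_prod_of_mem _ hi
      exact_mod_cast this
  set F := 𝒜.filter (fun x => ∀ i ∈ S, E i x) with hF
  set τ : ℤ → ι → ℤ := fun x i => if h : i ∈ S ∧ ∃ r ∈ Rt i, (p i : ℤ) ∣ x - r then h.2.choose else 0
    with hτ
  have hτs : ∀ x i, (h : i ∈ S ∧ ∃ r ∈ Rt i, (p i : ℤ) ∣ x - r) → τ x i ∈ Rt i ∧
      (p i : ℤ) ∣ x - τ x i := by
    intro x i h
    have e : τ x i = h.2.choose := by
      simp only [hτ]
      rw [dif_pos h]
    rw [e]
    exact h.2.choose_spec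
  have hmaps : ∀ x ∈ F, τ x ∈ Fintype.piFinset R' := fun x hx => by
    rw [hF, Finset.mem_filter] at hx
    rw [Fintype.mem_piFinset]
    intro i
    by_cases hi : i ∈ S
    · have h1 : R' i = Rt i := by simp only [hR']; rw [if_pos hi]
      rw [h1]
      exact (hτs x i ⟨hi, (hE i hi x).1 (hx.2 i hi)⟩).1
    · have h1 : R' i = {0} := by simp only [hR']; rw [if_neg hi]
      have h2 : τ x i = 0 := by
        simp only [hτ]
        rw [dif_neg (fun h => hi h.1)]
      rw [h1, h2, Finset.mem_singleton]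
  have hcard := Finset.card_eq_sum_card_fiberwise hmaps
  have hfib : ∀ f ∈ Fintype.piFinset R', F.filter (fun x => τ x = f) =
      𝒜.filter (fun x => (q : ℤ) ∣ x - c f) := by
    intro f hf
    rw [Fintype.mem_piFinset] at hf
    ext x
    simp only [hF, Finset.mem_filter]
    constructor
    · rintro ⟨⟨hx, h1⟩, h2⟩
      refine ⟨hx, (hqdvd _).1 fun i hi => ?_⟩
      have h3 := (hτs x i ⟨hi, (hE i hi x).1 (h1 i hi)⟩).2
      rw [h2] at h3
      have := dvd_sub h3 (hc f i hi)
      have e : x - f i - (c f - f i) = x - c f := by ring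
      rwa [e] at this
    · rintro ⟨hx, h1⟩
      have h2 := (hqdvd _).2 h1
      have key : ∀ i ∈ S, f i ∈ Rt i ∧ (p i : ℤ) ∣ x - f i := by
        intro i hi
        constructor
        · have := hf i
          simp only [hR'] at this
          rwa [if_pos hi] at this
        · have := dvd_add (h2 i hi) (hc f i hi)
          have e : x - c f + (c f - f i) = x - f i := by ring
          rwa [e] at this
      refine ⟨⟨hx, fun i hi => (hE i hi x).2 ⟨f i, (key i hi).1, (key i hi).2⟩⟩, ?_⟩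
      funext i
      by_cases hi : i ∈ S
      · have h3 := hτs x i ⟨hi, f i, (key i hi).1, (key i hi).2⟩
        apply hRt i hi _ h3.1 _ (key i hi).1
        have := dvd_sub (key i hi).2 h3.2
        have e : x - f i - (x - τ x i) = τ x i - f i := by ring
        rwa [e] at this
      · have h1 : R' i = {0} := by simp only [hR']; rw [if_neg hi]
        have h2 : τ x i = 0 := by
          simp only [hτ]
          rw [dif_neg (fun h => hi h.1)]
        have h3 := hf i
        rw [h1, Finset.mem_singleton] at h3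
        rw [h2, h3]
  have hcardR : ((Fintype.piFinset R').card : ℝ) = ∏ i ∈ S, ((Rt i).card : ℝ) := by
    rw [Fintype.card_piFinset]
    push_cast
    have h1 : ∀ i, ((R' i).card : ℝ) = if i ∈ S then ((Rt i).card : ℝ) else 1 := by
      intro i
      simp only [hR']
      split_ifs <;> simp
    simp_rw [h1]
    rw [Finset.prod_ite_mem, Finset.univ_inter]
  have h1 : (F.card : ℝ) = ∑ f ∈ Fintype.piFinset R',
      ((𝒜.filter (fun x => (q : ℤ) ∣ x - c f)).card : ℝ) := by
    rw [hcard]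
    push_cast
    exact Finset.sum_congr rfl fun f hf => by rw [hfib f hf]
  have h2 : N * ∏ i ∈ S, ((Rt i).card / (p i : ℝ)) = ∑ f ∈ Fintype.piFinset R', N / (q : ℝ) := by
    rw [Finset.sum_const, nsmul_eq_mul, hcardR, Finset.prod_div_distrib, hq]
    push_cast
    ring
  rw [h1, h2, ← Finset.sum_sub_distrib]
  refine (Finset.abs_sum_le_sum_abs _ _).trans ?_
  refine (Finset.sum_le_sum fun f _ => hcount (c f)).trans ?_
  rw [Finset.sum_const, nsmul_eq_mul, hcardR]

/-- the value of the polynomial `a x² + b x + h` with the coefficients `t = (a, b, h)` -/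
def val (t : ℤ × ℤ × ℤ) (x : ℤ) : ℤ := t.1 * x ^ 2 + t.2.1 * x + t.2.2

/-- the discriminant -/
def disc (t : ℤ × ℤ × ℤ) : ℤ := t.2.1 ^ 2 - 4 * t.1 * t.2.2

/-- the number of roots modulo `p`, minus one -/
noncomputable def chi (t : ℤ × ℤ × ℤ) (p : ℕ) : ℝ := if t.1 = 0 then 0 else XX (disc t) p

theorem chi_abs_le (t : ℤ × ℤ × ℤ) (p : ℕ) : |chi t p| ≤ 1 := by
  unfold chi
  split_ifs
  · simp
  · exact XX_abs_le _ _

/-- `p` does not divide the relevant coefficients -/
def Good (t : ℤ × ℤ × ℤ) (p : ℕ) : Prop :=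
  (t.1 ≠ 0 → ¬ (p : ℤ) ∣ t.1 ∧ ¬ (p : ℤ) ∣ disc t) ∧ (t.1 = 0 → ¬ (p : ℤ) ∣ t.2.1)

theorem exists_inv {p : ℕ} (hp : p.Prime) {a : ℤ} (ha : ¬ (p : ℤ) ∣ a) : ∃ u : ℤ, (p : ℤ) ∣ a * u - 1 := by
  have hpz : Prime ((p : ℕ) : ℤ) := Nat.prime_iff_prime_int.1 hp
  have h1 : IsCoprime ((p : ℕ) : ℤ) a := (Prime.coprime_iff_not_dvd hpz).2 ha
  obtain ⟨u, v, huv⟩ := h1
  refine ⟨v, -u, ?_⟩
  linear_combination huv

theorem roots_exist {p : ℕ} (hp : p.Prime) (hp2 : p ≠ 2) (t : ℤ × ℤ × ℤ) (hg : Good t p) :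
    ∃ Rt : Finset ℤ, (∀ r ∈ Rt, ∀ r' ∈ Rt, (p : ℤ) ∣ r - r' → r = r') ∧
      (∀ x : ℤ, (p : ℤ) ∣ val t x ↔ ∃ r ∈ Rt, (p : ℤ) ∣ x - r) ∧ (Rt.card : ℝ) = 1 + chi t p ∧
      (Rt.card : ℝ) ≤ 2 := by
  classical
  obtain ⟨a, b, h⟩ := t
  have hpz : Prime ((p : ℕ) : ℤ) := Nat.prime_iff_prime_int.1 hp
  by_cases ha : a = 0
  · subst ha
    have hb : ¬ (p : ℤ) ∣ b := hg.2 rfl
    obtain ⟨u, hu⟩ := exists_inv hp hb
    refine ⟨{-(h * u)}, ?_, ?_, ?_, ?_⟩
    · intro r hr r' hr' _
      rw [Finset.mem_singleton] at hr hr'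
      rw [hr, hr']
    · intro x
      simp only [Finset.mem_singleton, exists_eq_left, val]
      constructor
      · intro h1
        have h2 := dvd_sub (Dvd.dvd.mul_left h1 u) (Dvd.dvd.mul_right hu x)
        have e : u * (0 * x ^ 2 + b * x + h) - (b * u - 1) * x = x - -(h * u) := by ring
        rwa [e] at h2
      · intro h1
        have h2 := dvd_sub (Dvd.dvd.mul_left h1 b) (Dvd.dvd.mul_right hu h)
        have e : b * (x - -(h * u)) - (b * u - 1) * h = 0 * x ^ 2 + b * x + h := by ring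
        rwa [e] at h2
    · unfold chi
      simp
    · simp
  · obtain ⟨hpa, hpD⟩ := hg.1 ha
    have hp2' : ¬ (p : ℤ) ∣ 2 := by
      intro h1
      have h2 : p ∣ 2 := by exact_mod_cast h1
      exact hp2 ((Nat.prime_dvd_prime_iff_eq hp Nat.prime_two).1 h2)
    have h2a : ¬ (p : ℤ) ∣ 2 * a := fun h1 => by
      rcases hpz.dvd_or_dvd h1 with h2 | h2
      · exact hp2' h2
      · exact hpa h2
    have hchi : chi (a, b, h) p = XX (disc (a, b, h)) p := by
      unfold chi
      rw [if_neg ha]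
    have hval : ∀ x : ℤ, 4 * a * val (a, b, h) x = (2 * a * x + b) ^ 2 - disc (a, b, h) := by
      intro x
      simp only [val, disc]
      ring
    have h4a : ¬ (p : ℤ) ∣ 4 * a := fun h1 => by
      have e : 4 * a = 2 * (2 * a) := by ring
      rw [e] at h1
      rcases hpz.dvd_or_dvd h1 with h2 | h2
      · exact hp2' h2
      · exact h2a h2
    have hiff : ∀ x : ℤ, (p : ℤ) ∣ val (a, b, h) x ↔ (p : ℤ) ∣ (2 * a * x + b) ^ 2 - disc (a, b, h) := by
      intro x
      rw [← hval]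
      constructor
      · intro h1
        exact Dvd.dvd.mul_left h1 _
      · intro h1
        exact (hpz.dvd_or_dvd h1).resolve_left h4a
    rcases XX_cases hp hp2 (disc (a, b, h)) hpD with ⟨h1, s, hs⟩ | ⟨h1, h2⟩
    · obtain ⟨u, hu⟩ := exists_inv hp h2a
      have hps : ¬ (p : ℤ) ∣ s := by
        intro h3
        apply hpD
        have h4 := dvd_sub (Dvd.dvd.mul_right h3 s) hs
        have e : s * s - (s ^ 2 - disc (a, b, h)) = disc (a, b, h) := by ring
        rwa [e] at h4
      have hpu : ¬ (p : ℤ) ∣ u := by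
        intro h3
        have h4 := dvd_sub (Dvd.dvd.mul_left h3 (2 * a)) hu
        have e : 2 * a * u - (2 * a * u - 1) = 1 := by ring
        rw [e] at h4
        exact hpz.not_isUnit (isUnit_of_dvd_one h4)
      have hdiff : ¬ (p : ℤ) ∣ u * (-b + s) - u * (-b - s) := by
        intro h3
        have e : u * (-b + s) - u * (-b - s) = 2 * (u * s) := by ring
        rw [e] at h3
        rcases hpz.dvd_or_dvd h3 with h4 | h4
        · exact hp2' h4
        · rcases hpz.dvd_or_dvd h4 with h5 | h5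
          · exact hpu h5
          · exact hps h5
      have hne : u * (-b + s) ≠ u * (-b - s) := by
        intro h3
        apply hdiff
        rw [h3, sub_self]
        exact dvd_zero _
      refine ⟨{u * (-b + s), u * (-b - s)}, ?_, ?_, ?_, ?_⟩
      · intro r hr r' hr' hd
        rw [Finset.mem_insert, Finset.mem_singleton] at hr hr'
        rcases hr with rfl | rfl <;> rcases hr' with rfl | rfl
        · rfl
        · exact absurd hd hdiff
        · exfalso
          apply hdiff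
          have := (dvd_neg (a := (p : ℤ))).2 hd
          rwa [neg_sub] at this
        · rfl
      · intro x
        rw [hiff]
        have key : ∀ σ : ℤ, (p : ℤ) ∣ 2 * a * x + b - σ ↔ (p : ℤ) ∣ x - u * (-b + σ) := by
          intro σ
          constructor
          · intro h3
            have h4 := dvd_sub (Dvd.dvd.mul_left h3 u) (Dvd.dvd.mul_right hu x)
            have e : u * (2 * a * x + b - σ) - (2 * a * u - 1) * x = x - u * (-b + σ) := by ring
            rwa [e] at h4
          · intro h3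
            have h4 := dvd_add (Dvd.dvd.mul_left h3 (2 * a)) (Dvd.dvd.mul_right hu (-b + σ))
            have e : 2 * a * (x - u * (-b + σ)) + (2 * a * u - 1) * (-b + σ) = 2 * a * x + b - σ := by
              ring
            rwa [e] at h4
        constructor
        · intro h3
          have h4 := dvd_sub h3 hs
          have e : (2 * a * x + b) ^ 2 - disc (a, b, h) - (s ^ 2 - disc (a, b, h)) =
              (2 * a * x + b - s) * (2 * a * x + b - -s) := by ring
          rw [e] at h4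
          rcases hpz.dvd_or_dvd h4 with h5 | h5
          · exact ⟨_, Finset.mem_insert_self _ _, (key s).1 h5⟩
          · refine ⟨_, Finset.mem_insert_of_mem (Finset.mem_singleton_self _), ?_⟩
            have := (key (-s)).1 h5
            rwa [← sub_eq_add_neg] at this
        · rintro ⟨r, hr, hd⟩
          rw [Finset.mem_insert, Finset.mem_singleton] at hr
          have e : (2 * a * x + b) ^ 2 - disc (a, b, h) =
              (2 * a * x + b - s) * (2 * a * x + b - -s) + (s ^ 2 - disc (a, b, h)) := by ring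
          rw [e]
          apply dvd_add _ hs
          rcases hr with rfl | rfl
          · exact Dvd.dvd.mul_right ((key s).2 hd) _
          · apply Dvd.dvd.mul_left
            apply (key (-s)).2
            rwa [← sub_eq_add_neg]
      · rw [Finset.card_pair hne, hchi, h1]
        norm_num
      · rw [Finset.card_pair hne]
        norm_num
    · refine ⟨∅, ?_, ?_, ?_, ?_⟩
      · intro r hr
        simp at hr
      · intro x
        rw [hiff]
        simp only [Finset.notMem_empty, false_and, exists_false, iff_false]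
        exact h2 _
      · rw [hchi, h1]
        simp
      · simp

section
variable {κ : Type} [Fintype κ] [DecidableEq κ]

open Classical in
/-- colouring of the integers: the prime number `i` kills the colour `k` at `a` if it divides the value -/
noncomputable def colt (PP : Finset ℕ) (q : κ → ℤ × ℤ × ℤ) (a : ℤ) : Col PP.card κ := fun i =>
  if h : ∃ k, ((emb PP i : ℕ) : ℤ) ∣ val (q k) a then some h.choose else none

theorem colt_eq {PP : Finset ℕ} {q : κ → ℤ × ℤ × ℤ}
    (huniq : ∀ p ∈ PP, ∀ k l, ∀ x : ℤ, (p : ℤ) ∣ val (q k) x → (p : ℤ) ∣ val (q l) x → k = l) (a : ℤ)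
    (i : Fin PP.card) (k : κ) :
    colt PP q a i = some k ↔ ((emb PP i : ℕ) : ℤ) ∣ val (q k) a := by
  unfold colt
  constructor
  · intro h
    split_ifs at h with h1
    have h2 := Option.some.inj h
    have h3 := h1.choose_spec
    rw [h2] at h3
    exact h3
  · intro h
    have h1 : ∃ k, ((emb PP i : ℕ) : ℤ) ∣ val (q k) a := ⟨k, h⟩
    rw [dif_pos h1]
    congr 1
    exact huniq _ (emb_mem PP i) _ _ a h1.choose_spec h

/-- the density of `p ∣ val (q k) x` -/
noncomputable def gt (PP : Finset ℕ) (q : κ → ℤ × ℤ × ℤ) (i : Fin PP.card) (k : κ) : ℝ :=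
  (1 + chi (q k) (emb PP i)) / ((emb PP i : ℕ) : ℝ)

open Classical in
theorem event_count_t {PP : Finset ℕ} (hP : ∀ p ∈ PP, p.Prime ∧ p ≠ 2) {q : κ → ℤ × ℤ × ℤ}
    (huniq : ∀ p ∈ PP, ∀ k l, ∀ x : ℤ, (p : ℤ) ∣ val (q k) x → (p : ℤ) ∣ val (q l) x → k = l)
    (hnd : ∀ p ∈ PP, ∀ k, Good (q k) p) (D : Col PP.card κ) (𝒜 : Finset ℤ) (N Err : ℝ)
    (hErr : 0 ≤ Err)
    (hcount : ∀ c : ℤ, |((𝒜.filter (fun x => ((∏ i ∈ supp D, emb PP i : ℕ) : ℤ) ∣ x - c)).card : ℝ) -
      N / ((∏ i ∈ supp D, emb PP i : ℕ) : ℝ)| ≤ Err) :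
    |((𝒜.filter (fun a => ∀ i, D i ≠ none → colt PP q a i = D i)).card : ℝ) -
      N * nu (gt PP q) D| ≤ 2 ^ (supp D).card * Err := by
  set b : Fin PP.card → ℤ × ℤ × ℤ := fun i => match D i with | none => (0, 1, 0) | some k => q k with hb
  have hbk : ∀ i k, D i = some k → b i = q k := by
    intro i k h
    simp only [hb, h]
  have hfilt : 𝒜.filter (fun a => ∀ i, D i ≠ none → colt PP q a i = D i) =
      𝒜.filter (fun a => ∀ i ∈ supp D, ((emb PP i : ℕ) : ℤ) ∣ val (b i) a) := by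
    apply Finset.filter_congr
    intro a _
    have key : ∀ i, D i ≠ none → (colt PP q a i = D i ↔ ((emb PP i : ℕ) : ℤ) ∣ val (b i) a) := by
      intro i hi
      obtain ⟨k, hk⟩ := Option.ne_none_iff_exists'.mp hi
      rw [hk, hbk i k hk]
      exact colt_eq huniq a i k
    constructor
    · intro h i hi
      have hi' := mem_supp.mp hi
      exact (key i hi').1 (h i hi')
    · intro h i hi
      exact (key i hi).2 (h i (mem_supp.mpr hi))
  have hnu : nu (gt PP q) D = ∏ i ∈ supp D, ((1 + chi (b i) (emb PP i)) / ((emb PP i : ℕ) : ℝ)) := by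
    unfold nu supp
    rw [Finset.prod_filter]
    refine Finset.prod_congr rfl fun i _ => ?_
    cases h : D i with
    | none => simp [nug]
    | some k =>
      simp only [nug, gt, ne_eq, reduceCtorEq, not_false_eq_true, if_true]
      rw [hbk i k h]
  have hroot : ∀ i : Fin PP.card, ∃ Rt : Finset ℤ, i ∈ supp D →
      (∀ r ∈ Rt, ∀ r' ∈ Rt, ((emb PP i : ℕ) : ℤ) ∣ r - r' → r = r') ∧
      (∀ x : ℤ, ((emb PP i : ℕ) : ℤ) ∣ val (b i) x ↔ ∃ r ∈ Rt, ((emb PP i : ℕ) : ℤ) ∣ x - r) ∧
      (Rt.card : ℝ) = 1 + chi (b i) (emb PP i) ∧ (Rt.card : ℝ) ≤ 2 := by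
    intro i
    by_cases hi : i ∈ supp D
    · obtain ⟨k, hk⟩ := Option.ne_none_iff_exists'.mp (mem_supp.mp hi)
      obtain ⟨Rt, h1⟩ := roots_exist (hP _ (emb_mem PP i)).1 (hP _ (emb_mem PP i)).2 (b i)
        (by rw [hbk i k hk]; exact hnd _ (emb_mem PP i) k)
      exact ⟨Rt, fun _ => h1⟩
    · exact ⟨∅, fun h => absurd h hi⟩
  choose Rt hRt using hroot
  have h1 := count_sets (supp D) (fun i => emb PP i) (fun i _ => (hP _ (emb_mem PP i)).1)
    (fun i _ j _ hij h => hij ((emb PP).injective h)) Rt (fun i hi => (hRt i hi).1)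
    (fun i x => ((emb PP i : ℕ) : ℤ) ∣ val (b i) x) (fun i hi => (hRt i hi).2.1) 𝒜 N Err hcount
  rw [hfilt, hnu]
  have h2 : ∏ i ∈ supp D, ((1 + chi (b i) (emb PP i)) / ((emb PP i : ℕ) : ℝ)) =
      ∏ i ∈ supp D, (((Rt i).card : ℝ) / ((emb PP i : ℕ) : ℝ)) :=
    Finset.prod_congr rfl fun i hi => by rw [(hRt i hi).2.2.1]
  rw [h2]
  have h3 : ∏ i ∈ supp D, ((Rt i).card : ℝ) ≤ 2 ^ (supp D).card := by
    rw [← Finset.prod_const]
    exact Finset.prod_le_prod (fun i _ => Nat.cast_nonneg _) (fun i hi => (hRt i hi).2.2.2)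
  have h4 := h1.trans (mul_le_mul_of_nonneg_right h3 hErr)
  refine le_trans (le_of_eq ?_) h4
  congr!

end

end Pool.Agent.K6.H26.QW
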