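import Pool.Agent.H144R2.QG.QP

set_option autoImplicit false

/-! # The mixed upper bound sieve of helper144 (QP) with a general shift -/

namespace Pool.Agent.K6.H26.QW

open Finset ArithmeticFunction BoundingSieve
open Pool.Agent.Helper112.E456.SieveAux
open Pool.Agent.H378R2.QG Pool.Agent.H378R2.QG.QP

theorem no_common2 {m : ℕ} {s : ℤ} {K q p : ℕ} (hps : ¬ (p : ℤ) ∣ s)
    (h1 : p ∣ q) : ¬ p ∣ gg m s K q := by
  intro h2
  have h3 : p ∣ ((m : ℤ) * q + s).natAbs := h2.trans (Nat.gcd_dvd_right _ _)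
  rw [natAbs_dvd_iff] at h3
  have h4 : (p : ℤ) ∣ (m : ℤ) * q := by
    have : (p : ℤ) ∣ (q : ℤ) := by exact_mod_cast h1
    exact this.mul_left _
  exact hps ((Int.dvd_add_right h4).1 h3)

theorem count_fq2 {m : ℕ} {s : ℤ} {K d : ℕ} (N : ℕ) (hK : 0 < K)
    (hd : Squarefree d) (hd2 : Nat.Coprime d 2) (hdm : Nat.Coprime d m)
    (hds : Nat.Coprime d s.natAbs) :
    |(((Icc 1 N).filter (fun q => d ∣ fq m s K q)).card : ℝ) - nuK K d * N|
      ≤ (Nat.divisors d).card := by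
  classical
  have hd0 : 0 < d := Nat.pos_of_ne_zero hd.ne_zero
  have hg0 : Nat.gcd d K ≠ 0 := (Nat.gcd_pos_of_pos_left _ hd0).ne'
  have h1 : (((Icc 1 N).filter (fun q => d ∣ fq m s K q)).card : ℝ)
      = ∑ e ∈ Nat.divisorsAntidiagonal d,
        (((Icc 1 N).filter (fun q => e.1 ∣ q ∧ e.2 ∣ gg m s K q)).card : ℝ) := by
    have h2 : ∀ (P : ℕ → Prop) [DecidablePred P], (((Icc 1 N).filter P).card : ℝ)
        = ∑ n ∈ Icc 1 N, if P n then (1 : ℝ) else 0 := by
      intro P _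
      rw [Finset.card_filter]; push_cast; rfl
    rw [h2]
    simp_rw [h2]
    rw [Finset.sum_comm]
    apply Finset.sum_congr rfl
    intro q _
    rw [factor_count hd]
    · simp only [dvd_fq_iff hd2]
    · intro p hp hpd h3
      refine no_common2 (fun h4 => ?_) h3
      have h5 : p ∣ s.natAbs := by
        have := Int.natAbs_dvd_natAbs.2 h4
        rwa [Int.natAbs_natCast] at this
      exact hp.one_lt.ne' (Nat.dvd_one.1 (hds ▸ Nat.dvd_gcd hpd h5))
  have h2 : nuK K d * N = ∑ e ∈ Nat.divisorsAntidiagonal d,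
      if e.2 ∣ K then (N : ℝ) / d else 0 := by
    rw [← Finset.sum_filter, Finset.sum_const, nsmul_eq_mul, nuK_apply]
    have h3 : ((Nat.divisorsAntidiagonal d).filter (fun e => e.2 ∣ K)).card
        = (Nat.divisors (Nat.gcd d K)).card := by
      apply Finset.card_nbij' (fun e => e.2) (fun e => (d / e, e))
      · rintro ⟨e1, e2⟩ he
        simp only [coe_filter, Nat.mem_divisorsAntidiagonal, Set.mem_ofPred_eq] at he
        rw [Finset.mem_coe, Nat.mem_divisors]
        exact ⟨Nat.dvd_gcd (he.1.1 ▸ dvd_mul_left _ _) he.2, hg0⟩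
      · intro e he
        rw [Finset.mem_coe, Nat.mem_divisors] at he
        have h4 : e ∣ d := he.1.trans (Nat.gcd_dvd_left _ _)
        simp only [coe_filter, Nat.mem_divisorsAntidiagonal, Set.mem_ofPred_eq]
        exact ⟨⟨Nat.div_mul_cancel h4, hd.ne_zero⟩, he.1.trans (Nat.gcd_dvd_right _ _)⟩
      · rintro ⟨e1, e2⟩ he
        simp only [coe_filter, Nat.mem_divisorsAntidiagonal, Set.mem_ofPred_eq] at he
        have h5 : 0 < e2 := Nat.pos_of_ne_zero (by rintro rfl; apply hd.ne_zero; rw [← he.1.1]; simp)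
        simp only [Prod.mk.injEq, and_true]
        rw [← he.1.1, Nat.mul_div_cancel _ h5]
      · intro e _
        rfl
    rw [h3]; ring
  rw [h1, h2, ← Finset.sum_sub_distrib]
  refine (Finset.abs_sum_le_sum_abs _ _).trans ?_
  have h3 : ∀ e ∈ Nat.divisorsAntidiagonal d,
      |(((Icc 1 N).filter (fun q => e.1 ∣ q ∧ e.2 ∣ gg m s K q)).card : ℝ)
        - (if e.2 ∣ K then (N : ℝ) / d else 0)| ≤ 1 := by
    rintro ⟨e1, e2⟩ he
    rw [Nat.mem_divisorsAntidiagonal] at he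
    simp only at he ⊢
    have he1 : e1 ∣ d := he.1 ▸ dvd_mul_right _ _
    have he2 : e2 ∣ d := he.1 ▸ dvd_mul_left _ _
    have h12 : Nat.Coprime e1 e2 := by
      apply Nat.coprime_of_squarefree_mul
      rw [he.1]; exact hd
    by_cases hK2 : e2 ∣ K
    · rw [if_pos hK2]
      obtain ⟨c, hc⟩ := exists_class_two' (m := m) (s := s) (Nat.pos_of_dvd_of_pos he1 hd0)
        (Nat.pos_of_dvd_of_pos he2 hd0) (Nat.Coprime.coprime_dvd_left he2 hdm).symm h12
      have h4 : (Icc 1 N).filter (fun q => e1 ∣ q ∧ e2 ∣ gg m s K q)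
          = (Icc 1 N).filter (fun n => n ≡ c [MOD d]) := by
        apply Finset.filter_congr
        intro n _
        have h5 : e2 ∣ gg m s K n ↔ (e2 : ℤ) ∣ (m : ℤ) * n + s := by
          unfold gg
          rw [Nat.dvd_gcd_iff, natAbs_dvd_iff]
          exact ⟨fun h => h.2, fun h => ⟨hK2, h⟩⟩
        rw [h5, hc n, he.1]
      rw [h4]
      exact count_class N d c hd0
    · rw [if_neg hK2]
      have h4 : (Icc 1 N).filter (fun q => e1 ∣ q ∧ e2 ∣ gg m s K q) = ∅ := by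
        apply Finset.filter_false_of_mem
        intro q _ h5
        exact hK2 (h5.2.trans (Nat.gcd_dvd_left _ _))
      rw [h4]; simp
  refine (Finset.sum_le_sum h3).trans ?_
  rw [Finset.sum_const, nsmul_eq_mul, mul_one]
  have : (Nat.divisorsAntidiagonal d).card = (Nat.divisors d).card := by
    rw [← Nat.map_div_right_divisors, Finset.card_map]
  rw [this]

theorem rem_le2 {m : ℕ} {s : ℤ} {K N R M d : ℕ} (hK : 0 < K) (hM : 2 ∣ M)
    (hmM : m ∣ M) (hsM : s.natAbs ∣ M) (hd : d ∣ PR R M) :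
    |(sq m s K N R M hM).rem d| ≤ d := by
  have hsq : Squarefree d := (PR_squarefree R M).squarefree_of_dvd hd
  have hdM := coprime_of_dvd_PR hd
  have hcop : Nat.Coprime d m := Nat.Coprime.coprime_dvd_right hmM hdM
  have hcop2 : Nat.Coprime d 2 := Nat.Coprime.coprime_dvd_right hM hdM
  have hcops : Nat.Coprime d s.natAbs := Nat.Coprime.coprime_dvd_right hsM hdM
  have h1 := count_fq2 N hK hsq hcop2 hcop hcops
  have h2 : (sq m s K N R M hM).multSum d
      = (((Icc 1 N).filter (fun q => d ∣ fq m s K q)).card : ℝ) := by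
    unfold multSum
    show ∑ n ∈ (Icc 1 N).image (fq m s K), (if d ∣ n then (1 : ℝ) else 0) = _
    rw [Finset.sum_image (fq_inj N hK), Finset.card_filter]
    push_cast; rfl
  have h3 : (sq m s K N R M hM).rem d
      = (((Icc 1 N).filter (fun q => d ∣ fq m s K q)).card : ℝ) - nuK K d * N := by
    unfold BoundingSieve.rem
    rw [h2]; rfl
  rw [h3]
  refine h1.trans ?_
  exact_mod_cast Nat.card_divisors_le_self d

open Classical in
/-- the mixed upper bound sieve with a general shift -/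
theorem sieve_gen : ∃ C : ℝ, 0 < C ∧ ∀ (m N w : ℕ) (s : ℤ), s ≠ 0 → 0 < m → 2 ≤ w →
    (w : ℝ) ≤ (N : ℝ) ^ (1 / 16 : ℝ) →
    (((Finset.Icc 1 N).filter (fun q : ℕ => q.Prime ∧
      ∀ p : ℕ, p.Prime → p ≤ w → ¬ ((p : ℤ) ∣ (m : ℤ) * (q : ℤ) + s))).card : ℝ) ≤
      C * (((m * s.natAbs : ℕ) : ℝ) / (Nat.totient (m * s.natAbs) : ℝ)) ^ 2 * N /
        (Real.log N * Real.log w) := by
  refine ⟨640, by norm_num, ?_⟩
  intro m₀ N w sg hsg hm₀ hw hwN
  have hs0 : 0 < sg.natAbs := Int.natAbs_pos.2 hsg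
  set m : ℕ := m₀ * sg.natAbs with hmdef
  have hm : 0 < m := Nat.mul_pos hm₀ hs0
  have hwr : (2 : ℝ) ≤ w := by exact_mod_cast hw
  have hN1 : 1 ≤ N := by
    rcases Nat.eq_zero_or_pos N with h | h
    · subst h
      rw [Nat.cast_zero, Real.zero_rpow (by norm_num)] at hwN
      linarith
    · exact h
  have hN0 : (0 : ℝ) < N := by exact_mod_cast hN1
  have hNR : (2 : ℝ) ≤ N := by
    have h1 : (1 : ℝ) ≤ N := by exact_mod_cast hN1
    calc (2 : ℝ) ≤ (N : ℝ) ^ (1 / 16 : ℝ) := hwr.trans hwN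
      _ ≤ (N : ℝ) ^ (1 : ℝ) := Real.rpow_le_rpow_of_exponent_le h1 (by norm_num)
      _ = N := Real.rpow_one _
  have hlog : 0 < Real.log N := Real.log_pos (by linarith)
  have hlogw : 0 < Real.log w := Real.log_pos (by linarith)
  set M := 2 * m with hM
  have hM2 : 2 ∣ M := dvd_mul_right _ _
  have hmM : m₀ ∣ M := (dvd_mul_right m₀ sg.natAbs).trans (dvd_mul_left _ _)
  have hsM : sg.natAbs ∣ M := (dvd_mul_left sg.natAbs m₀).trans (dvd_mul_left _ _)
  have hM0 : M ≠ 0 := by omega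
  set X := ⌊(N : ℝ) ^ ((1 : ℝ) / 16)⌋₊ with hX
  have hX1 : 1 ≤ X := by
    rw [hX, Nat.one_le_floor_iff]
    exact Real.one_le_rpow (by linarith) (by norm_num)
  have hXle : (X : ℝ) ≤ (N : ℝ) ^ ((1 : ℝ) / 16) := Nat.floor_le (by positivity)
  have hXlt : (N : ℝ) ^ ((1 : ℝ) / 16) < X + 1 := Nat.lt_floor_add_one _
  have hlogX : Real.log N / 16 ≤ Real.log (X + 1) := by
    have h1 := Real.log_le_log (by positivity) hXlt.le
    rw [Real.log_rpow hN0] at h1
    linarith
  have hwX : w ≤ X := by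
    rw [hX]; exact Nat.le_floor hwN
  set R := w * X with hR
  have hR1 : 1 ≤ R := Nat.mul_pos (by omega) hX1
  set K := PR w M with hK
  have hK0 : 0 < K := PR_pos w M
  set t := QP.sq m₀ sg K N R M hM2 with ht
  -- main Selberg bound
  have hsel := selberg_bound (s := t) R hR1 (A := R) (B := (R : ℝ) ^ 2) (by positivity) (by positivity)
    (by
      intro d hd hdR
      refine (g_div_nu_le' hM2 (Nat.dvd_of_mem_divisors hd)).trans ?_
      exact_mod_cast hdR)
    (by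
      intro d hd hdR
      refine (rem_le2 hK0 hM2 hmM hsM (Nat.dvd_of_mem_divisors hd)).trans ?_
      exact_mod_cast hdR)
  have hcard := card_le_sifted' (m := m₀) (w := w) (s := sg) (N := N) (R := R) hM2
  -- lower bound for J
  have hJ1 := JJ_lower' (m := m₀) (s := sg) (K := K) (N := N) (R := R) hM2
  have hU := U_lower X M hM0
  have hUw := U_lower w M hM0
  have hUs := U_mul w X M
  have hJpos : 0 < JJ t R := JJ_pos R hR1
  have htot : (0 : ℝ) < Nat.totient m := by exact_mod_cast Nat.totient_pos.2 hm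
  have hmr : (0 : ℝ) < m := by exact_mod_cast hm
  set G := (m : ℝ) / (Nat.totient m : ℝ) with hG
  have hG1 : 1 ≤ G := by
    rw [hG, one_le_div htot]
    exact_mod_cast Nat.totient_le m
  have hMG : (M : ℝ) / (Nat.totient M : ℝ) ≤ 2 * G := by
    rw [hG, hM, ← mul_div_assoc]
    push_cast
    apply div_le_div_of_nonneg_left (by positivity) htot
    have : Nat.totient m ≤ Nat.totient (2 * m) :=
      Nat.le_of_dvd (Nat.totient_pos.2 (by omega)) (Nat.totient_dvd_of_dvd (dvd_mul_left _ _))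
    exact_mod_cast this
  have hU0 : 0 ≤ U X M := Finset.sum_nonneg fun _ _ => by positivity
  have hUw0 : 0 ≤ U w M := Finset.sum_nonneg fun _ _ => by positivity
  have hU2 : Real.log N ≤ 64 * G * U X M := by
    have h1 : Real.log (X + 1) ≤ 2 * (2 * G) * U X M := by
      refine hU.trans ?_
      gcongr
    linarith
  have hUw2 : Real.log w ≤ 4 * G * U w M := by
    have h1 : Real.log (w + 1) ≤ 2 * (2 * G) * U w M := by
      refine hUw.trans ?_
      gcongr
    have h2 : Real.log w ≤ Real.log (w + 1) := Real.log_le_log (by linarith) (by linarith)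
    linarith
  have hJ2 : Real.log N * Real.log w ≤ 512 * G ^ 2 * JJ t R := by
    calc Real.log N * Real.log w ≤ (64 * G * U X M) * (4 * G * U w M) := by gcongr
      _ = 256 * G ^ 2 * (U w M * U X M) := by ring
      _ ≤ 256 * G ^ 2 * (2 * JJ t R) := by
          have h5 : U w M * U X M ≤ 2 * JJ t R := hUs.trans (by linarith)
          exact mul_le_mul_of_nonneg_left h5 (by positivity)
      _ = _ := by ring
  have hmain : t.totalMass / JJ t R ≤ 512 * G ^ 2 * N / (Real.log N * Real.log w) := by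
    show (N : ℝ) / JJ t R ≤ _
    rw [div_le_div_iff₀ hJpos (by positivity)]
    calc (N : ℝ) * (Real.log N * Real.log w) ≤ N * (512 * G ^ 2 * JJ t R) := by gcongr
      _ = _ := by ring
  -- error terms
  have hwN' : (w : ℝ) ≤ N := by
    have h1 : (1 : ℝ) ≤ N := by linarith
    calc (w : ℝ) ≤ (N : ℝ) ^ (1 / 16 : ℝ) := hwN
      _ ≤ (N : ℝ) ^ (1 : ℝ) := Real.rpow_le_rpow_of_exponent_le h1 (by norm_num)
      _ = N := Real.rpow_one _
  have hlogwN : Real.log w ≤ Real.log N := Real.log_le_log (by linarith) hwN'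
  have hlog8 : Real.log N * Real.log w ≤ 64 * (N : ℝ) ^ ((1 : ℝ) / 4) := by
    have h1 : Real.log N ≤ (N : ℝ) ^ ((1 : ℝ) / 8) / (1 / 8) :=
      Real.log_le_rpow_div hN0.le (by norm_num)
    calc Real.log N * Real.log w ≤ Real.log N * Real.log N := by gcongr
      _ = (Real.log N) ^ 2 := by ring
      _ ≤ ((N : ℝ) ^ ((1 : ℝ) / 8) / (1 / 8)) ^ 2 := by gcongr
      _ = 64 * ((N : ℝ) ^ ((1 : ℝ) / 8)) ^ 2 := by ring
      _ = 64 * (N : ℝ) ^ ((1 : ℝ) / 4) := by
          rw [← Real.rpow_natCast, ← Real.rpow_mul hN0.le]; norm_num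
  have hX12 : (X : ℝ) ^ 12 ≤ (N : ℝ) ^ ((3 : ℝ) / 4) := by
    calc (X : ℝ) ^ 12 ≤ ((N : ℝ) ^ ((1 : ℝ) / 16)) ^ 12 := by gcongr
      _ = (N : ℝ) ^ ((3 : ℝ) / 4) := by
          rw [← Real.rpow_natCast, ← Real.rpow_mul hN0.le]; norm_num
  have hX1r : (1 : ℝ) ≤ X := by exact_mod_cast hX1
  have herr : (N : ℝ) ^ ((3 : ℝ) / 4) ≤ 64 * G ^ 2 * N / (Real.log N * Real.log w) := by
    rw [le_div_iff₀ (by positivity)]
    calc (N : ℝ) ^ ((3 : ℝ) / 4) * (Real.log N * Real.log w)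
        ≤ (N : ℝ) ^ ((3 : ℝ) / 4) * (64 * (N : ℝ) ^ ((1 : ℝ) / 4)) := by gcongr
      _ = 64 * ((N : ℝ) ^ ((3 : ℝ) / 4) * (N : ℝ) ^ ((1 : ℝ) / 4)) := by ring
      _ = 64 * N := by
          rw [← Real.rpow_add hN0]; norm_num
      _ ≤ 64 * G ^ 2 * N := by
          have : 1 ≤ G ^ 2 := one_le_pow₀ hG1
          nlinarith
  have hRr : (R : ℝ) ≤ (X : ℝ) ^ 2 := by
    rw [hR]; push_cast
    have : (w : ℝ) ≤ X := by exact_mod_cast hwX
    nlinarith
  have he1 : (R : ℝ) ≤ (N : ℝ) ^ ((3 : ℝ) / 4) := by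
    refine hRr.trans (le_trans ?_ hX12)
    exact pow_le_pow_right₀ hX1r (by norm_num)
  have hR0 : (0 : ℝ) ≤ R := Nat.cast_nonneg _
  have he2 : (R : ℝ) ^ 2 * ((R : ℝ) * R) ^ 2 ≤ (N : ℝ) ^ ((3 : ℝ) / 4) := by
    calc (R : ℝ) ^ 2 * ((R : ℝ) * R) ^ 2
        ≤ ((X : ℝ) ^ 2) ^ 2 * ((X : ℝ) ^ 2 * (X : ℝ) ^ 2) ^ 2 := by gcongr
      _ = (X : ℝ) ^ 12 := by ring
      _ ≤ _ := hX12
  calc _ ≤ (R : ℝ) + t.siftedSum := hcard
    _ ≤ (N : ℝ) ^ ((3 : ℝ) / 4) + (512 * G ^ 2 * N / (Real.log N * Real.log w)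
        + (N : ℝ) ^ ((3 : ℝ) / 4)) := by
        linarith
    _ ≤ 64 * G ^ 2 * N / (Real.log N * Real.log w) + (512 * G ^ 2 * N / (Real.log N * Real.log w)
        + 64 * G ^ 2 * N / (Real.log N * Real.log w)) := by linarith
    _ = 640 * G ^ 2 * N / (Real.log N * Real.log w) := by ring


end Pool.Agent.K6.H26.QW
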