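import Pool.Agent.K6.H26.QW.Box
import Pool.Agent.K6.H26.QW.AvgShort
import Pool.Agent.K6.H26.QW.EvSqrt

set_option autoImplicit false

/-! # Equally spaced prime-free intervals between consecutive squares -/

namespace Pool.Agent.K6.H26.QW

open Finset Filter
open Pool.Agent.H256R2.SC (ff)
open scoped Classical

/-- the polynomials `4 m² x² + b x`, `|b| ≤ B` -/
noncomputable def fan (m B : ℕ) : Finset (ℤ × ℤ) :=
  (Finset.Icc (-(B : ℤ)) B).image (fun b => ((4 * (m : ℤ) ^ 2, b) : ℤ × ℤ))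

theorem mem_fan {m B : ℕ} {t : ℤ × ℤ} : t ∈ fan m B ↔ t.1 = 4 * (m : ℤ) ^ 2 ∧ |t.2| ≤ B := by
  unfold fan
  rw [mem_image]
  constructor
  · rintro ⟨b, hb, rfl⟩
    rw [Finset.mem_Icc] at hb
    exact ⟨rfl, abs_le.2 hb⟩
  · rintro ⟨h1, h2⟩
    exact ⟨t.2, Finset.mem_Icc.2 (abs_le.1 h2), Prod.ext h1.symm rfl⟩

theorem spaced_main : ∃ c : ℝ, 0 < c ∧ ∃ Z₀ : ℝ, ∀ Z : ℝ, Z₀ ≤ Z → ∀ M : ℝ, Z ≤ M →
    ∀ (J m : ℕ) (K : ℝ), 1 ≤ J → 1 ≤ m → Real.log Z ≤ K → (J : ℝ) * m * K ≤ c * ff Z →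
    ∃ x : ℕ, M < (m : ℝ) * x ∧ (m : ℝ) * x ≤ M + Z ∧
      ∀ i j : ℤ, |i| ≤ J → 0 ≤ j → j ≤ 4 * m → ∀ q : ℕ, q.Prime →
        K < |(q : ℝ) - ((2 * (m * (x : ℝ)) + i) ^ 2 + j * x)| := by
  obtain ⟨c, hc, Z₁, hmain⟩ := main_gen false
  obtain ⟨C, hC, havg⟩ := avg_short
  obtain ⟨Z₂, hev⟩ := ev_size2 (c / (1024 * C + c)) (by positivity)
  obtain ⟨Z₃, hsqrt⟩ := ev_sqrt
  refine ⟨c / (1024 * C + c), by positivity, max (max Z₁ 1 ^ 2) (max Z₂ Z₃),
    fun Z hZ M hM J m K hJ hm hK hJmK => ?_⟩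
  obtain ⟨e1, e2, e3, e4, e5, e6, e7⟩ := hev Z (((le_max_left _ _).trans (le_max_right _ _)).trans hZ)
  obtain ⟨s1, s2⟩ := hsqrt Z (((le_max_right _ _).trans (le_max_right _ _)).trans hZ)
  obtain ⟨w, hw⟩ : ∃ w : ℝ, w = (Real.log Z) ^ (1 / 60 : ℝ) := ⟨_, rfl⟩
  obtain ⟨Y, hY⟩ : ∃ Y : ℝ, Y = Real.sqrt Z := ⟨_, rfl⟩
  rw [← hw] at e3 e4 e5 e6 e7
  rw [← hY] at e5 e6 e7 s2
  have hYZ : Y * Y = Z := by rw [hY]; exact Real.mul_self_sqrt (by linarith)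
  have hY1 : max Z₁ 1 ≤ Y := by
    rw [hY]
    exact Real.le_sqrt_of_sq_le ((le_max_left _ _).trans hZ)
  have hYone : 1 ≤ Y := (le_max_right _ _).trans hY1
  have hYleZ : Y ≤ Z := by nlinarith
  have hlogY : Real.log Y ≤ Real.log Z := Real.log_le_log (by linarith) hYleZ
  have hJ1 : (1 : ℝ) ≤ J := by exact_mod_cast hJ
  have hm1 : (1 : ℝ) ≤ m := by exact_mod_cast hm
  -- the size of the parameters
  have hD : (J : ℝ) * m ≤ w := by
    have h1 : (J : ℝ) * m * Real.log Z ≤ w * Real.log Z :=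
      (mul_le_mul_of_nonneg_left hK (by positivity)).trans (hJmK.trans e3)
    exact le_of_mul_le_mul_right h1 e1
  have hJw : (J : ℝ) ≤ w := by nlinarith
  have hmw : (m : ℝ) ≤ w := by nlinarith
  have hK0 : 0 < K := by linarith
  -- the power of two
  have hex : ∃ k : ℕ, 2 * J + 1 ≤ m * 2 ^ k := by
    refine ⟨2 * J + 1, ?_⟩
    have h1 : 2 * J + 1 < 2 ^ (2 * J + 1) := Nat.lt_two_pow_self
    calc 2 * J + 1 ≤ 1 * 2 ^ (2 * J + 1) := by omega
      _ ≤ m * 2 ^ (2 * J + 1) := Nat.mul_le_mul_right _ hm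
  obtain ⟨k, hk⟩ : ∃ k : ℕ, k = Nat.find hex := ⟨_, rfl⟩
  obtain ⟨r, hr⟩ : ∃ r : ℕ, r = 2 ^ k := ⟨_, rfl⟩
  have hr0 : 0 < r := by rw [hr]; positivity
  have hmr1 : 2 * J + 1 ≤ m * r := by rw [hr, hk]; exact Nat.find_spec hex
  have hmr2 : r = 1 ∨ m * r ≤ 6 * J := by
    rcases Nat.eq_zero_or_pos k with h | h
    · left; rw [hr, h]; norm_num
    · right
      have h1 := Nat.find_min hex (m := k - 1) (by omega)
      have h2 : (2 : ℕ) ^ k = 2 * 2 ^ (k - 1) := by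
        conv_lhs => rw [show k = 1 + (k - 1) by omega, pow_add, pow_one]
      have h3 : m * r = 2 * (m * 2 ^ (k - 1)) := by rw [hr, h2]; ring
      omega
  obtain ⟨H, hH⟩ : ∃ H : ℕ, H = 8 * J * m := ⟨_, rfl⟩
  have hH8 : 8 * m ≤ H := by
    rw [hH]
    have : m ≤ J * m := Nat.le_mul_of_pos_left m hJ
    nlinarith
  have hH1 : 1 ≤ H := by omega
  obtain ⟨N, hN⟩ : ∃ N : ℕ, N = 4 * m * (m * r) := ⟨_, rfl⟩
  have hNH : H + 4 * m ≤ N := by
    rw [hN, hH]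
    have : 4 * m * (2 * J + 1) ≤ 4 * m * (m * r) := Nat.mul_le_mul_left _ hmr1
    nlinarith
  have hNH2 : N ≤ H ^ 2 := by
    rcases hmr2 with h | h
    · rw [hN, h]
      nlinarith
    · have h1 : N ≤ 3 * H := by
        rw [hN, hH]
        have : 4 * m * (m * r) ≤ 4 * m * (6 * J) := Nat.mul_le_mul_left _ h
        nlinarith
      nlinarith
  have hmr3 : m * r ≤ m + 6 * J := by
    rcases hmr2 with h | h
    · rw [h]; omega
    · omega
  have hval : ∀ t ∈ fan m H, 1 ≤ t.1 * r + t.2 ∧ t.1 * r + t.2 = (N : ℤ) + t.2 ∧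
      -(H : ℤ) ≤ t.2 ∧ t.2 ≤ H := by
    intro t ht
    obtain ⟨h1, h2⟩ := mem_fan.1 ht
    have h3 := abs_le.1 h2
    have e : t.1 * (r : ℤ) + t.2 = (N : ℤ) + t.2 := by
      rw [h1, hN]; push_cast; ring
    refine ⟨?_, e, h3.1, h3.2⟩
    rw [e]
    have : (H : ℤ) + 4 * m ≤ N := by exact_mod_cast hNH
    have : (1 : ℤ) ≤ m := by exact_mod_cast hm
    omega
  have hinj : Set.InjOn (fun t : ℤ × ℤ => (t.1 * (r : ℤ) + t.2).natAbs) (fan m H : Set (ℤ × ℤ)) := by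
    intro t ht t' ht' e
    have g := hval t (Finset.mem_coe.1 ht)
    have g' := hval t' (Finset.mem_coe.1 ht')
    have e0 : (t.1 * (r : ℤ) + t.2).natAbs = (t'.1 * (r : ℤ) + t'.2).natAbs := e
    have e1 : t.2 = t'.2 := by omega
    have e2 : t.1 = t'.1 := by rw [(mem_fan.1 (Finset.mem_coe.1 ht)).1, (mem_fan.1 (Finset.mem_coe.1 ht')).1]
    exact Prod.ext e2 e1
  have hss : ∀ t ∈ fan m H, ss r t = ((2 : ℕ) ^ k : ℕ) * (((t.1 * (r : ℤ) + t.2).natAbs : ℕ) : ℤ) := by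
    intro t ht
    have g := (hval t ht).1
    unfold ss
    rw [← hr, Int.natAbs_of_nonneg (by omega)]
  have hsum : ∑ t ∈ fan m H, GG (ss r t) ^ 2 ≤ 4 * (C * H) := by
    have h1 : ∑ t ∈ fan m H, GG (ss r t) ^ 2 ≤ ∑ t ∈ fan m H,
        4 * ((((t.1 * (r : ℤ) + t.2).natAbs : ℕ) : ℝ) /
          (Nat.totient ((t.1 * (r : ℤ) + t.2).natAbs) : ℝ)) ^ 2 := by
      apply Finset.sum_le_sum
      intro t ht
      have g := (hval t ht).1
      rw [hss t ht]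
      have h2 := GG_pow_two k ((t.1 * (r : ℤ) + t.2).natAbs) (by omega)
      have h3 : 0 ≤ GG (((2 : ℕ) ^ k : ℕ) * (((t.1 * (r : ℤ) + t.2).natAbs : ℕ) : ℤ)) := by
        unfold GG; positivity
      have h4 := pow_le_pow_left₀ h3 h2 2
      rw [mul_pow] at h4
      norm_num at h4 ⊢
      exact h4
    refine h1.trans ?_
    rw [← Finset.mul_sum]
    apply mul_le_mul_of_nonneg_left _ (by norm_num)
    rw [← Finset.sum_image (s := fan m H) (g := fun t : ℤ × ℤ => (t.1 * (r : ℤ) + t.2).natAbs)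
      (f := fun n : ℕ => ((n : ℝ) / (Nat.totient n : ℝ)) ^ 2) hinj]
    refine le_trans ?_ (havg (N - H) (N + H) H (by omega) hH1 (by omega) (by nlinarith))
    apply Finset.sum_le_sum_of_subset_of_nonneg
    · intro n hn'
      rw [mem_image] at hn'
      obtain ⟨t, ht, rfl⟩ := hn'
      obtain ⟨g1, g2, g3, g4⟩ := hval t ht
      rw [Finset.mem_Icc]
      omega
    · intro _ _ _
      positivity
  have hHR : (H : ℝ) = 8 * (J * m) := by rw [hH]; push_cast; ring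
  have hHw : (H : ℝ) ≤ 8 * w ^ 2 := by rw [hHR]; nlinarith
  have hmrR : (m : ℝ) * r ≤ 7 * w := by
    have : (m : ℝ) * r ≤ m + 6 * J := by exact_mod_cast hmr3
    linarith
  have hrR : (r : ℝ) ≤ 7 * w := by
    have : (0 : ℝ) ≤ r := by positivity
    nlinarith
  have hT1 : ∀ t ∈ fan m H, 0 ≤ t.1 ∧ (t.1 : ℝ) ≤ (Real.log Y) ^ (1 / 20 : ℝ) ∧
      |(t.2 : ℝ)| ≤ (Real.log Y) ^ (1 / 20 : ℝ) ∧ (t.1 = 0 → 0 < t.2) := by
    intro t ht
    obtain ⟨h1, h2⟩ := mem_fan.1 ht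
    refine ⟨by rw [h1]; positivity, ?_, ?_, ?_⟩
    · rw [h1]
      push_cast
      have : (m : ℝ) ^ 2 ≤ w ^ 2 := pow_le_pow_left₀ (by positivity) hmw 2
      nlinarith
    · refine le_trans ?_ (hHw.trans e5)
      exact_mod_cast h2
    · intro h3
      rw [h1] at h3
      have : (0 : ℤ) < 4 * (m : ℤ) ^ 2 := by positivity
      omega
  have hT2 : ∀ t ∈ fan m H, ss r t ≠ 0 ∧ |(ss r t : ℝ)| ≤ Real.log Y := by
    intro t ht
    obtain ⟨g1, g2, g3, g4⟩ := hval t ht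
    have hpos : 0 < ss r t := by
      unfold ss
      have : (0 : ℤ) < r := by exact_mod_cast hr0
      exact mul_pos this (by omega)
    refine ⟨hpos.ne', ?_⟩
    rw [abs_of_nonneg (by exact_mod_cast hpos.le)]
    have h1 : ss r t ≤ r * (N + H) := by
      unfold ss
      exact mul_le_mul_of_nonneg_left (by omega) (by positivity)
    have h2 : (ss r t : ℝ) ≤ r * (N + H) := by exact_mod_cast h1
    have h3 : (N : ℝ) = 4 * m * (m * r) := by rw [hN]; push_cast; ring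
    have h4 : (r : ℝ) * (N + H) = 4 * (m * r) ^ 2 + (m * r) * (8 * J) := by
      rw [h3, hHR]; ring
    have h5 : ((m : ℝ) * r) ^ 2 ≤ (7 * w) ^ 2 := pow_le_pow_left₀ (by positivity) hmrR 2
    have h6 : ((m : ℝ) * r) * (8 * J) ≤ (7 * w) * (8 * w) :=
      mul_le_mul hmrR (by linarith) (by positivity) (by positivity)
    nlinarith
  have hne : (fan m H).Nonempty := ⟨(4 * (m : ℤ) ^ 2, 0), mem_fan.2 ⟨rfl, by simp⟩⟩
  have hT3 : (∑ t ∈ fan m H, GG (ss r t) ^ 2) * (2 * K) ≤ c * ff Y := by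
    have h1 : (∑ t ∈ fan m H, GG (ss r t) ^ 2) * (2 * K) ≤ 4 * (C * H) * (2 * K) :=
      mul_le_mul_of_nonneg_right hsum (by positivity)
    have h2 : 4 * (C * H) * (2 * K) = 64 * C * (J * m * K) := by rw [hHR]; ring
    have h3 : 64 * C * ((J : ℝ) * m * K) ≤ 64 * C * (c / (1024 * C + c) * ff Z) :=
      mul_le_mul_of_nonneg_left hJmK (by positivity)
    have h6 : 64 * C * (c / (1024 * C + c) * ff Z) ≤ 64 * C * (c / (1024 * C + c) * (16 * ff Y)) := by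
      gcongr
    have h7 : 0 < ff Y := by linarith
    have h5 : (1024 * C + c) * (c / (1024 * C + c) * ff Y) = c * ff Y := by
      field_simp
    have h8 : 0 ≤ c * (c / (1024 * C + c) * ff Y) := by positivity
    nlinarith
  have hm0 : (0 : ℝ) < m := by linarith
  have hMm : Y ≤ M / m := by
    rw [le_div_iff₀ hm0]
    nlinarith
  obtain ⟨x, hx1, hx2, _, hx4⟩ := hmain Y ((le_max_left _ _).trans hY1) (M / m) hMm (fan m H) r (2 * K)
    hne (by linarith) hT1 hT2 hT3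
  refine ⟨x, ?_, ?_, fun i j hi hj1 hj2 q hq => ?_⟩
  · rw [div_lt_iff₀ hm0] at hx1
    linarith
  · have h1 : (m : ℝ) * x ≤ m * (M / m + Y) := mul_le_mul_of_nonneg_left hx2 hm0.le
    have h2 : (m : ℝ) * (M / m + Y) = M + m * Y := by field_simp
    have h3 : (m : ℝ) * Y ≤ Y * Y := mul_le_mul_of_nonneg_right (hmw.trans e7) (by linarith)
    linarith
  · have hb : (4 * (m : ℤ) ^ 2, 4 * i * m + j) ∈ fan m H := by
      refine mem_fan.2 ⟨rfl, ?_⟩
      simp only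
      have hi' := abs_le.1 hi
      have h1 : i * (m : ℤ) ≤ J * m := mul_le_mul_of_nonneg_right hi'.2 (by positivity)
      have h2 : -(J : ℤ) * m ≤ i * m := mul_le_mul_of_nonneg_right hi'.1 (by positivity)
      have h3 : (m : ℤ) ≤ J * m := le_mul_of_one_le_left (by positivity) (by exact_mod_cast hJ)
      have h4 : (H : ℤ) = 8 * (J * m) := by rw [hH]; push_cast; ring
      have h5 : 4 * i * (m : ℤ) = 4 * (i * m) := by ring
      rw [abs_le, h4, h5]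
      constructor
      · linarith
      · linarith
    have h1 := hx4 _ hb q hq
    simp only at h1
    push_cast at h1
    have hi2 : ((i : ℝ)) ^ 2 ≤ K := by
      have h2 : |(i : ℝ)| ≤ J := by exact_mod_cast hi
      have h3 : ((i : ℝ)) ^ 2 ≤ (J : ℝ) ^ 2 := by
        rw [← sq_abs]; exact pow_le_pow_left₀ (abs_nonneg _) h2 2
      have h4 : (J : ℝ) ^ 2 ≤ w ^ 2 := pow_le_pow_left₀ (by positivity) hJw 2
      nlinarith
    have h5 : (q : ℝ) - ((2 * (m * (x : ℝ)) + i) ^ 2 + j * x) =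
        ((q : ℝ) - (4 * (m : ℝ) ^ 2 * (x : ℝ) ^ 2 + (4 * i * m + j) * x)) - (i : ℝ) ^ 2 := by ring
    rw [h5]
    have h6 := abs_sub_abs_le_abs_sub ((q : ℝ) - (4 * (m : ℝ) ^ 2 * (x : ℝ) ^ 2 + (4 * i * m + j) * x))
      ((i : ℝ) ^ 2)
    rw [abs_of_nonneg (sq_nonneg (i : ℝ))] at h6
    linarith

end Pool.Agent.K6.H26.QW
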